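import Mathlib
import Pool.Agent.Q268.DP.Basic

/-!
Exponential moments of the number of displaced elements in a window.
-/

set_option autoImplicit false

namespace Pool.Agent.Q268.DL

open Filter Finset MeasureTheory ProbabilityTheory
open Pool.Agent.Q268.DP
open scoped ENNReal Topology

/-- the number of elements of `S` in `A` -/
noncomputable def cn (S : Set ℕ) (A : Finset ℕ) : ℕ := by
  classical
  exact (A.filter (fun m => m ∈ S)).card

/-- the mean number of arrivals in `A` of the elements of `P` up to `N` -/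
noncomputable def mn (P : ℕ → Prop) (D : ℕ → ℕ) (N : ℕ) (A : Finset ℕ) : ℝ := ∑ q ∈ upto P N, pr D A q

theorem pr_sum (D : ℕ → ℕ) (A : Finset ℕ) (q : ℕ) : pr D A q = ∑ m ∈ A, pr D {m} q := by
  classical
  induction A using Finset.induction_on with
  | empty => simp [pr]
  | insert a s ha ih =>
    rw [Finset.sum_insert ha, ← ih, ← pr_union D (Finset.disjoint_singleton_left.2 ha) q]
    rfl

theorem mn_sum (P : ℕ → Prop) (D : ℕ → ℕ) (N : ℕ) (A : Finset ℕ) : mn P D N A = ∑ m ∈ A, mn P D N {m} := by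
  unfold mn
  rw [Finset.sum_comm]
  exact Finset.sum_congr rfl fun q _ => pr_sum D A q

theorem mn_nonneg (P : ℕ → Prop) (D : ℕ → ℕ) (N : ℕ) (A : Finset ℕ) : 0 ≤ mn P D N A :=
  Finset.sum_nonneg fun q _ => pr_nonneg D A q

theorem one_sub_sum_le {ι : Type} (s : Finset ι) (f : ι → ℝ) (h0 : ∀ i ∈ s, 0 ≤ f i) (h1 : ∀ i ∈ s, f i ≤ 1) :
    1 - ∑ i ∈ s, f i ≤ ∏ i ∈ s, (1 - f i) := by
  classical
  induction s using Finset.induction_on with
  | empty => simp
  | insert a s ha ih =>
    rw [Finset.sum_insert ha, Finset.prod_insert ha]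
    have i1 := ih (fun i hi => h0 i (Finset.mem_insert_of_mem hi)) (fun i hi => h1 i (Finset.mem_insert_of_mem hi))
    have a0 := h0 a (Finset.mem_insert_self a s)
    have a1 := h1 a (Finset.mem_insert_self a s)
    have s0 : 0 ≤ ∑ i ∈ s, f i := Finset.sum_nonneg fun i hi => h0 i (Finset.mem_insert_of_mem hi)
    have h2 : (1 - f a) * (1 - ∑ i ∈ s, f i) ≤ (1 - f a) * ∏ i ∈ s, (1 - f i) :=
      mul_le_mul_of_nonneg_left i1 (by linarith)
    nlinarith [mul_nonneg a0 s0]

variable {Ω : Type} [MeasurableSpace Ω] {μ : Measure Ω} {X : ℕ → Ω → ℕ} {D : ℕ → ℕ}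

/-- the probability that `m` is not hit -/
noncomputable def av1 (P : ℕ → Prop) (D : ℕ → ℕ) (N m : ℕ) : ℝ := ∏ q ∈ upto P N, (1 - pr D {m} q)

theorem av1_nonneg (P : ℕ → Prop) (D : ℕ → ℕ) (N m : ℕ) : 0 ≤ av1 P D N m :=
  Finset.prod_nonneg fun q _ => by linarith [pr_le_one D {m} q]

theorem av1_le (P : ℕ → Prop) (D : ℕ → ℕ) (N m : ℕ) : av1 P D N m ≤ Real.exp (-mn P D N {m}) := by
  unfold av1 mn
  rw [← Finset.sum_neg_distrib, Real.exp_sum]
  apply Finset.prod_le_prod
  · intro q _
    linarith [pr_le_one D {m} q]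
  · intro q _
    have := Real.add_one_le_exp (-pr D {m} q)
    linarith

/-- negative association of the avoidance of points -/
theorem real_Av_le (hX : Disp μ X D) (P : ℕ → Prop) {A : Finset ℕ} {N : ℕ} (hN : ∀ m ∈ A, m ≤ N) :
    μ.real (Av P X A) ≤ ∏ m ∈ A, av1 P D N m := by
  rw [Measure.real, prob_Av hX P hN, ENNReal.toReal_ofReal
    (Finset.prod_nonneg fun q _ => by linarith [pr_le_one D A q])]
  unfold av1
  rw [Finset.prod_comm]
  apply Finset.prod_le_prod
  · intro q _
    linarith [pr_le_one D A q]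
  · intro q _
    rw [pr_sum D A q]
    exact one_sub_sum_le A _ (fun m _ => pr_nonneg D {m} q) (fun m _ => pr_le_one D {m} q)

/-- the exponential moment for the lower tail -/
theorem lower_mgf (hX : Disp μ X D) (P : ℕ → Prop) {W : Finset ℕ} {N : ℕ} (hN : ∀ m ∈ W, m ≤ N) {s : ℝ}
    (hs0 : 0 ≤ s) (hs1 : s ≤ 1) :
    ∫ ω, (1 - s) ^ cn (moved P X ω) W ∂μ ≤ ∏ m ∈ W, (1 - s * (1 - av1 P D N m)) := by
  classical
  have hP : IsProbabilityMeasure μ := hX.indep.isProbabilityMeasure
  have h1 : ∀ ω, (1 - s) ^ cn (moved P X ω) W =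
      ∑ t ∈ W.powerset, s ^ t.card * (1 - s) ^ (W \ t).card * (Av P X t).indicator (fun _ => (1 : ℝ)) ω := by
    intro ω
    have h2 : (1 - s) ^ cn (moved P X ω) W =
        ∏ m ∈ W, (s * (if m ∈ moved P X ω then 0 else 1) + (1 - s)) := by
      have h3 : ∀ m ∈ W, (s * (if m ∈ moved P X ω then 0 else 1) + (1 - s)) =
          if m ∈ moved P X ω then (1 - s) else 1 := by
        intro m _
        split_ifs <;> ring
      rw [Finset.prod_congr rfl h3, Finset.prod_ite, Finset.prod_const, Finset.prod_const_one, mul_one]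
      unfold cn
      congr!
    rw [h2, Finset.prod_add]
    refine Finset.sum_congr rfl fun t _ => ?_
    rw [Finset.prod_mul_distrib, Finset.prod_const, Finset.prod_const]
    have h3 : ∏ i ∈ t, (if i ∈ moved P X ω then (0 : ℝ) else 1) = (Av P X t).indicator (fun _ => (1 : ℝ)) ω := by
      by_cases hω : ω ∈ Av P X t
      · rw [Set.indicator_of_mem hω]
        apply Finset.prod_eq_one
        intro i hi
        rw [if_neg (hω i hi)]
      · rw [Set.indicator_of_notMem hω]
        simp only [Av, Set.mem_ofPred_eq, not_forall, not_not] at hω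
        obtain ⟨m, hm, hmm⟩ := hω
        apply Finset.prod_eq_zero hm
        rw [if_pos hmm]
    rw [h3]
    ring
  simp only [h1]
  have hint : ∀ t : Finset ℕ, Integrable ((Av P X t).indicator (fun _ => (1 : ℝ))) μ := fun t =>
    (integrable_const (1 : ℝ)).indicator (meas_Av hX P t)
  rw [integral_finsetSum _ (fun t _ => (hint t).const_mul _)]
  have h4 : ∀ m ∈ W, (1 - s * (1 - av1 P D N m)) = (s * av1 P D N m + (1 - s)) := by
    intro m _
    ring
  rw [Finset.prod_congr rfl h4, Finset.prod_add]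
  apply Finset.sum_le_sum
  intro t ht
  rw [Finset.mem_powerset] at ht
  rw [integral_const_mul, integral_indicator_const _ (meas_Av hX P t), smul_eq_mul, mul_one,
    Finset.prod_mul_distrib, Finset.prod_const, Finset.prod_const]
  have h5 := real_Av_le hX P (A := t) (N := N) (fun m hm => hN m (ht hm))
  have h6 : 0 ≤ s ^ t.card * (1 - s) ^ (W \ t).card := by
    have : 0 ≤ 1 - s := by linarith
    positivity
  calc s ^ t.card * (1 - s) ^ (W \ t).card * μ.real (Av P X t)
      ≤ s ^ t.card * (1 - s) ^ (W \ t).card * ∏ m ∈ t, av1 P D N m := mul_le_mul_of_nonneg_left h5 h6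
    _ = _ := by ring

/-- the number of arrivals with multiplicity -/
noncomputable def arr (P : ℕ → Prop) (X : ℕ → Ω → ℕ) (N : ℕ) (W : Finset ℕ) (ω : Ω) : ℝ :=
  ∑ q ∈ upto P N, {ω | q + X q ω ∈ W}.indicator (fun _ => (1 : ℝ)) ω

omit [MeasurableSpace Ω] in
theorem cn_le_arr (P : ℕ → Prop) (X : ℕ → Ω → ℕ) {W : Finset ℕ} {N : ℕ} (hN : ∀ m ∈ W, m ≤ N) (ω : Ω) :
    (cn (moved P X ω) W : ℝ) ≤ arr P X N W ω := by
  classical
  have h1 : arr P X N W ω = (((upto P N).filter (fun q => q + X q ω ∈ W)).card : ℝ) := by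
    unfold arr
    rw [Finset.card_filter]
    push_cast
    refine Finset.sum_congr rfl fun q _ => ?_
    by_cases h : q + X q ω ∈ W <;> simp [h]
  rw [h1]
  have h2 : cn (moved P X ω) W ≤ ((upto P N).filter (fun q => q + X q ω ∈ W)).card := by
    unfold cn
    have h3 : W.filter (fun m => m ∈ moved P X ω) ⊆
        ((upto P N).filter (fun q => q + X q ω ∈ W)).image (fun q => q + X q ω) := by
      intro m hm
      rw [Finset.mem_filter] at hm
      obtain ⟨hmW, q, hq, hmq⟩ := hm
      rw [Finset.mem_image]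
      refine ⟨q, ?_, hmq.symm⟩
      rw [Finset.mem_filter, mem_upto]
      have := hN m hmW
      exact ⟨⟨by omega, hq⟩, hmq ▸ hmW⟩
    calc (W.filter (fun m => m ∈ moved P X ω)).card
        ≤ (((upto P N).filter (fun q => q + X q ω ∈ W)).image (fun q => q + X q ω)).card :=
          Finset.card_le_card h3
      _ ≤ _ := Finset.card_image_le
  exact_mod_cast h2

theorem mgf_indicator [IsProbabilityMeasure μ] {E : Set Ω} (hE : MeasurableSet E) (t : ℝ) :
    mgf (E.indicator (fun _ => (1 : ℝ))) μ t = 1 + (Real.exp t - 1) * μ.real E := by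
  unfold mgf
  have h1 : ∀ ω, Real.exp (t * E.indicator (fun _ => (1 : ℝ)) ω) =
      1 + (Real.exp t - 1) * E.indicator (fun _ => (1 : ℝ)) ω := by
    intro ω
    by_cases h : ω ∈ E <;> simp [h]
  have hint : Integrable (E.indicator (fun _ => (1 : ℝ))) μ := (integrable_const (1 : ℝ)).indicator hE
  simp only [h1]
  have e1 : ∫ ω, (1 + (Real.exp t - 1) * E.indicator (fun _ => (1 : ℝ)) ω) ∂μ =
      ∫ _ω, (1 : ℝ) ∂μ + ∫ ω, (Real.exp t - 1) * E.indicator (fun _ => (1 : ℝ)) ω ∂μ :=
    integral_add (integrable_const _) (hint.const_mul _)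
  rw [e1, integral_const_mul, integral_indicator_const _ hE]
  simp

theorem upper_mgf (hX : Disp μ X D) (P : ℕ → Prop) (W : Finset ℕ) (N : ℕ) (t : ℝ) :
    mgf (arr P X N W) μ t ≤ Real.exp ((Real.exp t - 1) * mn P D N W) := by
  have hP : IsProbabilityMeasure μ := hX.indep.isProbabilityMeasure
  have hE : ∀ q, MeasurableSet {ω | q + X q ω ∈ W} := fun q => meas_set hX q {d | q + d ∈ W}
  have h1 : arr P X N W = ∑ q ∈ upto P N, {ω | q + X q ω ∈ W}.indicator (fun _ => (1 : ℝ)) := by
    funext ω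
    rw [Finset.sum_apply]
    rfl
  have h2 : iIndepFun (fun q : ℕ => {ω | q + X q ω ∈ W}.indicator (fun _ => (1 : ℝ))) μ := by
    have h3 := hX.indep.comp (fun (q : ℕ) (d : ℕ) => ({d | q + d ∈ W} : Set ℕ).indicator (fun _ => (1 : ℝ)) d)
      (fun q => measurable_of_countable _)
    exact h3
  have h3 : ∀ q : ℕ, Measurable ({ω | q + X q ω ∈ W}.indicator (fun _ => (1 : ℝ))) := fun q =>
    measurable_const.indicator (hE q)
  rw [h1, h2.mgf_sum h3]
  unfold mn
  rw [Finset.mul_sum, Real.exp_sum]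
  apply Finset.prod_le_prod
  · intro q _
    exact mgf_nonneg
  · intro q _
    rw [mgf_indicator (hE q)]
    have h4 : μ.real {ω | q + X q ω ∈ W} = pr D W q := by
      rw [Measure.real, hit hX, ENNReal.toReal_ofReal (pr_nonneg D W q)]
    rw [h4]
    have := Real.add_one_le_exp ((Real.exp t - 1) * pr D W q)
    linarith

end Pool.Agent.Q268.DL
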