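import Mathlib
import Pool.Agent.Q268.DL.Mgf

/-!
Tail bounds and the almost sure asymptotic formula for the number of displaced elements in windows.
-/

set_option autoImplicit false

namespace Pool.Agent.Q268.DL

open Filter Finset MeasureTheory ProbabilityTheory
open Pool.Agent.Q268.DP
open scoped ENNReal Topology

theorem exp_neg_le {d : ℝ} (hd : 0 ≤ d) : Real.exp (-d) ≤ 1 - d + d ^ 2 := by
  have h1 := Real.add_one_le_exp d
  have h2 : Real.exp (-d) * Real.exp d = 1 := by
    rw [← Real.exp_add]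
    simp
  have h3 := Real.exp_pos (-d)
  by_contra hcon
  push Not at hcon
  have h4 : 0 < 1 - d + d ^ 2 := by nlinarith [sq_nonneg (d - 1 / 2)]
  have h5 : (1 - d + d ^ 2) * (1 + d) < Real.exp (-d) * Real.exp d := by
    apply mul_lt_mul hcon (by linarith) (by linarith) h3.le
  rw [h2] at h5
  have h6 : 0 ≤ d ^ 3 := by positivity
  nlinarith

theorem exp_le {l : ℝ} (h1 : l ≤ 1 / 2) : Real.exp l ≤ 1 + l + 2 * l ^ 2 := by
  have h2 := Real.add_one_le_exp (-l)
  have h3 : Real.exp (-l) * Real.exp l = 1 := by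
    rw [← Real.exp_add]
    simp
  have h4 := Real.exp_pos l
  have h5 : (1 - l) * Real.exp l ≤ 1 := by nlinarith
  have h6 : 1 ≤ (1 - l) * (1 + l + 2 * l ^ 2) := by
    have : 0 ≤ l ^ 2 * (1 - 2 * l) := mul_nonneg (sq_nonneg l) (by linarith)
    nlinarith
  have h7 : (1 - l) * Real.exp l ≤ (1 - l) * (1 + l + 2 * l ^ 2) := h5.trans h6
  exact le_of_mul_le_mul_left h7 (by linarith)

variable {Ω : Type} [MeasurableSpace Ω] {μ : Measure Ω} {X : ℕ → Ω → ℕ} {D : ℕ → ℕ}

theorem meas_mem (hX : Disp μ X D) (P : ℕ → Prop) (m : ℕ) : MeasurableSet {ω | m ∈ moved P X ω} := by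
  have h1 := (meas_Av hX P {m}).compl
  convert h1 using 1
  ext ω
  simp [Av]

theorem meas_cn (hX : Disp μ X D) (P : ℕ → Prop) (W : Finset ℕ) :
    Measurable (fun ω => (cn (moved P X ω) W : ℝ)) := by
  classical
  have h1 : (fun ω => (cn (moved P X ω) W : ℝ)) =
      fun ω => ∑ m ∈ W, {ω | m ∈ moved P X ω}.indicator (fun _ => (1 : ℝ)) ω := by
    funext ω
    unfold cn
    rw [Finset.card_filter]
    push_cast
    refine Finset.sum_congr rfl fun m _ => ?_
    by_cases h : m ∈ moved P X ω <;> simp [h]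
  rw [h1]
  exact Finset.measurable_fun_sum _ fun m _ => measurable_const.indicator (meas_mem hX P m)

theorem cn_le_card (S : Set ℕ) (W : Finset ℕ) : cn S W ≤ W.card := by
  classical
  unfold cn
  exact Finset.card_filter_le _ _

theorem tail_lower (hX : Disp μ X D) (P : ℕ → Prop) {W : Finset ℕ} {N : ℕ} (hN : ∀ m ∈ W, m ≤ N) {ε T : ℝ}
    (h0 : 0 < ε) (h1 : ε ≤ 1) (hd : ∀ m ∈ W, mn P D N {m} ≤ ε / 4) (hT : mn P D N W ≤ T) :
    μ.real {ω | (cn (moved P X ω) W : ℝ) ≤ mn P D N W - ε * T} ≤ Real.exp (-(ε ^ 2 * T / 8)) := by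
  have hP : IsProbabilityMeasure μ := hX.indep.isProbabilityMeasure
  set M := mn P D N W with hM
  have hM0 : 0 ≤ M := mn_nonneg P D N W
  set l := ε / 4 with hl
  have hl0 : 0 ≤ l := by positivity
  set s := 1 - Real.exp (-l) with hs
  have hs0 : 0 ≤ s := by
    have : Real.exp (-l) ≤ 1 := Real.exp_le_one_iff.2 (by linarith)
    linarith
  have hs1 : s ≤ 1 := by linarith [Real.exp_pos (-l)]
  have hsl : l * (1 - l) ≤ s := by
    have := exp_neg_le hl0
    rw [hs]
    nlinarith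
  have hint : Integrable (fun ω => Real.exp (-l * (cn (moved P X ω) W : ℝ))) μ := by
    refine Integrable.of_bound ((Real.measurable_exp.comp ((meas_cn hX P W).const_mul (-l))).aestronglyMeasurable) 1 ?_
    refine Eventually.of_forall fun ω => ?_
    rw [Real.norm_eq_abs, abs_of_pos (Real.exp_pos _)]
    apply Real.exp_le_one_iff.2
    have : (0 : ℝ) ≤ cn (moved P X ω) W := Nat.cast_nonneg _
    nlinarith
  have g1 := measure_le_le_exp_mul_mgf (μ := μ) (X := fun ω => (cn (moved P X ω) W : ℝ)) (t := -l)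
    (M - ε * T) (by linarith) hint
  refine g1.trans ?_
  have g2 : mgf (fun ω => (cn (moved P X ω) W : ℝ)) μ (-l) ≤ Real.exp (-(s * ((1 - l) * M))) := by
    have e1 : mgf (fun ω => (cn (moved P X ω) W : ℝ)) μ (-l) = ∫ ω, (1 - s) ^ cn (moved P X ω) W ∂μ := by
      have e2 : 1 - s = Real.exp (-l) := by rw [hs]; ring
      have e4 : ∀ ω, Real.exp (-l * (cn (moved P X ω) W : ℝ)) = (1 - s) ^ cn (moved P X ω) W := by
        intro ω
        rw [e2, ← Real.exp_nat_mul, mul_comm]
      unfold mgf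
      exact integral_congr_ae (Eventually.of_forall e4)
    rw [e1]
    refine (lower_mgf hX P hN hs0 hs1).trans ?_
    have e3 : (1 - l) * M = ∑ m ∈ W, (1 - l) * mn P D N {m} := by
      rw [hM, mn_sum, Finset.mul_sum]
    rw [e3, Finset.mul_sum, ← Finset.sum_neg_distrib, Real.exp_sum]
    apply Finset.prod_le_prod
    · intro m _
      have := av1_nonneg P D N m
      nlinarith
    · intro m hm
      have d0 := mn_nonneg P D N {m}
      have d1 := hd m hm
      have d2 := av1_le P D N m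
      have d3 := exp_neg_le d0
      have d4 : (1 - l) * mn P D N {m} ≤ 1 - av1 P D N m := by
        rw [hl]
        nlinarith
      have d5 := Real.add_one_le_exp (-(s * ((1 - l) * mn P D N {m})))
      have d6 : s * ((1 - l) * mn P D N {m}) ≤ s * (1 - av1 P D N m) := mul_le_mul_of_nonneg_left d4 hs0
      linarith
  refine (mul_le_mul_of_nonneg_left g2 (Real.exp_pos _).le).trans ?_
  rw [← Real.exp_add]
  apply Real.exp_le_exp.2
  have k1 : 0 ≤ 1 - l := by
    rw [hl]
    linarith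
  have k2 : l * (1 - l) * ((1 - l) * M) ≤ s * ((1 - l) * M) :=
    mul_le_mul_of_nonneg_right hsl (mul_nonneg k1 hM0)
  have k3 : l * M * (1 - 2 * l) ≤ l * (1 - l) * ((1 - l) * M) := by
    have : 0 ≤ l * M * l ^ 2 := by positivity
    nlinarith
  have k4 : -(-l) * (M - ε * T) - l * M * (1 - 2 * l) = l * (2 * l * M) - l * ε * T := by ring
  have k5 : l * (2 * l * M) ≤ l * (2 * l * T) := by gcongr
  have k6 : l * (2 * l * T) - l * ε * T = -(ε ^ 2 * T / 8) := by
    rw [hl]
    ring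
  linarith

theorem tail_upper (hX : Disp μ X D) (P : ℕ → Prop) {W : Finset ℕ} {N : ℕ} (hN : ∀ m ∈ W, m ≤ N) {ε T : ℝ}
    (h0 : 0 < ε) (h1 : ε ≤ 1) (hT : mn P D N W ≤ T) :
    μ.real {ω | mn P D N W + ε * T ≤ (cn (moved P X ω) W : ℝ)} ≤ Real.exp (-(ε ^ 2 * T / 8)) := by
  have hP : IsProbabilityMeasure μ := hX.indep.isProbabilityMeasure
  set M := mn P D N W with hM
  have hM0 : 0 ≤ M := mn_nonneg P D N W
  set l := ε / 4 with hl
  have hl0 : 0 ≤ l := by positivity
  have hmeas : Measurable (arr P X N W) := by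
    have : arr P X N W = fun ω => ∑ q ∈ upto P N, {ω | q + X q ω ∈ W}.indicator (fun _ => (1 : ℝ)) ω := rfl
    rw [this]
    exact Finset.measurable_fun_sum _ fun q _ =>
      measurable_const.indicator (meas_set hX q {d | q + d ∈ W})
  have hbd : ∀ ω, arr P X N W ω ≤ (upto P N).card := by
    intro ω
    unfold arr
    refine (Finset.sum_le_card_nsmul _ _ 1 ?_).trans (by simp)
    intro q _
    by_cases h : ω ∈ {ω | q + X q ω ∈ W}
    · rw [Set.indicator_of_mem h]
    · rw [Set.indicator_of_notMem h]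
      norm_num
  have hint : Integrable (fun ω => Real.exp (l * arr P X N W ω)) μ := by
    refine Integrable.of_bound ((Real.measurable_exp.comp (hmeas.const_mul l)).aestronglyMeasurable)
      (Real.exp (l * (upto P N).card)) ?_
    refine Eventually.of_forall fun ω => ?_
    rw [Real.norm_eq_abs, abs_of_pos (Real.exp_pos _)]
    apply Real.exp_le_exp.2
    exact mul_le_mul_of_nonneg_left (hbd ω) hl0
  have g0 : μ.real {ω | M + ε * T ≤ (cn (moved P X ω) W : ℝ)} ≤ μ.real {ω | M + ε * T ≤ arr P X N W ω} := by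
    apply measureReal_mono
    · intro ω hω
      exact le_trans hω (cn_le_arr P X hN ω)
    · exact measure_ne_top μ _
  refine g0.trans ?_
  have g1 := measure_ge_le_exp_mul_mgf (μ := μ) (X := arr P X N W) (t := l) (M + ε * T) hl0 hint
  refine g1.trans ?_
  refine (mul_le_mul_of_nonneg_left (upper_mgf hX P W N l) (Real.exp_pos _).le).trans ?_
  rw [← Real.exp_add]
  apply Real.exp_le_exp.2
  have k0 := exp_le (l := l) (by rw [hl]; linarith)
  have k1 : (Real.exp l - 1) * M ≤ (l + 2 * l ^ 2) * M := by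
    apply mul_le_mul_of_nonneg_right _ hM0
    linarith
  have k2 : l * (2 * l * M) ≤ l * (2 * l * T) := by gcongr
  have k3 : l * (2 * l * T) - l * ε * T = -(ε ^ 2 * T / 8) := by
    rw [hl]
    ring
  have k4 : -l * (M + ε * T) + (Real.exp l - 1) * mn P D N W = (Real.exp l - 1) * M - l * M - l * ε * T := by
    rw [hM]
    ring
  rw [k4]
  nlinarith

theorem mn_single (P : ℕ → Prop) (D : ℕ → ℕ) {m N : ℕ} (h : m ≤ N) : mn P D N {m} = mn P D m {m} := by
  unfold mn
  symm
  apply Finset.sum_subset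
  · intro q hq
    rw [mem_upto] at hq ⊢
    exact ⟨hq.1.trans h, hq.2⟩
  · intro q hq hq2
    rw [mem_upto] at hq hq2
    apply pr_zero
    intro a ha
    rw [Finset.mem_singleton] at ha
    subst ha
    right
    by_contra hcon
    exact hq2 ⟨by omega, hq.2⟩

/-- the mean number of displaced elements of `P` in the window `(n, n + h]` -/
noncomputable def mw (P : ℕ → Prop) (D : ℕ → ℕ) (n h : ℕ) : ℝ := mn P D (n + h) (Ioc n (n + h))

/-- the number of displaced elements of `P` in the window `(n, n + h]` -/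
noncomputable def cw (S : Set ℕ) (n h : ℕ) : ℕ := cn S (Ioc n (n + h))

theorem mw_nonneg (P : ℕ → Prop) (D : ℕ → ℕ) (n h : ℕ) : 0 ≤ mw P D n h := mn_nonneg P D _ _

theorem bc_tail' [IsFiniteMeasure μ] {E : ℕ → Set Ω} {m : ℕ → ℝ}
    (h1 : ∀ᶠ k in atTop, μ (E k) ≤ ENNReal.ofReal (1 / m k)) (hs : Summable fun k => 1 / m k) :
    ∑' k, μ (E k) ≠ ⊤ := by
  obtain ⟨k0, hk0⟩ := eventually_atTop.1 h1
  have h3 : ∑' k, ENNReal.ofReal (1 / m (k + k0)) ≠ ⊤ :=
    Summable.tsum_ofReal_ne_top ((summable_nat_add_iff (f := fun k => 1 / m k) k0).2 hs)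
  have h4 : ∑' k, μ (E (k + k0)) ≠ ⊤ :=
    ne_top_of_le_ne_top h3 (ENNReal.tsum_le_tsum fun k => hk0 (k + k0) (by omega))
  have h5 : ∑ k ∈ range k0, μ (E k) + ∑' k, μ (E (k + k0)) = ∑' k, μ (E k) :=
    ENNReal.summable.sum_add_tsum_nat_add' (f := fun k => μ (E k))
  rw [← h5]
  exact ENNReal.add_ne_top.2 ⟨ENNReal.sum_ne_top.2 fun k _ => measure_ne_top μ _, h4⟩

theorem core_eps (hX : Disp μ X D) (P : ℕ → Prop) (hd : Tendsto (fun m : ℕ => mn P D m {m}) atTop (𝓝 0))
    {ε : ℝ} (h0 : 0 < ε) (h1 : ε ≤ 1) :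
    ∀ᵐ ω ∂μ, ∀ᶠ n : ℕ in atTop, ∀ h : ℕ, 32 / ε ^ 2 * Real.log n ^ 2 ≤ h → h ≤ 3 * n →
      |(cw (moved P X ω) n h : ℝ) - mw P D n h| ≤ ε * (mw P D n h + h / Real.log n) := by
  have hP : IsProbabilityMeasure μ := hX.indep.isProbabilityMeasure
  obtain ⟨m0, hm0⟩ := eventually_atTop.1 (hd.eventually_le_const (show (0 : ℝ) < ε / 4 by positivity))
  -- the bad events
  set B : ℕ → ℕ → Set Ω := fun n h => {ω | (cw (moved P X ω) n h : ℝ) ≤ mw P D n h - ε * (mw P D n h + h / Real.log n)} ∪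
    {ω | mw P D n h + ε * (mw P D n h + h / Real.log n) ≤ (cw (moved P X ω) n h : ℝ)} with hB
  have hprob : ∀ n : ℕ, max m0 3 ≤ n → ∀ h : ℕ, 32 / ε ^ 2 * Real.log n ^ 2 ≤ h →
      μ (B n h) ≤ ENNReal.ofReal (2 * (n : ℝ) ^ (-4 : ℝ)) := by
    intro n hn h hh
    have hn0 : (0 : ℝ) < n := by
      have : 0 < n := by omega
      exact_mod_cast this
    have hL : 0 < Real.log n := Real.log_pos (by exact_mod_cast (by omega : 1 < n))
    have hN : ∀ m ∈ Ioc n (n + h), m ≤ n + h := fun m hm => (Finset.mem_Ioc.1 hm).2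
    have hT : mw P D n h ≤ mw P D n h + h / Real.log n := by
      have : (0 : ℝ) ≤ h / Real.log n := by positivity
      linarith
    have h2 := tail_lower hX P hN h0 h1 (T := mw P D n h + h / Real.log n) (by
      intro m hm
      rw [mn_single P D (hN m hm)]
      exact hm0 m (by have := (Finset.mem_Ioc.1 hm).1; omega)) hT
    have h3 := tail_upper hX P hN h0 h1 (T := mw P D n h + h / Real.log n) hT
    have h4 : Real.exp (-(ε ^ 2 * (mw P D n h + h / Real.log n) / 8)) ≤ (n : ℝ) ^ (-4 : ℝ) := by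
      rw [Real.rpow_def_of_pos hn0]
      apply Real.exp_le_exp.2
      have h5 : 32 / ε ^ 2 * Real.log n ≤ h / Real.log n := by
        rw [le_div_iff₀ hL]
        have h6 : 32 / ε ^ 2 * Real.log n * Real.log n = 32 / ε ^ 2 * Real.log n ^ 2 := by ring
        rw [h6]
        exact hh
      have h6 : ε ^ 2 * (32 / ε ^ 2 * Real.log n) = 32 * Real.log n := by field_simp
      have h7 : ε ^ 2 * (32 / ε ^ 2 * Real.log n) ≤ ε ^ 2 * (mw P D n h + h / Real.log n) := by
        have := mw_nonneg P D n h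
        gcongr
        linarith
      rw [h6] at h7
      linarith
    have h5 : μ.real (B n h) ≤ 2 * (n : ℝ) ^ (-4 : ℝ) := by
      refine (measureReal_union_le _ _).trans ?_
      have h2' := h2.trans h4
      have h3' := h3.trans h4
      unfold cw mw at *
      linarith
    rw [← ofReal_measureReal (μ := μ) (s := B n h)]
    exact ENNReal.ofReal_le_ofReal h5
  set E : ℕ → Set Ω := fun n => ⋃ h ∈ (range (3 * n + 1)).filter (fun h : ℕ => 32 / ε ^ 2 * Real.log n ^ 2 ≤ h), B n h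
    with hE
  have hEp : ∀ᶠ n : ℕ in atTop, μ (E n) ≤ ENNReal.ofReal (1 / ((1 / 8) * (n : ℝ) ^ 3)) := by
    filter_upwards [eventually_ge_atTop (max m0 3)] with n hn
    have hn0 : (0 : ℝ) < n := by
      have : 0 < n := by omega
      exact_mod_cast this
    have hn1 : (1 : ℝ) ≤ n := by
      have : 1 ≤ n := by omega
      exact_mod_cast this
    refine (measure_biUnion_finset_le _ _).trans ?_
    have h2 : ∑ h ∈ (range (3 * n + 1)).filter (fun h : ℕ => 32 / ε ^ 2 * Real.log n ^ 2 ≤ h), μ (B n h) ≤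
        ∑ _h ∈ (range (3 * n + 1)).filter (fun h : ℕ => 32 / ε ^ 2 * Real.log n ^ 2 ≤ h),
          ENNReal.ofReal (2 * (n : ℝ) ^ (-4 : ℝ)) :=
      Finset.sum_le_sum fun h hh => hprob n hn h (Finset.mem_filter.1 hh).2
    refine h2.trans ?_
    rw [Finset.sum_const, nsmul_eq_mul, ← ENNReal.ofReal_natCast, ← ENNReal.ofReal_mul (Nat.cast_nonneg _)]
    apply ENNReal.ofReal_le_ofReal
    have h3 : (((range (3 * n + 1)).filter (fun h : ℕ => 32 / ε ^ 2 * Real.log n ^ 2 ≤ h)).card : ℝ) ≤ 4 * n := by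
      have h4 := Finset.card_filter_le (range (3 * n + 1)) (fun h : ℕ => 32 / ε ^ 2 * Real.log n ^ 2 ≤ h)
      rw [Finset.card_range] at h4
      have h5 : (((range (3 * n + 1)).filter (fun h : ℕ => 32 / ε ^ 2 * Real.log n ^ 2 ≤ h)).card : ℝ) ≤ (3 * n + 1 : ℕ) := by
        exact_mod_cast h4
      push_cast at h5
      linarith
    have h4 : (n : ℝ) ^ (-4 : ℝ) = 1 / (n : ℝ) ^ 4 := by
      rw [Real.rpow_neg hn0.le]
      norm_num
    rw [h4]
    calc (((range (3 * n + 1)).filter (fun h : ℕ => 32 / ε ^ 2 * Real.log n ^ 2 ≤ h)).card : ℝ) * (2 * (1 / (n : ℝ) ^ 4))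
        ≤ 4 * n * (2 * (1 / (n : ℝ) ^ 4)) := by gcongr
      _ = 1 / ((1 / 8) * (n : ℝ) ^ 3) := by
        field_simp
        norm_num
  have hs : Summable fun n : ℕ => 1 / ((1 / 8) * (n : ℝ) ^ 3) := by
    have h2 : Summable fun n : ℕ => 8 * (1 / (n : ℝ) ^ 3) :=
      (Real.summable_one_div_nat_pow.2 (by norm_num : 1 < 3)).mul_left 8
    refine h2.congr fun n => ?_
    rcases Nat.eq_zero_or_pos n with h | h
    · simp [h]
    · have : (n : ℝ) ≠ 0 := by exact_mod_cast h.ne'
      field_simp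
  have h2 := bc_tail' hEp hs
  filter_upwards [ae_eventually_notMem h2] with ω hω
  filter_upwards [hω] with n hn h hh1 hh2
  by_contra hcon
  apply hn
  rw [hE]
  simp only [Set.mem_iUnion, Finset.mem_filter, Finset.mem_range]
  refine ⟨h, ⟨by omega, hh1⟩, ?_⟩
  rw [hB]
  push Not at hcon
  rcases lt_abs.1 hcon with h3 | h3
  · right
    simp only [Set.mem_ofPred_eq]
    linarith
  · left
    simp only [Set.mem_ofPred_eq]
    linarith

end Pool.Agent.Q268.DL
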