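import Mathlib
import Pool.Agent.Q268.DL.Tail

/-!
Counting functions, windows with real end points, and comparison of lower and upper limits.
-/

set_option autoImplicit false

namespace Pool.Agent.Q268.DL

open Filter Finset
open Pool.Agent.Q268.DP
open scoped Topology

/-- the number of elements of `S` up to `N` -/
noncomputable def ct (S : Set ℕ) (N : ℕ) : ℝ := cn S (range (N + 1))

theorem cn_union (S : Set ℕ) {A B : Finset ℕ} (h : Disjoint A B) : cn S (A ∪ B) = cn S A + cn S B := by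
  classical
  unfold cn
  rw [Finset.filter_union, Finset.card_union_of_disjoint (Finset.disjoint_filter_filter h)]

theorem ct_add (S : Set ℕ) (n h : ℕ) : ct S (n + h) = ct S n + cw S n h := by
  unfold ct cw
  have h1 : range (n + h + 1) = range (n + 1) ∪ Ioc n (n + h) := by
    ext m
    simp only [Finset.mem_range, Finset.mem_union, Finset.mem_Ioc]
    omega
  rw [h1, cn_union]
  · push_cast
    rfl
  · rw [Finset.disjoint_left]
    intro m hm hm'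
    rw [Finset.mem_range] at hm
    rw [Finset.mem_Ioc] at hm'
    omega

theorem cw_le (S : Set ℕ) (n h : ℕ) : (cw S n h : ℝ) ≤ h := by
  have := cn_le_card S (Ioc n (n + h))
  rw [Nat.card_Ioc, Nat.add_sub_cancel_left] at this
  exact_mod_cast this

theorem ct_mono (S : Set ℕ) {a b : ℕ} (h : a ≤ b) : ct S a ≤ ct S b := by
  obtain ⟨c, rfl⟩ := Nat.exists_eq_add_of_le h
  rw [ct_add]
  have : (0 : ℝ) ≤ cw S a c := Nat.cast_nonneg _
  linarith

theorem ct_lip (S : Set ℕ) {a b : ℕ} (h : a ≤ b) : ct S b ≤ ct S a + ((b : ℝ) - a) := by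
  obtain ⟨c, rfl⟩ := Nat.exists_eq_add_of_le h
  rw [ct_add]
  have := cw_le S a c
  push_cast
  linarith

theorem ct_abs (S : Set ℕ) (a b : ℕ) : |ct S a - ct S b| ≤ |(a : ℝ) - b| := by
  rcases le_total a b with h | h
  · have h1 := ct_mono S h
    have h2 := ct_lip S h
    have h3 : (a : ℝ) ≤ b := Nat.cast_le.2 h
    rw [abs_of_nonpos (by linarith), abs_of_nonpos (by linarith)]
    linarith
  · have h1 := ct_mono S h
    have h2 := ct_lip S h
    have h3 : (b : ℝ) ≤ a := Nat.cast_le.2 h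
    rw [abs_of_nonneg (by linarith), abs_of_nonneg (by linarith)]
    linarith

/-- the number of elements of `S` in the real interval `(x, x + y]` -/
noncomputable def cR (S : Set ℕ) (x y : ℝ) : ℕ := {n : ℕ | n ∈ S ∧ x < n ∧ (n : ℝ) ≤ x + y}.ncard

theorem cR_eq (S : Set ℕ) {x y : ℝ} (hx : 0 ≤ x) (hy : 0 ≤ y) :
    (cR S x y : ℝ) = ct S ⌊x + y⌋₊ - ct S ⌊x⌋₊ := by
  classical
  have hle : ⌊x⌋₊ ≤ ⌊x + y⌋₊ := Nat.floor_le_floor (by linarith)
  obtain ⟨h, hh⟩ := Nat.exists_eq_add_of_le hle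
  rw [hh, ct_add, add_sub_cancel_left]
  unfold cR cw cn
  have h1 : {n : ℕ | n ∈ S ∧ x < n ∧ (n : ℝ) ≤ x + y} =
      (((Ioc ⌊x⌋₊ (⌊x⌋₊ + h)).filter (fun m => m ∈ S) : Finset ℕ) : Set ℕ) := by
    ext n
    simp only [Set.mem_ofPred_eq, Finset.coe_filter, Finset.mem_Ioc]
    rw [← hh, Nat.floor_lt hx, Nat.le_floor_iff (by linarith)]
    tauto
  rw [h1, Set.ncard_coe_finset]

theorem cR_cw (S : Set ℕ) {x y : ℝ} (hx : 0 ≤ x) (hy : 0 ≤ y) :
    (cR S x y : ℝ) = cw S ⌊x⌋₊ (⌊x + y⌋₊ - ⌊x⌋₊) := by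
  have hle : ⌊x⌋₊ ≤ ⌊x + y⌋₊ := Nat.floor_le_floor (by linarith)
  rw [cR_eq S hx hy]
  have h1 := ct_add S ⌊x⌋₊ (⌊x + y⌋₊ - ⌊x⌋₊)
  rw [Nat.add_sub_cancel' hle] at h1
  linarith

/-- the length of the window of integers -/
theorem floor_len {x y : ℝ} (hx : 0 ≤ x) (hy : 0 ≤ y) : |((⌊x + y⌋₊ - ⌊x⌋₊ : ℕ) : ℝ) - y| ≤ 1 := by
  have hle : ⌊x⌋₊ ≤ ⌊x + y⌋₊ := Nat.floor_le_floor (by linarith)
  rw [Nat.cast_sub hle]
  have h1 := Nat.floor_le (show 0 ≤ x + y by linarith)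
  have h2 := Nat.lt_floor_add_one (x + y)
  have h3 := Nat.floor_le hx
  have h4 := Nat.lt_floor_add_one x
  rw [abs_le]
  constructor <;> linarith

/-- real window against integer window -/
theorem cR_near (S : Set ℕ) {x y : ℝ} (hx : 0 ≤ x) (hy : 0 ≤ y) {n h : ℕ} {K₁ K₂ : ℝ}
    (h1 : |x - n| ≤ K₁) (h2 : |x + y - (n + h : ℕ)| ≤ K₂) :
    |(cR S x y : ℝ) - cw S n h| ≤ K₁ + K₂ + 2 := by
  rw [cR_eq S hx hy]
  have e1 := ct_add S n h
  have e2 : (cw S n h : ℝ) = ct S (n + h) - ct S n := by linarith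
  rw [e2]
  have f1 := ct_abs S ⌊x + y⌋₊ (n + h)
  have f2 := ct_abs S ⌊x⌋₊ n
  have g1 := Nat.floor_le (show 0 ≤ x + y by linarith)
  have g2 := Nat.lt_floor_add_one (x + y)
  have g3 := Nat.floor_le hx
  have g4 := Nat.lt_floor_add_one x
  have k1 : |(⌊x + y⌋₊ : ℝ) - (n + h : ℕ)| ≤ K₂ + 1 := by
    rw [abs_le] at h2 ⊢
    constructor <;> linarith [h2.1, h2.2]
  have k2 : |(⌊x⌋₊ : ℝ) - n| ≤ K₁ + 1 := by
    rw [abs_le] at h1 ⊢
    constructor <;> linarith [h1.1, h1.2]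
  have e3 : ct S ⌊x + y⌋₊ - ct S ⌊x⌋₊ - (ct S (n + h) - ct S n) =
      (ct S ⌊x + y⌋₊ - ct S (n + h)) - (ct S ⌊x⌋₊ - ct S n) := by ring
  rw [e3]
  refine (abs_sub _ _).trans ?_
  linarith

/-- lower limit -/
noncomputable def LL (f : ℝ → ℝ) : EReal := liminf (fun x => (f x : EReal)) atTop

/-- upper limit -/
noncomputable def UU (f : ℝ → ℝ) : EReal := limsup (fun x => (f x : EReal)) atTop

/-- late values of `f` are almost between late values of `g` -/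
def Sub (f g : ℝ → ℝ) : Prop := ∀ ε : ℝ, 0 < ε → ∀ Y : ℝ, ∀ᶠ x in atTop,
  (∃ y, Y ≤ y ∧ (1 - ε) * g y - ε ≤ f x) ∧ (∃ y, Y ≤ y ∧ f x ≤ (1 + ε) * g y + ε)

theorem Sub.LL_le {f g : ℝ → ℝ} (h : Sub f g) : LL g ≤ LL f := by
  apply le_of_forall_lt
  intro c hc
  obtain ⟨c₁, h1, h2⟩ := EReal.lt_iff_exists_real_btwn.1 hc
  obtain ⟨c₂, h3, h4⟩ := EReal.lt_iff_exists_real_btwn.1 h2
  have h5 : c₁ < c₂ := EReal.coe_lt_coe_iff.1 h3
  have h6 : ∀ᶠ y in atTop, (c₂ : EReal) < (g y : EReal) := eventually_lt_of_lt_liminf h4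
  obtain ⟨Y, hY⟩ := eventually_atTop.1 h6
  obtain ⟨ε, hε0, hε1, hε2⟩ : ∃ ε : ℝ, 0 < ε ∧ ε < 1 ∧ c₁ ≤ (1 - ε) * c₂ - ε := by
    have hd : 0 < |c₂| + 1 := by positivity
    refine ⟨min (1 / 2) ((c₂ - c₁) / (|c₂| + 1)), ?_, ?_, ?_⟩
    · apply lt_min
      · norm_num
      · apply div_pos _ hd
        linarith
    · exact lt_of_le_of_lt (min_le_left _ _) (by norm_num)
    · set e := min (1 / 2) ((c₂ - c₁) / (|c₂| + 1)) with he
      have e1 : e ≤ (c₂ - c₁) / (|c₂| + 1) := min_le_right _ _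
      have e0 : 0 ≤ e := le_min (by norm_num) (div_nonneg (by linarith) hd.le)
      rw [le_div_iff₀ hd] at e1
      have e2 := le_abs_self c₂
      have e3 : e * c₂ ≤ e * |c₂| := mul_le_mul_of_nonneg_left e2 e0
      nlinarith
  refine lt_of_lt_of_le h1 ?_
  refine le_liminf_of_le (by isBoundedDefault) ?_
  filter_upwards [h ε hε0 Y] with x hx
  obtain ⟨⟨y, hy, hy2⟩, -⟩ := hx
  have h7 := hY y hy
  rw [EReal.coe_lt_coe_iff] at h7
  rw [EReal.coe_le_coe_iff]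
  have h8 : (1 - ε) * c₂ ≤ (1 - ε) * g y := mul_le_mul_of_nonneg_left h7.le (by linarith)
  linarith

theorem Sub.UU_le {f g : ℝ → ℝ} (h : Sub f g) : UU f ≤ UU g := by
  apply le_of_forall_gt
  intro c hc
  obtain ⟨c₁, h1, h2⟩ := EReal.lt_iff_exists_real_btwn.1 hc
  obtain ⟨c₂, h3, h4⟩ := EReal.lt_iff_exists_real_btwn.1 h1
  have h5 : c₂ < c₁ := EReal.coe_lt_coe_iff.1 h4
  have h6 : ∀ᶠ y in atTop, (g y : EReal) < (c₂ : EReal) := eventually_lt_of_limsup_lt h3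
  obtain ⟨Y, hY⟩ := eventually_atTop.1 h6
  obtain ⟨ε, hε0, hε2⟩ : ∃ ε : ℝ, 0 < ε ∧ (1 + ε) * c₂ + ε ≤ c₁ := by
    have hd : 0 < |c₂| + 1 := by positivity
    refine ⟨(c₁ - c₂) / (|c₂| + 1), div_pos (by linarith) hd, ?_⟩
    set e := (c₁ - c₂) / (|c₂| + 1) with he
    have e0 : 0 ≤ e := div_nonneg (by linarith) hd.le
    have e1 : e * (|c₂| + 1) = c₁ - c₂ := by
      rw [he]
      field_simp
    have e2 := le_abs_self c₂
    have e3 : e * c₂ ≤ e * |c₂| := mul_le_mul_of_nonneg_left e2 e0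
    nlinarith
  refine lt_of_le_of_lt ?_ h2
  refine limsup_le_of_le (by isBoundedDefault) ?_
  filter_upwards [h ε hε0 Y] with x hx
  obtain ⟨-, y, hy, hy2⟩ := hx
  have h7 := hY y hy
  rw [EReal.coe_lt_coe_iff] at h7
  rw [EReal.coe_le_coe_iff]
  have h8 : (1 + ε) * g y ≤ (1 + ε) * c₂ := mul_le_mul_of_nonneg_left h7.le (by linarith)
  linarith

theorem Sub.trans {f g k : ℝ → ℝ} (h1 : Sub f g) (h2 : Sub g k) (hk : ∀ᶠ x in atTop, 0 ≤ k x) : Sub f k := by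
  intro ε hε Y
  obtain ⟨Y₀, hY₀⟩ := eventually_atTop.1 hk
  set e := min (ε / 4) (1 / 4) with he
  have e0 : 0 < e := lt_min (by positivity) (by norm_num)
  have e1 : e ≤ ε / 4 := min_le_left _ _
  have e2 : e ≤ 1 / 4 := min_le_right _ _
  obtain ⟨Z, hZ⟩ := eventually_atTop.1 (h2 e e0 (max Y Y₀))
  filter_upwards [h1 e e0 Z] with x hx
  obtain ⟨⟨y, hy, hy2⟩, y', hy', hy2'⟩ := hx
  obtain ⟨⟨z, hz, hz2⟩, -⟩ := hZ y hy
  obtain ⟨-, z', hz', hz2'⟩ := hZ y' hy'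
  refine ⟨⟨z, (le_max_left _ _).trans hz, ?_⟩, z', (le_max_left _ _).trans hz', ?_⟩
  · have h3 : (1 - e) * ((1 - e) * k z - e) ≤ (1 - e) * g y := mul_le_mul_of_nonneg_left hz2 (by linarith)
    have h4 := hY₀ z ((le_max_right _ _).trans hz)
    nlinarith [mul_nonneg e0.le h4]
  · have h3 : (1 + e) * g y' ≤ (1 + e) * ((1 + e) * k z' + e) := mul_le_mul_of_nonneg_left hz2' (by linarith)
    have h4 := hY₀ z' ((le_max_right _ _).trans hz')
    nlinarith [mul_nonneg e0.le h4, mul_nonneg (mul_nonneg e0.le e0.le) h4]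

/-- `f` and `g` are close -/
def Close (f g : ℝ → ℝ) : Prop := ∀ ε : ℝ, 0 < ε → ∀ᶠ x in atTop, |f x - g x| ≤ ε * (g x + 1)

theorem Close.sub {f g : ℝ → ℝ} (h : Close f g) : Sub f g := by
  intro ε hε Y
  filter_upwards [h ε hε, eventually_ge_atTop Y] with x hx hY
  rw [abs_le] at hx
  exact ⟨⟨x, hY, by linarith [hx.1]⟩, x, hY, by linarith [hx.2]⟩

theorem Close.symm {f g : ℝ → ℝ} (h : Close f g) (hf : ∀ᶠ x in atTop, 0 ≤ f x) : Close g f := by
  intro ε hε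
  set e := min (ε / 4) (1 / 4) with he
  have e0 : 0 < e := lt_min (by positivity) (by norm_num)
  have e1 : e ≤ ε / 4 := min_le_left _ _
  have e2 : e ≤ 1 / 4 := min_le_right _ _
  filter_upwards [h e e0, hf] with x hx h1
  rw [abs_le] at hx ⊢
  have h2 : g x ≤ 2 * f x + 1 := by
    rcases le_or_gt 0 (g x) with hg | hg
    · nlinarith
    · linarith
  have h3 : e * (g x + 1) ≤ e * (2 * f x + 2) := mul_le_mul_of_nonneg_left (by linarith) e0.le
  have h4 : e * (2 * f x + 2) ≤ ε * (f x + 1) := by nlinarith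
  constructor <;> linarith [hx.1, hx.2]

theorem Close.trans {f g k : ℝ → ℝ} (h1 : Close f g) (h2 : Close g k) (hk : ∀ᶠ x in atTop, 0 ≤ k x) : Close f k := by
  intro ε hε
  set e := min (ε / 4) (1 / 4) with he
  have e0 : 0 < e := lt_min (by positivity) (by norm_num)
  have e1 : e ≤ ε / 4 := min_le_left _ _
  have e2 : e ≤ 1 / 4 := min_le_right _ _
  filter_upwards [h1 e e0, h2 e e0, hk] with x hx hy h3
  rw [abs_le] at hx hy ⊢
  have h4 : g x ≤ 2 * k x + 1 := by nlinarith [hy.2]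
  have h5 : e * (g x + 1) ≤ e * (2 * k x + 2) := mul_le_mul_of_nonneg_left (by linarith) e0.le
  have h6 : e * (2 * k x + 2) + e * (k x + 1) ≤ ε * (k x + 1) := by nlinarith
  constructor <;> linarith [hx.1, hx.2, hy.1, hy.2]

end Pool.Agent.Q268.DL
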