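import Mathlib
import Pool.Agent.Q268.DL.Count
import Pool.Agent.Helper923.PPS.BT

/-!
The density of the displaced primes at an integer.
-/

set_option autoImplicit false

namespace Pool.Agent.Q268.DL

open Filter Finset
open Pool.Agent.Q268.DP
open scoped Topology

/-- the primes -/
def PP : Set ℕ := {p | p.Prime}

/-- the mean number of displaced primes at `m` -/
noncomputable def dn (D : ℕ → ℕ) (m : ℕ) : ℝ := mn Nat.Prime D m {m}

theorem dn_nonneg (D : ℕ → ℕ) (m : ℕ) : 0 ≤ dn D m := mn_nonneg _ _ _ _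

theorem mw_dn (D : ℕ → ℕ) (n h : ℕ) : mw Nat.Prime D n h = ∑ m ∈ Ioc n (n + h), dn D m := by
  unfold mw
  rw [mn_sum]
  refine Finset.sum_congr rfl fun m hm => ?_
  exact mn_single Nat.Prime D (Finset.mem_Ioc.1 hm).2

theorem pr_single (D : ℕ → ℕ) (m q : ℕ) :
    pr D {m} q = if q ≤ m ∧ m ≤ q + D q then 1 / ((D q : ℝ) + 1) else 0 := by
  unfold pr
  rw [Finset.filter_singleton]
  split_ifs <;> simp

/-- the primes which can reach `m` -/
noncomputable def src (D : ℕ → ℕ) (m : ℕ) : Finset ℕ := (Icc 0 m).filter (fun q => q.Prime ∧ m ≤ q + D q)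

theorem dn_src (D : ℕ → ℕ) (m : ℕ) : dn D m = ∑ q ∈ src D m, 1 / ((D q : ℝ) + 1) := by
  classical
  unfold dn mn src
  simp only [pr_single]
  rw [← Finset.sum_filter]
  apply Finset.sum_congr
  · ext q
    rw [Finset.mem_filter, Finset.mem_filter, mem_upto, Finset.mem_Icc]
    constructor
    · rintro ⟨⟨h1, h2⟩, h3, h4⟩
      exact ⟨⟨Nat.zero_le _, h1⟩, h2, h4⟩
    · rintro ⟨⟨_, h1⟩, h2, h3⟩
      exact ⟨⟨h1, h2⟩, h1, h3⟩
  · intro q _
    rfl

/-- monotone and regular from `q₀` on -/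
def RegFrom (D : ℕ → ℕ) (q₀ : ℕ) : Prop := ∀ q, q₀ ≤ q → D q ≤ D (q + 1) ∧ D (q + 1) ≤ D q + 1

theorem mono_from {D : ℕ → ℕ} {q₀ : ℕ} (h : ∀ q, q₀ ≤ q → D q ≤ D (q + 1)) {a b : ℕ} (ha : q₀ ≤ a) (hab : a ≤ b) :
    D a ≤ D b := by
  induction b, hab using Nat.le_induction with
  | base => exact le_rfl
  | succ b hb ih => exact ih.trans (h b (by omega))

/-- for large `m` the sources are the primes in `[t, m]`, all beyond `q₁` -/
theorem src_late {D : ℕ → ℕ} {q₀ : ℕ} (h : ∀ q, q₀ ≤ q → D q ≤ D (q + 1)) (q₁ : ℕ) (hq : q₀ ≤ q₁) :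
    ∀ᶠ m : ℕ in atTop, ∃ t, q₁ ≤ t ∧ t ≤ m ∧ m ≤ t + D t ∧
      (∀ q, q ≤ m → (m ≤ q + D q ↔ t ≤ q)) := by
  classical
  filter_upwards [eventually_gt_atTop ((range q₁).sup (fun q => q + D q)), eventually_ge_atTop q₁] with m hm hm1
  have hex : ∃ t, q₁ ≤ t ∧ m ≤ t + D t := ⟨m, hm1, by omega⟩
  set t := Nat.find hex with ht
  obtain ⟨h1, h2⟩ : q₁ ≤ t ∧ m ≤ t + D t := Nat.find_spec hex
  have h3 : t ≤ m := Nat.find_min' hex ⟨hm1, by omega⟩
  refine ⟨t, h1, h3, h2, ?_⟩
  intro q hqm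
  constructor
  · intro hmq
    rcases lt_or_ge q q₁ with h4 | h4
    · have := Finset.le_sup (f := fun q => q + D q) (Finset.mem_range.2 h4)
      omega
    · exact Nat.find_min' hex ⟨h4, hmq⟩
  · intro htq
    have h4 := mono_from h (show q₀ ≤ t by omega) htq
    omega

theorem src_eq {D : ℕ → ℕ} {m t : ℕ} (h : ∀ q, q ≤ m → (m ≤ q + D q ↔ t ≤ q)) :
    src D m = (Icc t m).filter Nat.Prime := by
  ext q
  unfold src
  rw [Finset.mem_filter, Finset.mem_filter, Finset.mem_Icc, Finset.mem_Icc]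
  constructor
  · rintro ⟨⟨_, h1⟩, h2, h3⟩
    exact ⟨⟨(h q h1).1 h3, h1⟩, h2⟩
  · rintro ⟨⟨h1, h2⟩, h3⟩
    exact ⟨⟨Nat.zero_le _, h2⟩, h3, (h q h2).2 h1⟩

theorem bt_window (t L : ℕ) (hL : 2 ≤ L) : (((Ico t (t + L)).filter Nat.Prime).card : ℝ) ≤
    Classical.choose Pool.Agent.Helper923.PPS.brun_titchmarsh * L / Real.log L := by
  have h := (Classical.choose_spec Pool.Agent.Helper923.PPS.brun_titchmarsh).2 t 1 L hL (Or.inl rfl)
  refine le_trans ?_ h
  have h2 : ((Ico t (t + L)).filter Nat.Prime).card ≤ ((range L).filter (fun k => (t + k * 1).Prime)).card := by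
    refine Finset.card_le_card_of_injOn (fun q => q - t) ?_ ?_
    · intro q hq
      simp only [Finset.coe_filter, Finset.mem_Ico, Set.mem_ofPred_eq] at hq
      simp only [Finset.coe_filter, Finset.mem_range, Set.mem_ofPred_eq]
      refine ⟨by omega, ?_⟩
      rw [mul_one, Nat.add_sub_cancel' hq.1.1]
      exact hq.2
    · intro a ha b hb hab
      simp only [Finset.coe_filter, Finset.mem_Ico, Set.mem_ofPred_eq] at ha hb
      simp only at hab
      omega
  exact_mod_cast h2

/-- the density tends to zero -/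
theorem dn_tendsto {D : ℕ → ℕ} {q₀ : ℕ} (h : ∀ q, q₀ ≤ q → D q ≤ D (q + 1)) (hD : Tendsto D atTop atTop) :
    Tendsto (dn D) atTop (𝓝 0) := by
  set C := Classical.choose Pool.Agent.Helper923.PPS.brun_titchmarsh with hC
  have hC1 : 1 ≤ C := (Classical.choose_spec Pool.Agent.Helper923.PPS.brun_titchmarsh).1
  rw [Metric.tendsto_atTop]
  intro ε hε
  -- a threshold for `D`
  have h1 : Tendsto (fun q : ℕ => C / Real.log ((D q : ℝ) + 1)) atTop (𝓝 0) := by
    apply Tendsto.const_div_atTop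
    apply Real.tendsto_log_atTop.comp
    exact tendsto_atTop_add_const_right _ _ (tendsto_natCast_atTop_atTop.comp hD)
  obtain ⟨q₁, hq₁⟩ := eventually_atTop.1 ((h1.eventually_lt_const hε).and (hD.eventually_ge_atTop 1))
  have h2 := src_late h (max q₀ q₁) (le_max_left _ _)
  obtain ⟨M, hM⟩ := eventually_atTop.1 h2
  refine ⟨M, fun m hm => ?_⟩
  obtain ⟨t, ht1, ht2, ht3, ht4⟩ := hM m hm
  rw [Real.dist_eq, sub_zero, abs_of_nonneg (dn_nonneg D m), dn_src, src_eq ht4]
  have ht5 : q₀ ≤ t := (le_max_left _ _).trans ht1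
  obtain ⟨e1, e2⟩ := hq₁ t ((le_max_right _ _).trans ht1)
  refine lt_of_le_of_lt ?_ e1
  have h3 : ∀ q ∈ (Icc t m).filter Nat.Prime, 1 / ((D q : ℝ) + 1) ≤ 1 / ((D t : ℝ) + 1) := by
    intro q hq
    rw [Finset.mem_filter, Finset.mem_Icc] at hq
    have : (D t : ℝ) ≤ D q := by exact_mod_cast mono_from h ht5 hq.1.1
    apply one_div_le_one_div_of_le (by positivity)
    linarith
  refine (Finset.sum_le_card_nsmul _ _ _ h3).trans ?_
  rw [nsmul_eq_mul]
  have h4 : (((Icc t m).filter Nat.Prime).card : ℝ) ≤ C * (D t + 1 : ℕ) / Real.log (D t + 1 : ℕ) := by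
    refine le_trans ?_ (bt_window t (D t + 1) (by omega))
    have : (Icc t m).filter Nat.Prime ⊆ (Ico t (t + (D t + 1))).filter Nat.Prime := by
      apply Finset.filter_subset_filter
      intro q hq
      rw [Finset.mem_Icc] at hq
      rw [Finset.mem_Ico]
      omega
    exact_mod_cast Finset.card_le_card this
  push_cast at h4
  have h5 : (0 : ℝ) < (D t : ℝ) + 1 := by positivity
  have h6 : 0 < Real.log ((D t : ℝ) + 1) := by
    apply Real.log_pos
    have : (1 : ℝ) ≤ D t := by exact_mod_cast e2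
    linarith
  calc (((Icc t m).filter Nat.Prime).card : ℝ) * (1 / ((D t : ℝ) + 1))
      ≤ (C * ((D t : ℝ) + 1) / Real.log ((D t : ℝ) + 1)) * (1 / ((D t : ℝ) + 1)) := by gcongr
    _ = C / Real.log ((D t : ℝ) + 1) := by
      field_simp

/-- the structure of the density: up to one prime, the primes in `(t, t + D t]`, where `t` is the left end -/
theorem dn_struct {D : ℕ → ℕ} {q₀ : ℕ} (h : RegFrom D q₀) (q₁ : ℕ) :
    ∀ᶠ m : ℕ in atTop, ∃ t, q₁ ≤ t ∧ t ≤ m ∧ m ≤ t + D t ∧ t + D t ≤ m + 1 ∧ D t ≤ D m ∧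
      ((cw PP t (D t) : ℝ) - 1) / ((D m : ℝ) + 1) ≤ dn D m ∧
      dn D m ≤ ((cw PP t (D t) : ℝ) + 1) / ((D t : ℝ) + 1) := by
  classical
  have hm : ∀ q, q₀ ≤ q → D q ≤ D (q + 1) := fun q hq => (h q hq).1
  filter_upwards [src_late hm (max (q₀ + 1) q₁) (by have := le_max_left (q₀ + 1) q₁; omega)] with m hm1
  obtain ⟨t, ht1, ht2, ht3, ht4⟩ := hm1
  have ht0 : q₀ + 1 ≤ t := (le_max_left _ _).trans ht1
  have htD : D t ≤ D m := mono_from hm (by omega) ht2
  have hup : t + D t ≤ m + 1 := by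
    have h1 : ¬ (t ≤ t - 1) := by omega
    have h2 := (ht4 (t - 1) (by omega)).not.2 h1
    have h3 := (h (t - 1) (by omega)).2
    rw [show t - 1 + 1 = t by omega] at h3
    omega
  refine ⟨t, (le_max_right _ _).trans ht1, ht2, ht3, hup, htD, ?_, ?_⟩
  · rw [dn_src, src_eq ht4]
    have h3 : ∀ q ∈ (Icc t m).filter Nat.Prime, 1 / ((D m : ℝ) + 1) ≤ 1 / ((D q : ℝ) + 1) := by
      intro q hq
      rw [Finset.mem_filter, Finset.mem_Icc] at hq
      have : (D q : ℝ) ≤ D m := by exact_mod_cast mono_from hm (by omega) hq.1.2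
      apply one_div_le_one_div_of_le (by positivity)
      linarith
    have h4 := Finset.card_nsmul_le_sum _ _ _ h3
    rw [nsmul_eq_mul] at h4
    refine le_trans ?_ h4
    rw [mul_one_div]
    have h5 : (cw PP t (D t) : ℝ) ≤ ((Icc t m).filter Nat.Prime).card + 1 := by
      have h6 : cw PP t (D t) ≤ ((Icc t m).filter Nat.Prime).card + 1 := by
        have h7 : (Ioc t (t + D t)).filter (fun m => m ∈ PP) ⊆ insert (m + 1) ((Icc t m).filter Nat.Prime) := by
          intro q hq
          rw [Finset.mem_filter, Finset.mem_Ioc] at hq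
          rw [Finset.mem_insert, Finset.mem_filter, Finset.mem_Icc]
          have h8 : q.Prime := hq.2
          by_cases h9 : q = m + 1
          · left
            exact h9
          · right
            exact ⟨⟨by omega, by omega⟩, h8⟩
        have h8 := (Finset.card_le_card h7).trans (Finset.card_insert_le _ _)
        unfold cw cn
        convert h8 using 2
      exact_mod_cast h6
    gcongr
    linarith
  · rw [dn_src, src_eq ht4]
    have h3 : ∀ q ∈ (Icc t m).filter Nat.Prime, 1 / ((D q : ℝ) + 1) ≤ 1 / ((D t : ℝ) + 1) := by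
      intro q hq
      rw [Finset.mem_filter, Finset.mem_Icc] at hq
      have : (D t : ℝ) ≤ D q := by exact_mod_cast mono_from hm (by omega) hq.1.1
      apply one_div_le_one_div_of_le (by positivity)
      linarith
    have h4 := Finset.sum_le_card_nsmul _ _ _ h3
    rw [nsmul_eq_mul] at h4
    refine h4.trans ?_
    rw [mul_one_div]
    have h5 : (((Icc t m).filter Nat.Prime).card : ℝ) ≤ cw PP t (D t) + 1 := by
      have h6 : ((Icc t m).filter Nat.Prime).card ≤ cw PP t (D t) + 1 := by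
        have h7 : (Icc t m).filter Nat.Prime ⊆ insert t ((Ioc t (t + D t)).filter (fun m => m ∈ PP)) := by
          intro q hq
          rw [Finset.mem_filter, Finset.mem_Icc] at hq
          rw [Finset.mem_insert, Finset.mem_filter, Finset.mem_Ioc]
          by_cases h9 : q = t
          · left
            exact h9
          · right
            exact ⟨⟨by omega, by omega⟩, hq.2⟩
        have h8 := (Finset.card_le_card h7).trans (Finset.card_insert_le _ _)
        unfold cw cn
        convert h8 using 2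
      exact_mod_cast h6
    gcongr

end Pool.Agent.Q268.DL
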