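import Mathlib

/-!
Powers of the logarithm on short intervals.
-/

set_option autoImplicit false

namespace Pool.Agent.Q268.DL

open Filter
open scoped Topology

theorem exp_le_two {v : ℝ} (h0 : 0 ≤ v) (h1 : v ≤ 1 / 2) : Real.exp v ≤ 1 + 2 * v := by
  have h2 := Real.add_one_le_exp (-v)
  have h3 : Real.exp (-v) * Real.exp v = 1 := by
    rw [← Real.exp_add]
    simp
  have h4 := Real.exp_pos v
  have h5 : (1 - v) * Real.exp v ≤ 1 := by nlinarith
  have h6 : 1 ≤ (1 - v) * (1 + 2 * v) := by nlinarith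
  exact le_of_mul_le_mul_left (h5.trans h6) (by linarith)

/-- the growth of a power of the logarithm -/
theorem log_rpow_sub {u z y : ℝ} (hu : 0 ≤ u) (hz : 1 < z) (hzy : z ≤ y)
    (hv : u * ((y - z) / (z * Real.log z)) ≤ 1 / 2) :
    (Real.log y) ^ u ≤ (Real.log z) ^ u + 2 * (u * ((y - z) / (z * Real.log z))) * (Real.log z) ^ u := by
  have hz0 : 0 < z := by linarith
  have hy0 : 0 < y := by linarith
  have hLz : 0 < Real.log z := Real.log_pos hz
  have hLy : Real.log z ≤ Real.log y := Real.log_le_log hz0 hzy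
  set v := u * ((y - z) / (z * Real.log z)) with hvdef
  have hv0 : 0 ≤ v := by
    apply mul_nonneg hu
    apply div_nonneg (by linarith) (by positivity)
  have h1 : Real.log y - Real.log z ≤ (y - z) / z := by
    rw [← Real.log_div hy0.ne' hz0.ne']
    have := Real.log_le_sub_one_of_pos (show 0 < y / z by positivity)
    have h2 : y / z - 1 = (y - z) / z := by field_simp
    linarith
  have h2 : Real.log y / Real.log z ≤ Real.exp ((y - z) / (z * Real.log z)) := by
    have h3 := Real.add_one_le_exp ((y - z) / (z * Real.log z))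
    refine le_trans ?_ h3
    have h4 : (y - z) / (z * Real.log z) = (y - z) / z / Real.log z := by field_simp
    rw [h4, div_le_iff₀ hLz, add_mul, div_mul_cancel₀ _ hLz.ne']
    linarith
  have h3 : (Real.log y) ^ u = (Real.log z) ^ u * (Real.log y / Real.log z) ^ u := by
    rw [Real.div_rpow (by linarith) hLz.le]
    have : (Real.log z) ^ u ≠ 0 := (Real.rpow_pos_of_pos hLz u).ne'
    field_simp
  have h4 : (Real.log y / Real.log z) ^ u ≤ Real.exp v := by
    calc (Real.log y / Real.log z) ^ u ≤ (Real.exp ((y - z) / (z * Real.log z))) ^ u := by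
          apply Real.rpow_le_rpow _ h2 hu
          apply div_nonneg _ hLz.le
          linarith
      _ = Real.exp v := by
        rw [← Real.exp_mul, hvdef]
        congr 1
        ring
  have h5 := exp_le_two hv0 hv
  have h6 : 0 < (Real.log z) ^ u := Real.rpow_pos_of_pos hLz u
  rw [h3]
  calc (Real.log z) ^ u * (Real.log y / Real.log z) ^ u ≤ (Real.log z) ^ u * (1 + 2 * v) := by
        gcongr
        exact h4.trans h5
    _ = _ := by ring

theorem loggrow (K A : ℝ) {ε : ℝ} (hε : 0 < ε) : ∀ᶠ x : ℝ in atTop, K * (Real.log x) ^ A ≤ ε * x := by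
  have h1 := (tendsto_exp_mul_div_rpow_atTop A 1 one_pos).eventually_ge_atTop (K / ε)
  have h4 : ∀ᶠ s : ℝ in atTop, K * s ^ A ≤ ε * Real.exp s := by
    filter_upwards [h1, eventually_gt_atTop 0] with s h2 h3
    have h4 : 0 < s ^ A := Real.rpow_pos_of_pos h3 A
    rw [div_le_div_iff₀ hε h4, one_mul] at h2
    linarith
  filter_upwards [Real.tendsto_log_atTop.eventually h4, eventually_gt_atTop 0] with x hx hx0
  rwa [Real.exp_log hx0] at hx

/-- powers of the logarithm are almost constant on short intervals -/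
theorem near_pow (u K C : ℝ) (hu : 0 ≤ u) {η : ℝ} (hη : 0 < η) : ∀ᶠ x : ℝ in atTop, ∀ y z : ℝ,
    |y - x| ≤ C * (Real.log x) ^ K → |z - x| ≤ C * (Real.log x) ^ K →
    |(Real.log y) ^ u - (Real.log z) ^ u| ≤ η := by
  have f1 := loggrow C K (show (0 : ℝ) < 1 / 2 by norm_num)
  have f2 := loggrow (8 * u * C) (u + K) (ε := min η (1 / 2)) (lt_min hη (by norm_num))
  filter_upwards [f1, f2, eventually_ge_atTop 100, Real.tendsto_log_atTop.eventually_ge_atTop 4]
    with x f1 f2 hx hL y z hy hz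
  have hx0 : 0 < x := by linarith
  set r := C * (Real.log x) ^ K with hr
  have hr0 : 0 ≤ r := (abs_nonneg _).trans hy
  set z₀ := x - r with hz₀
  set y₀ := x + r with hy₀
  have a1 : x / 2 ≤ z₀ := by linarith
  have a2 : 1 < z₀ := by linarith
  have aL : 1 ≤ Real.log z₀ := by
    have h1 : Real.log (x / 2) ≤ Real.log z₀ := Real.log_le_log (by positivity) a1
    rw [Real.log_div hx0.ne' (by norm_num)] at h1
    have := Real.log_two_lt_d9
    linarith
  have aL2 : Real.log z₀ ≤ Real.log x := Real.log_le_log (by linarith) (by linarith)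
  have hLx1 : 1 ≤ Real.log x := by linarith
  have hpow1 : 1 ≤ (Real.log x) ^ u := Real.one_le_rpow hLx1 hu
  have hpow2 : (Real.log z₀) ^ u ≤ (Real.log x) ^ u := Real.rpow_le_rpow (by linarith) aL2 hu
  have hsplit : (Real.log x) ^ (u + K) = (Real.log x) ^ u * (Real.log x) ^ K := Real.rpow_add (by linarith) u K
  have f3 : 8 * u * r * (Real.log x) ^ u ≤ min η (1 / 2) * x := by
    rw [hsplit] at f2
    calc 8 * u * r * (Real.log x) ^ u = 8 * u * C * ((Real.log x) ^ u * (Real.log x) ^ K) := by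
          rw [hr]
          ring
      _ ≤ _ := f2
  have b1 : (y₀ - z₀) / (z₀ * Real.log z₀) ≤ 4 * r / x := by
    have e1 : y₀ - z₀ = 2 * r := by rw [hy₀, hz₀]; ring
    rw [e1, div_le_div_iff₀ (by positivity) hx0]
    have h1 : x / 2 ≤ z₀ * Real.log z₀ := by nlinarith
    nlinarith
  have b2 : u * ((y₀ - z₀) / (z₀ * Real.log z₀)) * (Real.log x) ^ u ≤ min η (1 / 2) / 2 := by
    calc u * ((y₀ - z₀) / (z₀ * Real.log z₀)) * (Real.log x) ^ u ≤ u * (4 * r / x) * (Real.log x) ^ u := by gcongr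
      _ = (8 * u * r * (Real.log x) ^ u) / x / 2 := by ring
      _ ≤ (min η (1 / 2) * x) / x / 2 := by gcongr
      _ = _ := by field_simp
  have b0 : 0 ≤ u * ((y₀ - z₀) / (z₀ * Real.log z₀)) := by
    apply mul_nonneg hu
    apply div_nonneg
    · rw [hy₀, hz₀]
      linarith
    · positivity
  have b3 : u * ((y₀ - z₀) / (z₀ * Real.log z₀)) ≤ 1 / 2 := by
    have : u * ((y₀ - z₀) / (z₀ * Real.log z₀)) * 1 ≤ u * ((y₀ - z₀) / (z₀ * Real.log z₀)) * (Real.log x) ^ u := by
      gcongr
    have h2 := min_le_right η (1 / 2)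
    linarith
  have key := log_rpow_sub (u := u) (z := z₀) (y := y₀) hu a2 (by rw [hy₀, hz₀]; linarith) b3
  have b4 : 2 * (u * ((y₀ - z₀) / (z₀ * Real.log z₀))) * (Real.log z₀) ^ u ≤ η := by
    calc 2 * (u * ((y₀ - z₀) / (z₀ * Real.log z₀))) * (Real.log z₀) ^ u
        ≤ 2 * (u * ((y₀ - z₀) / (z₀ * Real.log z₀))) * (Real.log x) ^ u := by gcongr
      _ = 2 * (u * ((y₀ - z₀) / (z₀ * Real.log z₀)) * (Real.log x) ^ u) := by ring
      _ ≤ 2 * (min η (1 / 2) / 2) := by gcongr
      _ ≤ η := by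
        have := min_le_left η (1 / 2)
        linarith
  have c1 : ∀ w, |w - x| ≤ r → (Real.log z₀) ^ u ≤ (Real.log w) ^ u ∧ (Real.log w) ^ u ≤ (Real.log y₀) ^ u := by
    intro w hw
    rw [abs_le] at hw
    have w1 : z₀ ≤ w := by rw [hz₀]; linarith [hw.1]
    have w2 : w ≤ y₀ := by rw [hy₀]; linarith [hw.2]
    constructor
    · exact Real.rpow_le_rpow (by linarith) (Real.log_le_log (by linarith) w1) hu
    · exact Real.rpow_le_rpow (Real.log_nonneg (by linarith)) (Real.log_le_log (by linarith) w2) hu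
  obtain ⟨y1, y2⟩ := c1 y hy
  obtain ⟨z1, z2⟩ := c1 z hz
  rw [abs_le]
  constructor <;> linarith

/-- the logarithm is almost constant on short intervals -/
theorem near_log (K C : ℝ) {η : ℝ} (hη : 0 < η) : ∀ᶠ x : ℝ in atTop, ∀ y z : ℝ,
    |y - x| ≤ C * (Real.log x) ^ K → |z - x| ≤ C * (Real.log x) ^ K →
    |Real.log y - Real.log z| ≤ η := by
  filter_upwards [near_pow 1 K C zero_le_one hη] with x hx y z hy hz
  have := hx y z hy hz
  rwa [Real.rpow_one, Real.rpow_one] at this

theorem log_rpow_mono {a b : ℝ} (h : a ≤ b) : ∀ᶠ x : ℝ in atTop, (Real.log x) ^ a ≤ (Real.log x) ^ b := by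
  filter_upwards [Real.tendsto_log_atTop.eventually_ge_atTop 1] with x hx
  exact Real.rpow_le_rpow_of_exponent_le hx h

theorem log_rpow_grow {a : ℝ} (h : 0 < a) (K : ℝ) : ∀ᶠ x : ℝ in atTop, K ≤ (Real.log x) ^ a :=
  ((tendsto_rpow_atTop h).comp Real.tendsto_log_atTop).eventually_ge_atTop K

theorem log_rpow_small {a b : ℝ} (h : a < b) (K : ℝ) {ε : ℝ} (hε : 0 < ε) :
    ∀ᶠ x : ℝ in atTop, K * (Real.log x) ^ a ≤ ε * (Real.log x) ^ b := by
  filter_upwards [log_rpow_grow (sub_pos.2 h) (K / ε), Real.tendsto_log_atTop.eventually_gt_atTop 0] with x hx hx0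
  have h1 : (Real.log x) ^ b = (Real.log x) ^ (b - a) * (Real.log x) ^ a := by
    rw [← Real.rpow_add hx0]
    congr 1
    ring
  rw [h1]
  have h2 : 0 ≤ (Real.log x) ^ a := Real.rpow_nonneg hx0.le a
  rw [div_le_iff₀ hε] at hx
  calc K * (Real.log x) ^ a ≤ ((Real.log x) ^ (b - a) * ε) * (Real.log x) ^ a := by gcongr
    _ = _ := by ring

end Pool.Agent.Q268.DL
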