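import Mathlib
import Pool.Agent.Q268.DL.Dens
import Pool.Agent.Q268.DL.Log
import Pool.Agent.Q268.DP.B

/-!
Displacements `⌊(log q)^u⌋`: the mean numbers of displaced primes in windows of length `(log x)^a`.
-/

set_option autoImplicit false

namespace Pool.Agent.Q268.DL

open Filter Finset MeasureTheory
open Pool.Agent.Q268.DP
open scoped Topology

/-- `R_a(x)` for the set `S` -/
noncomputable def Rw (S : Set ℕ) (a x : ℝ) : ℝ := Real.log x / (Real.log x) ^ a * cR S x ((Real.log x) ^ a)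

/-- the mean of `R_a(x)` for the displaced primes -/
noncomputable def Rm (D : ℕ → ℕ) (a x : ℝ) : ℝ :=
  Real.log x / (Real.log x) ^ a * mw Nat.Prime D ⌊x⌋₊ (⌊x + (Real.log x) ^ a⌋₊ - ⌊x⌋₊)

theorem weight {x : ℝ} (hx : 0 < Real.log x) (a c : ℝ) :
    Real.log x / (Real.log x) ^ a * c = c / (Real.log x) ^ (a - 1) := by
  rw [Real.rpow_sub_one hx.ne']
  have : (Real.log x) ^ a ≠ 0 := (Real.rpow_pos_of_pos hx a).ne'
  field_simp

theorem Rw_nonneg (S : Set ℕ) (a : ℝ) : ∀ᶠ x in atTop, 0 ≤ Rw S a x := by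
  filter_upwards [eventually_ge_atTop 1] with x hx
  unfold Rw
  have := Real.log_nonneg hx
  positivity

theorem Rm_nonneg (D : ℕ → ℕ) (a : ℝ) : ∀ᶠ x in atTop, 0 ≤ Rm D a x := by
  filter_upwards [eventually_ge_atTop 1] with x hx
  unfold Rm
  have h1 := Real.log_nonneg hx
  have h2 := mw_nonneg Nat.Prime D ⌊x⌋₊ (⌊x + (Real.log x) ^ a⌋₊ - ⌊x⌋₊)
  positivity

theorem quot_near {c c' w w' ε : ℝ} (hc' : 0 ≤ c') (hw : 0 < w) (hw' : 0 < w') (h1 : |c - c'| ≤ ε * w)
    (h2 : |w - w'| ≤ ε * w) : |c / w - c' / w'| ≤ ε * (1 + c' / w') := by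
  have e1 : c / w - c' / w' = (c - c') / w - c' / w' * ((w - w') / w) := by
    field_simp
    ring
  have f1 : |(c - c') / w| ≤ ε := by
    rw [abs_div, abs_of_pos hw, div_le_iff₀ hw]
    exact h1
  have f2 : |(w - w') / w| ≤ ε := by
    rw [abs_div, abs_of_pos hw, div_le_iff₀ hw]
    exact h2
  have f3 : |c' / w' * ((w - w') / w)| ≤ c' / w' * ε := by
    rw [abs_mul, abs_of_nonneg (div_nonneg hc' hw'.le)]
    exact mul_le_mul_of_nonneg_left f2 (div_nonneg hc' hw'.le)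
  rw [e1]
  refine (abs_sub _ _).trans ?_
  linarith

theorem Du_step {u : ℝ} (hu : 0 ≤ u) : ∃ q₀, RegFrom (Du u) q₀ := by
  have h1 := (near_pow u 0 1 hu (η := 1 / 2) (by norm_num))
  have h2 := tendsto_natCast_atTop_atTop (R := ℝ) |>.eventually h1
  obtain ⟨q₀, hq₀⟩ := eventually_atTop.1 (h2.and (eventually_gt_atTop 0))
  refine ⟨q₀, fun q hq => ⟨Du_mono hu (hq₀ q hq).2 (Nat.le_succ q), ?_⟩⟩
  have h3 := (hq₀ q hq).1 ((q + 1 : ℕ) : ℝ) q (by push_cast; simp) (by simp)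
  rw [abs_le] at h3
  unfold Du
  have h4 : (Real.log (q + 1 : ℕ)) ^ u ≤ (Real.log q) ^ u + 1 := by linarith [h3.2]
  calc ⌊(Real.log (q + 1 : ℕ)) ^ u⌋₊ ≤ ⌊(Real.log q) ^ u + 1⌋₊ := Nat.floor_mono h4
    _ = ⌊(Real.log q) ^ u⌋₊ + 1 := Nat.floor_add_one (Real.rpow_nonneg (Real.log_natCast_nonneg q) u)

theorem Du_tendsto {u : ℝ} (hu : 0 < u) : Tendsto (Du u) atTop atTop := by
  have h1 : Tendsto (fun q : ℕ => (Real.log q) ^ u) atTop atTop :=
    (tendsto_rpow_atTop hu).comp (Real.tendsto_log_atTop.comp tendsto_natCast_atTop_atTop)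
  exact tendsto_nat_floor_atTop.comp h1

/-- the displaced set and its mean, all exponents `a > 2` -/
theorem close_core {Ω : Type} [MeasurableSpace Ω] {μ : Measure Ω} {X : ℕ → Ω → ℕ} {D : ℕ → ℕ}
    (hX : Disp μ X D) (hd : Tendsto (dn D) atTop (𝓝 0)) :
    ∀ᵐ ω ∂μ, ∀ a : ℝ, 2 < a → Close (Rw (moved Nat.Prime X ω) a) (Rm D a) := by
  have h1 : ∀ k : ℕ, ∀ᵐ ω ∂μ, ∀ᶠ n : ℕ in atTop, ∀ h : ℕ,
      32 / (1 / ((k : ℝ) + 1)) ^ 2 * Real.log n ^ 2 ≤ h → h ≤ 3 * n →
      |(cw (moved Nat.Prime X ω) n h : ℝ) - mw Nat.Prime D n h| ≤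
        (1 / ((k : ℝ) + 1)) * (mw Nat.Prime D n h + h / Real.log n) := by
    intro k
    apply core_eps hX Nat.Prime hd (by positivity)
    rw [div_le_one (by positivity)]
    have : (0 : ℝ) ≤ k := Nat.cast_nonneg k
    linarith
  filter_upwards [ae_all_iff.2 h1] with ω hω a ha ε hε
  obtain ⟨k, hk⟩ := exists_nat_one_div_lt (show 0 < ε / 4 by positivity)
  set e : ℝ := 1 / ((k : ℝ) + 1) with he
  have he0 : 0 < e := by positivity
  have g1 := (tendsto_nat_floor_atTop (α := ℝ)).eventually (hω k)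
  have g2 := log_rpow_small (a := 2) (b := a) ha (2 * (32 / e ^ 2)) one_pos
  have g3 := loggrow 2 a one_pos
  have g4 := near_log 0 1 (η := 1 / 2) (by norm_num)
  filter_upwards [g1, g2, g3, g4, eventually_ge_atTop 10, Real.tendsto_log_atTop.eventually_ge_atTop 2,
    log_rpow_grow (show 0 < a by linarith) 2] with x g1 g2 g3 g4 hx hL hp
  set n := ⌊x⌋₊ with hn
  set y := (Real.log x) ^ a with hy
  set h := ⌊x + y⌋₊ - n with hh
  have hx0 : 0 ≤ x := by linarith
  have hy0 : 0 ≤ y := by linarith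
  have hlen := floor_len hx0 hy0
  rw [← hn, ← hh, abs_le] at hlen
  have hnx : (n : ℝ) ≤ x := Nat.floor_le hx0
  have hnx2 : x < n + 1 := Nat.lt_floor_add_one x
  have hn9 : (9 : ℝ) ≤ n := by linarith
  have hlog := g4 n x (by rw [abs_le]; constructor <;> simp <;> linarith) (by simp)
  rw [abs_le] at hlog
  have hLn : Real.log n ≤ Real.log x := Real.log_le_log (by linarith) hnx
  have hLn1 : 1 ≤ Real.log n := by linarith [hlog.1]
  have hLn2 : Real.log x ≤ 2 * Real.log n := by linarith [hlog.1]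
  have c1 : 32 / e ^ 2 * Real.log n ^ 2 ≤ h := by
    have h2 : Real.log n ^ 2 ≤ Real.log x ^ 2 := by gcongr
    have h3 : (Real.log x) ^ (2 : ℝ) = Real.log x ^ 2 := by norm_cast
    rw [h3] at g2
    have h4 : 32 / e ^ 2 * Real.log n ^ 2 ≤ 32 / e ^ 2 * Real.log x ^ 2 := by gcongr
    have h5 : 2 * (32 / e ^ 2 * Real.log x ^ 2) ≤ y := by linarith
    have h6 : 0 ≤ 32 / e ^ 2 * Real.log x ^ 2 := by positivity
    linarith [hlen.1]
  have c2 : h ≤ 3 * n := by
    have h2 : (h : ℝ) ≤ ((3 * n : ℕ) : ℝ) := by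
      push_cast
      linarith [hlen.2]
    exact_mod_cast h2
  have key := g1 h c1 c2
  have e1 : Rw (moved Nat.Prime X ω) a x = Real.log x / y * cw (moved Nat.Prime X ω) n h := by
    unfold Rw
    rw [← hy, cR_cw _ hx0 hy0]
  have e2 : Rm D a x = Real.log x / y * mw Nat.Prime D n h := rfl
  rw [e1, e2, ← mul_sub, abs_mul, abs_of_nonneg (div_nonneg (by linarith) hy0)]
  have hyp : 0 < y := by linarith
  have hm0 := mw_nonneg Nat.Prime D n h
  have e3 : Real.log x / y * (h / Real.log n) ≤ 4 := by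
    have h2 : (h : ℝ) ≤ 2 * y := by linarith [hlen.2]
    rw [div_mul_div_comm, div_le_iff₀ (by positivity)]
    calc Real.log x * h ≤ (2 * Real.log n) * (2 * y) := by
          apply mul_le_mul hLn2 h2 (Nat.cast_nonneg _) (by linarith)
      _ = 4 * (y * Real.log n) := by ring
  have hw0 : 0 ≤ Real.log x / y := div_nonneg (by linarith) hy0
  calc Real.log x / y * |(cw (moved Nat.Prime X ω) n h : ℝ) - mw Nat.Prime D n h|
      ≤ Real.log x / y * (e * (mw Nat.Prime D n h + h / Real.log n)) := by gcongr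
    _ = e * (Real.log x / y * mw Nat.Prime D n h) + e * (Real.log x / y * (h / Real.log n)) := by ring
    _ ≤ (ε / 4) * (Real.log x / y * mw Nat.Prime D n h) + (ε / 4) * 4 := by
      gcongr
    _ ≤ ε * (Real.log x / y * mw Nat.Prime D n h + 1) := by
      have : 0 ≤ Real.log x / y * mw Nat.Prime D n h := mul_nonneg hw0 hm0
      nlinarith

end Pool.Agent.Q268.DL
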