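import Mathlib
import Pool.Agent.Q268.DL.PowA

/-!
Windows longer than the displacements.
-/

set_option autoImplicit false

namespace Pool.Agent.Q268.DL

open Filter Finset MeasureTheory
open Pool.Agent.Q268.DP
open scoped Topology

theorem cw_PP (n L : ℕ) : cw PP n L = ((Ioc n (n + L)).filter Nat.Prime).card := by
  classical
  unfold cw cn
  congr!

theorem bt_eps {ε : ℝ} (hε : 0 < ε) : ∃ L₀ : ℕ, ∀ n L : ℕ, L₀ ≤ L → (cw PP n L : ℝ) ≤ ε * L := by
  set C := Classical.choose Pool.Agent.Helper923.PPS.brun_titchmarsh with hC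
  have h1 := (Real.tendsto_log_atTop.comp (tendsto_natCast_atTop_atTop (R := ℝ))).eventually_ge_atTop (C / ε)
  obtain ⟨L₀, hL₀⟩ := eventually_atTop.1 (h1.and (eventually_ge_atTop 2))
  refine ⟨L₀, fun n L hL => ?_⟩
  obtain ⟨h2, h3⟩ := hL₀ L hL
  simp only [Function.comp_apply] at h2
  have h4 := bt_window (n + 1) L h3
  rw [cw_PP]
  have h5 : Ico (n + 1) (n + 1 + L) = Ioc n (n + L) := by
    ext q
    rw [Finset.mem_Ico, Finset.mem_Ioc]
    omega
  rw [h5] at h4
  refine h4.trans ?_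
  have h6 : 0 < Real.log L := Real.log_pos (by exact_mod_cast h3)
  rw [div_le_iff₀ h6]
  rw [div_le_iff₀ hε] at h2
  have : (0 : ℝ) ≤ L := Nat.cast_nonneg L
  nlinarith

theorem pr_one {D : ℕ → ℕ} {n h q : ℕ} (h1 : n < q) (h2 : q + D q ≤ n + h) : pr D (Ioc n (n + h)) q = 1 := by
  unfold pr
  have h3 : (Ioc n (n + h)).filter (fun m => q ≤ m ∧ m ≤ q + D q) = Icc q (q + D q) := by
    ext m
    rw [Finset.mem_filter, Finset.mem_Ioc, Finset.mem_Icc]
    omega
  rw [h3, Nat.card_Icc]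
  have h4 : q + D q + 1 - q = D q + 1 := by omega
  rw [h4]
  push_cast
  exact div_self (by positivity)

theorem mean_le {D : ℕ → ℕ} {n h K : ℕ} (hK : ∀ q, q ≤ n + h → D q ≤ K) (hKn : K ≤ n) :
    mw Nat.Prime D n h ≤ cw PP n h + cw PP (n - K) K := by
  classical
  unfold mw mn
  have h1 : ∑ q ∈ upto Nat.Prime (n + h), pr D (Ioc n (n + h)) q ≤
      ∑ q ∈ upto Nat.Prime (n + h), if n < q + K then (1 : ℝ) else 0 := by
    apply Finset.sum_le_sum
    intro q hq
    rw [mem_upto] at hq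
    split_ifs with h2
    · exact pr_le_one D _ q
    · rw [pr_zero]
      intro m hm
      rw [Finset.mem_Ioc] at hm
      have := hK q hq.1
      left
      omega
  refine h1.trans ?_
  rw [← Finset.sum_filter, Finset.sum_const, nsmul_eq_mul, mul_one, cw_PP, cw_PP]
  have h2 : (upto Nat.Prime (n + h)).filter (fun q => n < q + K) ⊆
      (Ioc n (n + h)).filter Nat.Prime ∪ (Ioc (n - K) (n - K + K)).filter Nat.Prime := by
    intro q hq
    rw [Finset.mem_filter, mem_upto] at hq
    rw [Finset.mem_union, Finset.mem_filter, Finset.mem_filter, Finset.mem_Ioc, Finset.mem_Ioc]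
    rcases lt_or_ge n q with h3 | h3
    · left
      exact ⟨⟨h3, hq.1.1⟩, hq.1.2⟩
    · right
      exact ⟨⟨by omega, by omega⟩, hq.1.2⟩
  exact_mod_cast (Finset.card_le_card h2).trans (Finset.card_union_le _ _)

theorem le_mean {D : ℕ → ℕ} {n h K : ℕ} (hK : ∀ q, q ≤ n + h → D q ≤ K) (hKn : K ≤ n) :
    (cw PP n h : ℝ) ≤ mw Nat.Prime D n h + cw PP (n + h - K) K := by
  classical
  unfold mw mn
  have h1 : ∑ q ∈ upto Nat.Prime (n + h), (if n < q ∧ q + K ≤ n + h then (1 : ℝ) else 0) ≤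
      ∑ q ∈ upto Nat.Prime (n + h), pr D (Ioc n (n + h)) q := by
    apply Finset.sum_le_sum
    intro q hq
    rw [mem_upto] at hq
    split_ifs with h2
    · rw [pr_one h2.1]
      have := hK q hq.1
      omega
    · exact pr_nonneg D _ q
  refine le_trans ?_ (add_le_add_left h1 _)
  rw [← Finset.sum_filter, Finset.sum_const, nsmul_eq_mul, mul_one, cw_PP, cw_PP]
  have h2 : (Ioc n (n + h)).filter Nat.Prime ⊆ (upto Nat.Prime (n + h)).filter (fun q => n < q ∧ q + K ≤ n + h) ∪
      (Ioc (n + h - K) (n + h - K + K)).filter Nat.Prime := by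
    intro q hq
    rw [Finset.mem_filter, Finset.mem_Ioc] at hq
    rw [Finset.mem_union, Finset.mem_filter, Finset.mem_filter, Finset.mem_Ioc, mem_upto]
    rcases le_or_gt (q + K) (n + h) with h3 | h3
    · left
      exact ⟨⟨hq.1.2, hq.2⟩, hq.1.1, h3⟩
    · right
      exact ⟨⟨by omega, by omega⟩, hq.2⟩
  exact_mod_cast (Finset.card_le_card h2).trans (Finset.card_union_le _ _)

/-- `a ≥ u + 1` -/
theorem close_long {u a : ℝ} (hu : 0 < u) (ha : u + 1 ≤ a) : Close (Rm (Du u) a) (Rw PP a) := by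
  intro ε hε
  obtain ⟨L₀, hL₀⟩ := bt_eps (ε := ε / 4) (by positivity)
  have f1 := log_rpow_grow hu ((L₀ : ℝ) + 2)
  have f2 := loggrow 4 u one_pos
  have f3 := loggrow 2 a one_pos
  have f4 := near_pow u a 2 hu.le (η := 1) one_pos
  filter_upwards [f1, f2, f3, f4, eventually_ge_atTop 10, Real.tendsto_log_atTop.eventually_ge_atTop 2,
    log_rpow_grow (show 0 < a by linarith) 2] with x f1 f2 f3 f4 hx hL hp
  set n := ⌊x⌋₊ with hn
  set y := (Real.log x) ^ a with hy
  set h := ⌊x + y⌋₊ - n with hh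
  have hx0 : 0 ≤ x := by linarith
  have hy0 : 0 ≤ y := by linarith
  have hlen := floor_len hx0 hy0
  rw [← hn, ← hh, abs_le] at hlen
  have hnx : (n : ℝ) ≤ x := Nat.floor_le hx0
  have hnx2 : x < n + 1 := Nat.lt_floor_add_one x
  have hnp : 0 < n := by
    have : (0 : ℝ) < n := by linarith
    exact_mod_cast this
  -- the largest displacement
  set K := Du u (n + h) with hKdef
  have hK : ∀ q, q ≤ n + h → Du u q ≤ K := by
    intro q hq
    rcases Nat.eq_zero_or_pos q with h0 | h0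
    · subst h0
      have : Du u 0 = 0 := by
        unfold Du
        simp [Real.zero_rpow hu.ne']
      omega
    · exact Du_mono hu.le h0 hq
  have hnear : |(Real.log (n + h : ℕ)) ^ u - (Real.log x) ^ u| ≤ 1 := by
    apply f4
    · push_cast
      rw [abs_le]
      constructor <;> linarith [hlen.1, hlen.2]
    · rw [sub_self, abs_zero]
      positivity
  rw [abs_le] at hnear
  have hK1 : (K : ℝ) ≤ (Real.log x) ^ u + 1 := by
    have := Du_le u (n + h)
    linarith [hnear.2]
  have hK2 : (L₀ : ℝ) ≤ K := by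
    have := Du_gt u (n + h)
    linarith [hnear.1]
  have hK2' : L₀ ≤ K := by exact_mod_cast hK2
  have hKn : K ≤ n := by
    have h2 : (K : ℝ) ≤ n := by linarith
    exact_mod_cast h2
  have m1 := mean_le hK hKn
  have m2 := le_mean hK hKn
  have b1 := hL₀ (n - K) K hK2'
  have b2 := hL₀ (n + h - K) K hK2'
  have hLpos : 0 < Real.log x := by linarith
  have e1 : Rw PP a x = cw PP n h / (Real.log x) ^ (a - 1) := by
    unfold Rw
    rw [cR_cw _ hx0 (by rw [← hy]; exact hy0), weight hLpos]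
  have e2 : Rm (Du u) a x = mw Nat.Prime (Du u) n h / (Real.log x) ^ (a - 1) := by
    unfold Rm
    rw [weight hLpos]
  have hwp : 0 < (Real.log x) ^ (a - 1) := Real.rpow_pos_of_pos hLpos _
  have hw : (Real.log x) ^ u ≤ (Real.log x) ^ (a - 1) := Real.rpow_le_rpow_of_exponent_le (by linarith) (by linarith)
  have hKw : ε / 4 * K ≤ ε * (Real.log x) ^ (a - 1) := by
    have h1 : (K : ℝ) ≤ 2 * (Real.log x) ^ (a - 1) := by
      have : (0 : ℝ) ≤ L₀ := Nat.cast_nonneg _
      linarith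
    calc ε / 4 * K ≤ ε / 4 * (2 * (Real.log x) ^ (a - 1)) := by gcongr
      _ ≤ ε * (Real.log x) ^ (a - 1) := by nlinarith
  rw [e1, e2, div_sub_div_same, abs_div, abs_of_pos hwp]
  have h5 : |mw Nat.Prime (Du u) n h - cw PP n h| ≤ ε * (Real.log x) ^ (a - 1) := by
    rw [abs_le]
    constructor <;> linarith
  have h6 : |mw Nat.Prime (Du u) n h - cw PP n h| / (Real.log x) ^ (a - 1) ≤ ε := by
    rw [div_le_iff₀ hwp]
    exact h5
  have h7 : 0 ≤ (cw PP n h : ℝ) / (Real.log x) ^ (a - 1) := by positivity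
  nlinarith

end Pool.Agent.Q268.DL
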