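import Mathlib
import Pool.Agent.Q268.DL.Long

/-!
The mean number of displaced primes in a window is an average of numbers of primes in windows of the
same length.
-/

set_option autoImplicit false

namespace Pool.Agent.Q268.DL

open Filter Finset MeasureTheory
open Pool.Agent.Q268.DP
open scoped Topology

theorem sum_shift (n h T : ℕ) (hT : T ≤ n + 1) :
    ∑ q ∈ upto Nat.Prime (n + h), (((range T).filter (fun t => q + t ∈ Ioc n (n + h))).card : ℝ) =
      ∑ t ∈ range T, (cw PP (n - t) h : ℝ) := by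
  classical
  have h1 : ∀ q, (((range T).filter (fun t => q + t ∈ Ioc n (n + h))).card : ℝ) =
      ∑ t ∈ range T, if q + t ∈ Ioc n (n + h) then (1 : ℝ) else 0 := by
    intro q
    rw [Finset.card_filter]
    push_cast
    rfl
  simp only [h1]
  rw [Finset.sum_comm]
  refine Finset.sum_congr rfl fun t ht => ?_
  rw [← Finset.sum_filter, Finset.sum_const, nsmul_eq_mul, mul_one, cw_PP]
  congr 2
  ext q
  rw [Finset.mem_range] at ht
  rw [Finset.mem_filter, mem_upto, Finset.mem_filter, Finset.mem_Ioc, Finset.mem_Ioc]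
  constructor
  · rintro ⟨⟨h2, h3⟩, h4, h5⟩
    exact ⟨⟨by omega, by omega⟩, h3⟩
  · rintro ⟨⟨h2, h3⟩, h4⟩
    exact ⟨⟨by omega, h4⟩, by omega, by omega⟩

theorem avg_le {D : ℕ → ℕ} {n h d : ℕ} (hd : 0 < d) (hdn : d + 2 ≤ n + 1)
    (H : ∀ q, q ≤ n + h → n < q + D q → d ≤ D q + 1 ∧ D q ≤ d + 1) :
    mw Nat.Prime D n h ≤ (∑ t ∈ range (d + 2), (cw PP (n - t) h : ℝ)) / d := by
  classical
  rw [← sum_shift n h (d + 2) hdn, Finset.sum_div]
  unfold mw mn
  apply Finset.sum_le_sum
  intro q hq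
  rw [mem_upto] at hq
  have hd' : (0 : ℝ) < d := by exact_mod_cast hd
  rcases lt_or_ge n (q + D q) with h1 | h1
  · obtain ⟨h2, h3⟩ := H q hq.1 h1
    unfold pr
    have h4 : ((Ioc n (n + h)).filter (fun m => q ≤ m ∧ m ≤ q + D q)).card ≤
        ((range (d + 2)).filter (fun t => q + t ∈ Ioc n (n + h))).card := by
      refine Finset.card_le_card_of_injOn (fun m => m - q) ?_ ?_
      · intro m hm
        simp only [Finset.coe_filter, Finset.mem_Ioc, Set.mem_ofPred_eq] at hm
        simp only [Finset.coe_filter, Finset.mem_range, Finset.mem_Ioc, Set.mem_ofPred_eq]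
        refine ⟨by omega, by omega, by omega⟩
      · intro a ha b hb hab
        simp only [Finset.coe_filter, Finset.mem_Ioc, Set.mem_ofPred_eq] at ha hb
        simp only at hab
        omega
    have h5 : (((Ioc n (n + h)).filter (fun m => q ≤ m ∧ m ≤ q + D q)).card : ℝ) ≤
        ((range (d + 2)).filter (fun t => q + t ∈ Ioc n (n + h))).card := by exact_mod_cast h4
    have h6 : (d : ℝ) ≤ (D q : ℝ) + 1 := by exact_mod_cast h2
    gcongr
  · rw [pr_zero]
    · positivity
    · intro m hm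
      rw [Finset.mem_Ioc] at hm
      left
      omega

theorem le_avg {D : ℕ → ℕ} {n h d : ℕ} (hdn : d ≤ n + 1)
    (H : ∀ q, q ≤ n + h → n < q + d → d ≤ D q + 1 ∧ D q ≤ d + 1) :
    (∑ t ∈ range d, (cw PP (n - t) h : ℝ)) / ((d : ℝ) + 2) ≤ mw Nat.Prime D n h := by
  classical
  rw [← sum_shift n h d hdn, Finset.sum_div]
  unfold mw mn
  apply Finset.sum_le_sum
  intro q hq
  rw [mem_upto] at hq
  rcases lt_or_ge n (q + d) with h1 | h1
  · obtain ⟨h2, h3⟩ := H q hq.1 h1
    unfold pr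
    have h4 : ((range d).filter (fun t => q + t ∈ Ioc n (n + h))).card ≤
        ((Ioc n (n + h)).filter (fun m => q ≤ m ∧ m ≤ q + D q)).card := by
      refine Finset.card_le_card_of_injOn (fun t => q + t) ?_ ?_
      · intro t ht
        simp only [Finset.coe_filter, Finset.mem_range, Finset.mem_Ioc, Set.mem_ofPred_eq] at ht
        simp only [Finset.coe_filter, Finset.mem_Ioc, Set.mem_ofPred_eq]
        refine ⟨ht.2, by omega, by omega⟩
      · intro a ha b hb hab
        simp only at hab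
        omega
    have h5 : (((range d).filter (fun t => q + t ∈ Ioc n (n + h))).card : ℝ) ≤
        ((Ioc n (n + h)).filter (fun m => q ≤ m ∧ m ≤ q + D q)).card := by exact_mod_cast h4
    have h6 : (D q : ℝ) + 1 ≤ (d : ℝ) + 2 := by
      have : (D q : ℝ) ≤ d + 1 := by exact_mod_cast h3
      linarith
    gcongr
  · have h2 : (range d).filter (fun t => q + t ∈ Ioc n (n + h)) = ∅ := by
      rw [Finset.filter_eq_empty_iff]
      intro t ht hc
      rw [Finset.mem_range] at ht
      rw [Finset.mem_Ioc] at hc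
      omega
    rw [h2, Finset.card_empty, Nat.cast_zero, zero_div]
    exact pr_nonneg D _ q

/-- prime counts in windows near `x` of length about `(log x)^a` -/
theorem near_win {a : ℝ} (ha : 1 < a) (K C : ℝ) {ε : ℝ} (hε : 0 < ε) : ∀ᶠ x : ℝ in atTop, ∀ n h : ℕ,
    |(n : ℝ) - x| ≤ C * (Real.log x) ^ K → |(h : ℝ) - (Real.log x) ^ a| ≤ 1 →
    |(cw PP n h : ℝ) / (Real.log x) ^ (a - 1) - Rw PP a n| ≤ ε * (1 + Rw PP a n) := by
  have f1 := near_pow a K (max C 0) (by linarith) (η := 1) one_pos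
  have f2 := near_pow (a - 1) K (max C 0) (by linarith) (η := 1) one_pos
  have f3 := near_log K (max C 0) (η := 1) one_pos
  have f4 := log_rpow_grow (show 0 < a - 1 by linarith) (4 / ε)
  filter_upwards [f1, f2, f3, f4, Real.tendsto_log_atTop.eventually_ge_atTop 2] with x f1 f2 f3 f4 hL n h hn hh
  have hL0 : 0 < Real.log x := by linarith
  have hn' : |(n : ℝ) - x| ≤ max C 0 * (Real.log x) ^ K := by
    refine hn.trans ?_
    have := Real.rpow_nonneg hL0.le K
    gcongr
    exact le_max_left _ _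
  have hx' : |x - x| ≤ max C 0 * (Real.log x) ^ K := by
    rw [sub_self, abs_zero]
    exact mul_nonneg (le_max_right _ _) (Real.rpow_nonneg hL0.le K)
  have g1 := f1 n x hn' hx'
  have g2 := f2 n x hn' hx'
  have g3 := f3 n x hn' hx'
  rw [abs_le] at g3
  have hLn : 0 < Real.log n := by linarith [g3.1]
  have e1 : Rw PP a n = cR PP n ((Real.log n) ^ a) / (Real.log n) ^ (a - 1) := by
    unfold Rw
    rw [weight hLn]
  rw [e1]
  have hw : 0 < (Real.log x) ^ (a - 1) := Real.rpow_pos_of_pos hL0 _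
  have hw' : 0 < (Real.log n) ^ (a - 1) := Real.rpow_pos_of_pos hLn _
  have h4 : 4 ≤ ε * (Real.log x) ^ (a - 1) := by
    rw [div_le_iff₀ hε] at f4
    linarith
  have hc := cR_near PP (x := (n : ℝ)) (y := (Real.log n) ^ a) (n := n) (h := h) (K₁ := 0) (K₂ := 2)
    (Nat.cast_nonneg n) (Real.rpow_nonneg hLn.le a) (by simp) (by
      push_cast
      rw [abs_le] at g1 hh ⊢
      constructor <;> linarith [g1.1, g1.2, hh.1, hh.2])
  apply quot_near (Nat.cast_nonneg _) hw hw'
  · rw [abs_sub_comm]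
    refine hc.trans ?_
    linarith
  · rw [abs_sub_comm]
    refine g2.trans ?_
    linarith

theorem Du_zero {u : ℝ} (hu : 0 < u) : Du u 0 = 0 := by
  unfold Du
  simp [Real.zero_rpow hu.ne']

theorem Du_le_of_le {u : ℝ} (hu : 0 < u) {a b : ℕ} (h : a ≤ b) : Du u a ≤ Du u b := by
  rcases Nat.eq_zero_or_pos a with h0 | h0
  · subst h0
    rw [Du_zero hu]
    exact Nat.zero_le _
  · exact Du_mono hu.le h0 h

theorem Du_near {u : ℝ} {a b : ℕ} (h : |(Real.log a) ^ u - (Real.log b) ^ u| ≤ 1) : Du u a ≤ Du u b + 1 := by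
  rw [abs_le] at h
  unfold Du
  have h4 : (Real.log a) ^ u ≤ (Real.log b) ^ u + 1 := by linarith [h.2]
  calc ⌊(Real.log a) ^ u⌋₊ ≤ ⌊(Real.log b) ^ u + 1⌋₊ := Nat.floor_mono h4
    _ = ⌊(Real.log b) ^ u⌋₊ + 1 := Nat.floor_add_one (Real.rpow_nonneg (Real.log_natCast_nonneg b) u)

theorem alg_low {e ε R A B : ℝ} (he0 : 0 < e) (he1 : e ≤ ε / 8) (he2 : e ≤ 1 / 8) (hA : 0 ≤ A)
    (h1 : |A - R| ≤ e * (1 + R)) (h2 : (1 - e) * A ≤ B) : (1 - ε) * R - ε ≤ B := by
  rw [abs_le] at h1
  refine le_trans ?_ h2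
  rcases le_or_gt 0 R with hR | hR
  · have h3 : (1 - e) * ((1 - e) * R - e) ≤ (1 - e) * A :=
      mul_le_mul_of_nonneg_left (by linarith [h1.1]) (by linarith)
    refine le_trans ?_ h3
    have h4 : 0 ≤ e ^ 2 * R := by positivity
    have h5 : 8 * e * R ≤ ε * R := by nlinarith
    nlinarith
  · have h3 : 0 ≤ 1 + R := by
      have : 0 ≤ e * (1 + R) := by linarith [h1.1, h1.2]
      exact nonneg_of_mul_nonneg_right this he0
    have h4 : 0 ≤ (1 - e) * A := mul_nonneg (by linarith) hA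
    nlinarith

theorem alg_up {e ε R A B : ℝ} (he0 : 0 < e) (he1 : e ≤ ε / 8) (he2 : e ≤ 1 / 8) (hA : 0 ≤ A)
    (h1 : |A - R| ≤ e * (1 + R)) (h2 : B ≤ (1 + e) * A) : B ≤ (1 + ε) * R + ε := by
  rw [abs_le] at h1
  have h3 : (1 + e) * A ≤ (1 + e) * ((1 + e) * R + e) :=
    mul_le_mul_of_nonneg_left (by linarith [h1.2]) (by linarith)
  refine h2.trans (h3.trans ?_)
  have h6 : e ^ 2 ≤ e := by nlinarith
  rcases le_or_gt 0 R with hR | hR
  · have h4 : e ^ 2 * R ≤ e * R := by nlinarith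
    have h5 : 8 * e * R ≤ ε * R := by nlinarith
    nlinarith
  · have h4 : 0 ≤ (1 + e) * R + e := by linarith [h1.2]
    have h5 : -e ≤ R := by nlinarith
    have h7 : (1 + e) * ((1 + e) * R + e) ≤ R + 2 * e := by nlinarith
    have h8 : 2 * e ≤ ε * (1 + R) := by nlinarith
    nlinarith

set_option maxHeartbeats 1000000 in
/-- the mean is an average of `R_a` of the primes -/
theorem sub_avg {u a : ℝ} (hu : 0 < u) (ha : 1 < a) : Sub (Rm (Du u) a) (Rw PP a) := by
  intro ε hε Y
  set e := min (ε / 8) (1 / 8) with he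
  have he0 : 0 < e := lt_min (by positivity) (by norm_num)
  have he1 : e ≤ ε / 8 := min_le_left _ _
  have he2 : e ≤ 1 / 8 := min_le_right _ _
  set K := max u a with hKdef
  have f1 := near_win ha K 8 he0
  have f2 := near_pow u K 8 hu.le (η := 1) one_pos
  have f3 := loggrow 16 K one_pos
  have f4 := log_rpow_grow hu (2 / e + 2)
  have f5 := log_rpow_mono (le_max_left u a)
  have f6 := log_rpow_mono (le_max_right u a)
  have f7 := log_rpow_grow (show 0 < a by linarith) 2
  filter_upwards [f1, f2, f3, f4, f5, f6, f7, eventually_ge_atTop 10, eventually_ge_atTop (2 * Y),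
    Real.tendsto_log_atTop.eventually_ge_atTop 2, Rw_nonneg PP a |>.and (eventually_ge_atTop 0)]
    with x f1 f2 f3 f4 f5 f6 f7 hx hxY hL _
  rw [← hKdef] at f5 f6
  set n := ⌊x⌋₊ with hn
  set y := (Real.log x) ^ a with hy
  set Q := (Real.log x) ^ K with hQ
  set U := (Real.log x) ^ u with hU
  set h := ⌊x + y⌋₊ - n with hh
  have hx0 : 0 ≤ x := by linarith
  have hy0 : 0 ≤ y := by linarith
  have hlen := floor_len hx0 hy0
  rw [← hn, ← hh] at hlen
  have hlen' := hlen
  rw [abs_le] at hlen'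
  have hnx : (n : ℝ) ≤ x := Nat.floor_le hx0
  have hnx2 : x < n + 1 := Nat.lt_floor_add_one x
  have hLpos : 0 < Real.log x := by linarith
  set d := Du u n with hd
  have hnear0 : |(Real.log n) ^ u - U| ≤ 1 := by
    apply f2
    · rw [abs_le]
      constructor <;> linarith
    · rw [sub_self, abs_zero]
      linarith
  have hd1 : (d : ℝ) ≤ U + 1 := by
    have := Du_le u n
    rw [abs_le] at hnear0
    linarith [hnear0.2]
  have hd2 : 2 / e ≤ d := by
    have := Du_gt u n
    rw [abs_le] at hnear0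
    linarith [hnear0.1]
  have hd3 : 2 ≤ e * d := by
    rw [div_le_iff₀ he0] at hd2
    linarith
  have hdpos' : (0 : ℝ) < d := by
    have : 0 < 2 / e := by positivity
    linarith
  have hdpos : 0 < d := by exact_mod_cast hdpos'
  have hQ1 : 1 ≤ Q := by linarith
  have hdn : d + 2 ≤ n + 1 := by
    have h1 : ((d + 2 : ℕ) : ℝ) ≤ ((n + 1 : ℕ) : ℝ) := by
      push_cast
      linarith
    exact_mod_cast h1
  -- displacements near `n`
  have hnearq : ∀ q : ℕ, q ≤ n + h → n < q + d + 4 → d ≤ Du u q + 1 ∧ Du u q ≤ d + 1 := by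
    intro q hq1 hq2
    have hq1' : (q : ℝ) ≤ n + h := by exact_mod_cast hq1
    have hq2' : (n : ℝ) < q + d + 4 := by exact_mod_cast hq2
    have h1 : |(Real.log q) ^ u - (Real.log n) ^ u| ≤ 1 := by
      apply f2
      · rw [abs_le]
        constructor <;> linarith [hlen'.1, hlen'.2]
      · rw [abs_le]
        constructor <;> linarith
    exact ⟨Du_near (by rw [abs_sub_comm]; exact h1), Du_near h1⟩
  have hKK : Du u (n + h) ≤ d + 1 := (hnearq (n + h) le_rfl (by omega)).2
  have H1 : ∀ q, q ≤ n + h → n < q + Du u q → d ≤ Du u q + 1 ∧ Du u q ≤ d + 1 := by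
    intro q hq1 hq2
    apply hnearq q hq1
    have := Du_le_of_le hu hq1
    omega
  have H2 : ∀ q, q ≤ n + h → n < q + d → d ≤ Du u q + 1 ∧ Du u q ≤ d + 1 := by
    intro q hq1 hq2
    exact hnearq q hq1 (by omega)
  have hwp : 0 < (Real.log x) ^ (a - 1) := Real.rpow_pos_of_pos hLpos _
  have e2 : Rm (Du u) a x = mw Nat.Prime (Du u) n h / (Real.log x) ^ (a - 1) := by
    unfold Rm
    rw [weight hLpos]
  have hwin : ∀ t ∈ range (d + 2), |(cw PP (n - t) h : ℝ) / (Real.log x) ^ (a - 1) - Rw PP a ((n - t : ℕ) : ℝ)| ≤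
      e * (1 + Rw PP a ((n - t : ℕ) : ℝ)) ∧ Y ≤ ((n - t : ℕ) : ℝ) := by
    intro t ht
    rw [Finset.mem_range] at ht
    have ht' : (t : ℝ) ≤ d + 2 := by
      have : t ≤ d + 2 := by omega
      exact_mod_cast this
    have hc : ((n - t : ℕ) : ℝ) = n - t := Nat.cast_sub (by omega)
    have ht0 : (0 : ℝ) ≤ t := Nat.cast_nonneg t
    constructor
    · apply f1
      · rw [hc, abs_le]
        constructor <;> linarith
      · exact hlen
    · rw [hc]
      linarith
  have hcw0 : ∀ t, (0 : ℝ) ≤ (cw PP (n - t) h : ℝ) / (Real.log x) ^ (a - 1) := fun t => by positivity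
  rw [e2]
  constructor
  · -- lower bound
    obtain ⟨t, ht, htmin⟩ := Finset.exists_min_image (range d) (fun t => (cw PP (n - t) h : ℝ))
      ⟨0, Finset.mem_range.2 hdpos⟩
    have ht2 : t ∈ range (d + 2) := by
      rw [Finset.mem_range] at ht ⊢
      omega
    obtain ⟨g1, g2⟩ := hwin t ht2
    refine ⟨((n - t : ℕ) : ℝ), g2, ?_⟩
    have g3 := le_avg (D := Du u) (n := n) (h := h) (d := d) (by omega) H2
    have g4 : (d : ℝ) * (cw PP (n - t) h : ℝ) ≤ ∑ t ∈ range d, (cw PP (n - t) h : ℝ) := by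
      have := Finset.card_nsmul_le_sum (range d) (fun t => (cw PP (n - t) h : ℝ)) _ htmin
      rwa [Finset.card_range, nsmul_eq_mul] at this
    have g5 : (1 - e) * (cw PP (n - t) h : ℝ) ≤ mw Nat.Prime (Du u) n h := by
      refine le_trans ?_ g3
      rw [le_div_iff₀ (by positivity)]
      refine le_trans ?_ g4
      have h1 : (1 - e) * ((d : ℝ) + 2) ≤ d := by nlinarith
      have h2 : (0 : ℝ) ≤ cw PP (n - t) h := Nat.cast_nonneg _
      calc (1 - e) * (cw PP (n - t) h : ℝ) * ((d : ℝ) + 2) = ((1 - e) * ((d : ℝ) + 2)) * cw PP (n - t) h := by ring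
        _ ≤ d * cw PP (n - t) h := by gcongr
    have g6 : (1 - e) * ((cw PP (n - t) h : ℝ) / (Real.log x) ^ (a - 1)) ≤
        mw Nat.Prime (Du u) n h / (Real.log x) ^ (a - 1) := by
      rw [← mul_div_assoc]
      gcongr
    exact alg_low he0 he1 he2 (hcw0 t) g1 g6
  · obtain ⟨t, ht, htmax⟩ := Finset.exists_max_image (range (d + 2)) (fun t => (cw PP (n - t) h : ℝ))
      ⟨0, Finset.mem_range.2 (by omega)⟩
    obtain ⟨g1, g2⟩ := hwin t ht
    refine ⟨((n - t : ℕ) : ℝ), g2, ?_⟩
    have g3 := avg_le (D := Du u) (n := n) (h := h) (d := d) hdpos hdn H1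
    have g4 : ∑ t ∈ range (d + 2), (cw PP (n - t) h : ℝ) ≤ ((d : ℝ) + 2) * (cw PP (n - t) h : ℝ) := by
      have := Finset.sum_le_card_nsmul (range (d + 2)) (fun t => (cw PP (n - t) h : ℝ)) _ htmax
      rw [Finset.card_range, nsmul_eq_mul] at this
      push_cast at this
      exact this
    have g5 : mw Nat.Prime (Du u) n h ≤ (1 + e) * (cw PP (n - t) h : ℝ) := by
      refine g3.trans ?_
      rw [div_le_iff₀ hdpos']
      refine g4.trans ?_
      have h1 : (d : ℝ) + 2 ≤ (1 + e) * d := by nlinarith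
      have h2 : (0 : ℝ) ≤ cw PP (n - t) h := Nat.cast_nonneg _
      calc ((d : ℝ) + 2) * cw PP (n - t) h ≤ ((1 + e) * d) * cw PP (n - t) h := by gcongr
        _ = _ := by ring
    have g6 : mw Nat.Prime (Du u) n h / (Real.log x) ^ (a - 1) ≤
        (1 + e) * ((cw PP (n - t) h : ℝ) / (Real.log x) ^ (a - 1)) := by
      rw [← mul_div_assoc]
      gcongr
    exact alg_up he0 he1 he2 (hcw0 t) g1 g6

end Pool.Agent.Q268.DL
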