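import Mathlib
import Pool.Agent.Q268.DL.Avg

/-!
Windows shorter than the displacements.
-/

set_option autoImplicit false

namespace Pool.Agent.Q268.DL

open Filter Finset MeasureTheory
open Pool.Agent.Q268.DP
open scoped Topology

theorem Rw_nat {u : ℝ} {t : ℕ} (ht : 0 < Real.log t) :
    Rw PP u t = (cw PP t (Du u t) : ℝ) / (Real.log t) ^ (u - 1) := by
  unfold Rw
  rw [weight ht, cR_cw _ (Nat.cast_nonneg t) (Real.rpow_nonneg ht.le u), Nat.floor_natCast]
  have h1 : ⌊(t : ℝ) + (Real.log t) ^ u⌋₊ = t + Du u t := by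
    rw [add_comm, Nat.floor_add_natCast (Real.rpow_nonneg ht.le u), add_comm]
    rfl
  rw [h1, Nat.add_sub_cancel_left]

theorem weight_near {τ l D ε : ℝ} (u : ℝ) (hτ : 0 < τ) (hl : 0 < l) (hε : 0 < ε)
    (h1 : |τ - l| ≤ 1) (hτ2 : 2 / ε ≤ τ) (hpow : 4 / ε ≤ τ ^ u) (hD1 : τ ^ u ≤ D) (hD2 : D ≤ τ ^ u + 2) :
    |D / l - τ ^ (u - 1)| ≤ ε * (D / l) := by
  have hp : 0 < τ ^ u := Real.rpow_pos_of_pos hτ u
  have e1 : τ ^ (u - 1) = τ ^ u / τ := Real.rpow_sub_one hτ.ne' u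
  have hD0 : 0 < D := by linarith
  have e2 : D / l - τ ^ (u - 1) = (D - l * (τ ^ u / τ)) / l := by
    rw [e1]
    field_simp
  have e4 : ε * (D / l) = ε * D / l := by ring
  rw [e2, abs_div, abs_of_pos hl, e4]
  apply div_le_div_of_nonneg_right _ hl.le
  have e3 : D - l * (τ ^ u / τ) = (D - τ ^ u) + (τ - l) * (τ ^ u / τ) := by
    field_simp
    ring
  have h2 : |(τ - l) * (τ ^ u / τ)| ≤ ε / 2 * τ ^ u := by
    rw [abs_mul, abs_of_pos (show 0 < τ ^ u / τ by positivity)]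
    have h3 : τ ^ u / τ ≤ ε / 2 * τ ^ u := by
      rw [div_le_iff₀ hτ]
      rw [div_le_iff₀ hε] at hτ2
      nlinarith
    calc |τ - l| * (τ ^ u / τ) ≤ 1 * (τ ^ u / τ) := by gcongr
      _ ≤ _ := by linarith
  have h4 : |D - τ ^ u| ≤ 2 := by
    rw [abs_le]
    constructor <;> linarith
  have h5 : 4 ≤ ε * τ ^ u := by
    rw [div_le_iff₀ hε] at hpow
    linarith
  have h6 : ε * τ ^ u ≤ ε * D := by gcongr
  rw [e3]
  refine (abs_add_le _ _).trans ?_
  linarith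

set_option maxHeartbeats 1000000 in
/-- the density near `x` -/
theorem dn_near {u : ℝ} (hu : 1 < u) (K C : ℝ) (hC : 0 ≤ C) {ε : ℝ} (hε : 0 < ε) : ∀ᶠ x : ℝ in atTop, ∀ m : ℕ,
    |(m : ℝ) - x| ≤ C * (Real.log x) ^ K → ∃ t : ℕ, m ≤ t + Du u t ∧ t + Du u t ≤ m + 1 ∧
      |(t : ℝ) - x| ≤ (C + 3) * (Real.log x) ^ (max K u) ∧
      |dn (Du u) m * Real.log x - Rw PP u t| ≤ ε * (1 + Rw PP u t) := by
  have hu0 : 0 < u := by linarith
  obtain ⟨q₀, hq₀⟩ := Du_step hu0.le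
  obtain ⟨M, hM⟩ := eventually_atTop.1 (dn_struct hq₀ 2)
  have f1 := near_pow u K C hu0.le (η := 1) one_pos
  have f2 := near_pow u (max K u) (C + 3) hu0.le (η := 1) one_pos
  have f3 := near_log (max K u) (C + 3) (η := 1) one_pos
  have f4 := loggrow C K (show (0 : ℝ) < 1 / 2 by norm_num)
  have f5 := log_rpow_mono (le_max_left K u)
  have f6 := log_rpow_mono (le_max_right K u)
  have f7 := log_rpow_grow hu0 (4 / ε + 2)
  have f8 := log_rpow_grow (show 0 < u - 1 by linarith) (4 / ε)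
  filter_upwards [f1, f2, f3, f4, f5, f6, f7, f8, eventually_ge_atTop (2 * (M : ℝ) + 10),
    Real.tendsto_log_atTop.eventually_ge_atTop (4 / ε + 4)] with x f1 f2 f3 f4 f5 f6 f7 f8 hx hL m hm
  have hε2 : 0 < 4 / ε := by positivity
  have hL0 : 0 < Real.log x := by linarith
  have hmx := hm
  rw [abs_le] at hmx
  have hM0 : (0 : ℝ) ≤ M := Nat.cast_nonneg M
  have hmM : M ≤ m := by
    have : (M : ℝ) ≤ m := by linarith [hmx.1]
    exact_mod_cast this
  obtain ⟨t, -, ht2, ht3, ht4, ht5, ht6, ht7⟩ := hM m hmM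
  have hxx : |x - x| ≤ C * (Real.log x) ^ K := by
    rw [sub_self, abs_zero]
    exact (abs_nonneg _).trans hm
  have g1 := f1 m x hm hxx
  rw [abs_le] at g1
  have hDm := Du_le u m
  have hDm' : (Du u t : ℝ) ≤ Du u m := by exact_mod_cast ht5
  have ht2' : (t : ℝ) ≤ m := by exact_mod_cast ht2
  have ht3' : (m : ℝ) ≤ t + Du u t := by exact_mod_cast ht3
  have hCK : C * (Real.log x) ^ K ≤ C * (Real.log x) ^ (max K u) := by gcongr
  have hpow1 : 2 ≤ (Real.log x) ^ u := by linarith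
  have htx : |(t : ℝ) - x| ≤ (C + 3) * (Real.log x) ^ (max K u) := by
    rw [abs_le]
    constructor
    · have : (t : ℝ) ≥ m - ((Real.log x) ^ u + 1) := by linarith [g1.2]
      nlinarith [hmx.1]
    · nlinarith [hmx.2]
  have hxx' : |x - x| ≤ (C + 3) * (Real.log x) ^ (max K u) := by
    rw [sub_self, abs_zero]
    exact (abs_nonneg _).trans htx
  have hmx' : |(m : ℝ) - x| ≤ (C + 3) * (Real.log x) ^ (max K u) := by
    refine hm.trans ?_
    nlinarith
  have g2 := f2 t x htx hxx'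
  have g3 := f3 t x htx hxx'
  have g4 := f2 m t hmx' htx
  rw [abs_le] at g2 g3 g4
  set τ := Real.log t with hτ
  set l := Real.log x with hl
  have hτ0 : 4 / ε + 3 ≤ τ := by linarith [g3.1]
  have hτpos : 0 < τ := by linarith
  refine ⟨t, ht3, ht4, htx, ?_⟩
  rw [Rw_nat (by rw [← hτ]; exact hτpos), ← hτ]
  set c := (cw PP t (Du u t) : ℝ) with hc
  have hc0 : 0 ≤ c := Nat.cast_nonneg _
  have hw' : 0 < τ ^ (u - 1) := Real.rpow_pos_of_pos hτpos _
  have hτpow : 4 / ε ≤ τ ^ u := by linarith [g2.1]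
  have hτ2 : 2 / ε ≤ τ := by
    have : 2 / ε ≤ 4 / ε := by gcongr; norm_num
    linarith
  have hτl : |τ - l| ≤ 1 := by
    rw [abs_le]
    exact g3
  -- the weights
  have D1 : τ ^ u ≤ (Du u t : ℝ) + 1 := (Du_gt u t).le
  have D2 : (Du u t : ℝ) + 1 ≤ τ ^ u + 2 := by
    have := Du_le u t
    linarith
  have D3 : τ ^ u ≤ (Du u m : ℝ) + 1 := by linarith
  have D4 : (Du u m : ℝ) + 1 ≤ τ ^ u + 2 := by linarith [g4.2]
  have W1 := weight_near (D := (Du u t : ℝ) + 1) u hτpos hL0 hε hτl hτ2 hτpow D1 D2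
  have W2 := weight_near (D := (Du u m : ℝ) + 1) u hτpos hL0 hε hτl hτ2 hτpow D3 D4
  have hbig : ∀ D' : ℝ, τ ^ u ≤ D' → 1 ≤ ε * (D' / l) := by
    intro D' hD'
    have h1 : l ^ u ≤ 2 * D' := by linarith [g2.1]
    have h2 : l ^ (u - 1) ≤ 2 * (D' / l) := by
      rw [Real.rpow_sub_one hL0.ne', ← mul_div_assoc]
      gcongr
    have h3 : 4 ≤ ε * l ^ (u - 1) := by
      rw [div_le_iff₀ hε] at f8
      linarith
    nlinarith
  have Q1 := quot_near (c := c + 1) (c' := c) (w := ((Du u t : ℝ) + 1) / l) (w' := τ ^ (u - 1)) (ε := ε) hc0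
    (by positivity) hw' (by
      have h0 : c + 1 - c = 1 := by ring
      rw [h0, abs_one]
      exact hbig _ D1) W1
  have Q2 := quot_near (c := c - 1) (c' := c) (w := ((Du u m : ℝ) + 1) / l) (w' := τ ^ (u - 1)) (ε := ε) hc0
    (by positivity) hw' (by
      have h0 : c - 1 - c = -1 := by ring
      rw [h0, abs_neg, abs_one]
      exact hbig _ D3) W2
  have e1 : (c + 1) / (((Du u t : ℝ) + 1) / l) = (c + 1) / ((Du u t : ℝ) + 1) * l := by
    field_simp
  have e2 : (c - 1) / (((Du u m : ℝ) + 1) / l) = (c - 1) / ((Du u m : ℝ) + 1) * l := by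
    field_simp
  rw [e1] at Q1
  rw [e2] at Q2
  have k1 : dn (Du u) m * l ≤ (c + 1) / ((Du u t : ℝ) + 1) * l := by gcongr
  have k2 : (c - 1) / ((Du u m : ℝ) + 1) * l ≤ dn (Du u) m * l := by gcongr
  rw [abs_le] at Q1 Q2 ⊢
  constructor <;> linarith [Q1.1, Q1.2, Q2.1, Q2.2]

/-- the mean as a sum of densities -/
theorem Rm_sum (D : ℕ → ℕ) (a x : ℝ) : Rm D a x =
    (∑ m ∈ Ioc ⌊x⌋₊ (⌊x⌋₊ + (⌊x + (Real.log x) ^ a⌋₊ - ⌊x⌋₊)), dn D m * Real.log x) / (Real.log x) ^ a := by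
  unfold Rm
  rw [mw_dn, ← Finset.sum_mul]
  ring

set_option maxHeartbeats 1000000 in
theorem sub_short1 {u a : ℝ} (hu : 1 < u) (ha : 0 < a) : Sub (Rm (Du u) a) (Rw PP u) := by
  intro ε hε Y
  set e := min (ε / 8) (1 / 8) with he
  have he0 : 0 < e := lt_min (by positivity) (by norm_num)
  have he1 : e ≤ ε / 8 := min_le_left _ _
  have he2 : e ≤ 1 / 8 := min_le_right _ _
  have f1 := dn_near hu a 3 (by norm_num) he0
  have f2 := loggrow 12 (max a u) one_pos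
  have f3 := log_rpow_grow ha (1 / e + 2)
  filter_upwards [f1, f2, f3, eventually_ge_atTop 10, eventually_ge_atTop (2 * Y),
    Real.tendsto_log_atTop.eventually_ge_atTop 2] with x f1 f2 f3 hx hxY hL
  set n := ⌊x⌋₊ with hn
  set y := (Real.log x) ^ a with hy
  set h := ⌊x + y⌋₊ - n with hh
  have h1e : 0 < 1 / e := by positivity
  have hx0 : 0 ≤ x := by linarith
  have hy0 : 0 < y := by linarith
  have hlen := floor_len hx0 hy0.le
  rw [← hn, ← hh, abs_le] at hlen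
  have hnx : (n : ℝ) ≤ x := Nat.floor_le hx0
  have hnx2 : x < n + 1 := Nat.lt_floor_add_one x
  have hLpos : 0 < Real.log x := by linarith
  have hey : 1 ≤ e * y := by
    have h1 : 1 / e ≤ y := by linarith
    rw [div_le_iff₀ he0] at h1
    linarith
  have hh1 : (0 : ℝ) < h := by linarith [hlen.1]
  have hh2 : 0 < h := by exact_mod_cast hh1
  have hne : (Ioc n (n + h)).Nonempty := ⟨n + 1, Finset.mem_Ioc.2 ⟨by omega, by omega⟩⟩
  have hall : ∀ m ∈ Ioc n (n + h), ∃ t : ℕ, Y ≤ (t : ℝ) ∧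
      |dn (Du u) m * Real.log x - Rw PP u t| ≤ e * (1 + Rw PP u t) := by
    intro m hm
    rw [Finset.mem_Ioc] at hm
    have hm1 : (n : ℝ) < m := by exact_mod_cast hm.1
    have hm2 : (m : ℝ) ≤ n + h := by exact_mod_cast hm.2
    obtain ⟨t, -, -, ht3, ht4⟩ := f1 m (by
      rw [abs_le]
      constructor <;> linarith [hlen.1, hlen.2])
    refine ⟨t, ?_, ht4⟩
    rw [abs_le] at ht3
    linarith [ht3.1]
  rw [Rm_sum, ← hn, ← hy, ← hh]
  have hcard : (Ioc n (n + h)).card = h := by rw [Nat.card_Ioc]; omega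
  constructor
  · obtain ⟨m, hm, hmin⟩ := Finset.exists_min_image (Ioc n (n + h)) (fun m => dn (Du u) m * Real.log x) hne
    obtain ⟨t, hYt, ht⟩ := hall m hm
    refine ⟨t, hYt, ?_⟩
    have g1 := Finset.card_nsmul_le_sum (Ioc n (n + h)) (fun m => dn (Du u) m * Real.log x) _ hmin
    rw [hcard, nsmul_eq_mul] at g1
    have hA : 0 ≤ dn (Du u) m * Real.log x := mul_nonneg (dn_nonneg _ _) hLpos.le
    refine alg_low he0 he1 he2 hA ht ?_
    rw [le_div_iff₀ hy0]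
    refine le_trans ?_ g1
    have h1 : (1 - e) * y ≤ h := by nlinarith [hlen.1]
    calc (1 - e) * (dn (Du u) m * Real.log x) * y = ((1 - e) * y) * (dn (Du u) m * Real.log x) := by ring
      _ ≤ _ := by gcongr
  · obtain ⟨m, hm, hmax⟩ := Finset.exists_max_image (Ioc n (n + h)) (fun m => dn (Du u) m * Real.log x) hne
    obtain ⟨t, hYt, ht⟩ := hall m hm
    refine ⟨t, hYt, ?_⟩
    have g1 := Finset.sum_le_card_nsmul (Ioc n (n + h)) (fun m => dn (Du u) m * Real.log x) _ hmax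
    rw [hcard, nsmul_eq_mul] at g1
    have hA : 0 ≤ dn (Du u) m * Real.log x := mul_nonneg (dn_nonneg _ _) hLpos.le
    refine alg_up he0 he1 he2 hA ht ?_
    rw [div_le_iff₀ hy0]
    refine g1.trans ?_
    have h1 : (h : ℝ) ≤ (1 + e) * y := by nlinarith [hlen.2]
    calc (h : ℝ) * (dn (Du u) m * Real.log x) ≤ ((1 + e) * y) * (dn (Du u) m * Real.log x) := by gcongr
      _ = _ := by ring

end Pool.Agent.Q268.DL
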