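import Mathlib
import Pool.Agent.Q268.DL.Short

/-!
Windows shorter than the displacements: the converse comparison.
-/

set_option autoImplicit false

namespace Pool.Agent.Q268.DL

open Filter Finset MeasureTheory
open Pool.Agent.Q268.DP
open scoped Topology

theorem ct_bt {ε : ℝ} (hε : 0 < ε) : ∃ L₀ : ℕ, ∀ L a b : ℕ, L₀ ≤ L → |(a : ℝ) - b| ≤ L →
    |ct PP a - ct PP b| ≤ ε * L := by
  obtain ⟨L₀, hL₀⟩ := bt_eps hε
  refine ⟨L₀, fun L a b hL hab => ?_⟩
  have main : ∀ a b : ℕ, a ≤ b → (b : ℝ) - a ≤ L → ct PP b - ct PP a ≤ ε * L := by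
    intro a b hab hd
    have h1 : b ≤ a + L := by
      have : (b : ℝ) ≤ ((a + L : ℕ) : ℝ) := by
        push_cast
        linarith
      exact_mod_cast this
    have h2 := ct_mono PP h1
    have h3 := ct_add PP a L
    have h4 := hL₀ a L hL
    linarith
  rcases le_total a b with h | h
  · have h1 := ct_mono PP h
    rw [abs_sub_comm, abs_of_nonneg (by linarith)]
    apply main a b h
    rw [abs_sub_comm] at hab
    exact (le_abs_self _).trans hab
  · have h1 := ct_mono PP h
    rw [abs_of_nonneg (by linarith)]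
    apply main b a h
    exact (le_abs_self _).trans hab

theorem alg_fin {e ε R M : ℝ} (hε : 0 < ε) (he0 : 0 < e) (he1 : e ≤ ε / 64) (he2 : e ≤ 1 / 64) (hR : 0 ≤ R)
    (hM : 0 ≤ M) (h1 : M ≤ (1 + e) * (R + 4 * e * (1 + R))) (h2 : (1 - e) * R - 5 * e * (1 + R) ≤ M) :
    (1 - ε) * M - ε ≤ R ∧ R ≤ (1 + ε) * M + ε := by
  have h3 : e * e ≤ e * (1 / 64) := by gcongr
  have h4 : 0 ≤ e * R := by positivity
  have h5 : e * e * R ≤ e * (1 / 64) * R := by gcongr
  constructor
  · have h6 : M ≤ (1 + 6 * e) * R + 5 * e := by nlinarith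
    have h7 : 64 * (e * R) ≤ ε * R := by nlinarith
    rcases le_or_gt ε 1 with h8 | h8
    · have h9 : (1 - ε) * M ≤ (1 - ε) * ((1 + 6 * e) * R + 5 * e) :=
        mul_le_mul_of_nonneg_left h6 (by linarith)
      have h10 : 0 ≤ ε * (e * R) := by positivity
      have h11 : 0 ≤ ε * e := by positivity
      nlinarith
    · have h9 : (1 - ε) * M ≤ 0 := mul_nonpos_of_nonpos_of_nonneg (by linarith) hM
      linarith
  · have h6 : (1 - 6 * e) * R - 5 * e ≤ M := by linarith
    have h7 : (1 + ε) * ((1 - 6 * e) * R - 5 * e) ≤ (1 + ε) * M := mul_le_mul_of_nonneg_left h6 (by linarith)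
    have h8 : e * (1 + ε) ≤ ε / 32 := by
      rcases le_or_gt ε 1 with h9 | h9
      · nlinarith
      · nlinarith
    have h9 : (e * (1 + ε)) * R ≤ (ε / 32) * R := by gcongr
    nlinarith [mul_nonneg hε.le hR]

set_option maxHeartbeats 2000000 in
/-- `R_u` of the primes from the mean of short windows, `0 < a ≤ u - 1` -/
theorem sub_short2 {u a : ℝ} (ha : 0 < a) (hau : a ≤ u - 1) : Sub (Rw PP u) (Rm (Du u) a) := by
  have hu : 1 < u := by linarith
  have hu0 : 0 < u := by linarith
  intro ε hε Y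
  set e := min (ε / 64) (1 / 64) with he
  have he0 : 0 < e := lt_min (by positivity) (by norm_num)
  have he1 : e ≤ ε / 64 := min_le_left _ _
  have he2 : e ≤ 1 / 64 := min_le_right _ _
  obtain ⟨L₀, hL₀⟩ := ct_bt (ε := e / 8) (by positivity)
  have hshift : Tendsto (fun y : ℝ => y + (Real.log y) ^ u) atTop atTop := by
    refine tendsto_atTop_mono' atTop ?_ tendsto_id
    filter_upwards [eventually_ge_atTop 1] with y hy
    have := Real.rpow_nonneg (Real.log_nonneg hy) u
    simp only [id_eq]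
    linarith
  have f1 := hshift.eventually (dn_near hu a 3 (by norm_num) he0)
  have f2 := hshift.eventually (near_pow u (max a u) 6 hu0.le (η := 1) one_pos)
  have f3 := hshift.eventually (near_pow (u - 1) (max a u) 6 (by linarith) (η := 1) one_pos)
  have f4 := hshift.eventually (near_log (max a u) 6 (η := 1) one_pos)
  have f5 := hshift.eventually (log_rpow_mono (le_max_right a u))
  have f6 := hshift.eventually (log_rpow_grow ha ((L₀ : ℝ) + 100 / e + 10))
  have f7 := hshift.eventually (log_rpow_mono hau)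
  have f8 := hshift.eventually (Real.tendsto_log_atTop.eventually_ge_atTop 4)
  filter_upwards [f1, f2, f3, f4, f5, f6, f7, f8, eventually_ge_atTop 10, eventually_ge_atTop Y,
    Real.tendsto_log_atTop.eventually_ge_atTop 1] with z f1 f2 f3 f4 f5 f6 f7 f8 hz hzY hLz
  set x := z + (Real.log z) ^ u with hx
  set n := ⌊x⌋₊ with hn
  set y := (Real.log x) ^ a with hy
  set h := ⌊x + y⌋₊ - n with hh
  set l := Real.log x with hl
  have h1e : 0 < 100 / e := by positivity
  have hp0 : 0 ≤ (Real.log z) ^ u := Real.rpow_nonneg (by linarith) u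
  have hzx : z ≤ x := by linarith
  have hx0 : 0 ≤ x := by linarith
  have hL00 : (0 : ℝ) ≤ L₀ := Nat.cast_nonneg _
  have hy0 : 0 < y := by linarith
  have hlen := floor_len hx0 hy0.le
  rw [← hn, ← hh, abs_le] at hlen
  have hnx : (n : ℝ) ≤ x := Nat.floor_le hx0
  have hnx2 : x < n + 1 := Nat.lt_floor_add_one x
  have hLpos : 0 < l := by linarith
  have hey : 100 ≤ e * y := by
    have h1 : 100 / e ≤ y := by linarith
    rw [div_le_iff₀ he0] at h1
    linarith
  have hh1 : (0 : ℝ) < h := by linarith [hlen.1]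
  have hh2 : 0 < h := by exact_mod_cast hh1
  -- `z` is near `x`
  have hlz : (Real.log z) ^ u ≤ l ^ u := Real.rpow_le_rpow (by linarith) (Real.log_le_log (by linarith) hzx) hu0.le
  have hQ0 : 0 ≤ l ^ max a u := Real.rpow_nonneg hLpos.le _
  have hzn : |z - x| ≤ 6 * l ^ (max a u) := by
    rw [abs_le]
    constructor <;> linarith
  have hxn : |x - x| ≤ 6 * l ^ (max a u) := by
    rw [sub_self, abs_zero]
    positivity
  have hLz0 : 0 < Real.log z := by linarith
  have k1 := f2 z x hzn hxn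
  have k2 := f3 z x hzn hxn
  have k3 := f4 z x hzn hxn
  rw [abs_le] at k1 k2 k3
  have hwl : y ≤ l ^ (u - 1) := f7
  -- all densities in the window
  have hall : ∀ m ∈ Ioc n (n + h), |dn (Du u) m * l - Rw PP u z| ≤ 4 * e * (1 + Rw PP u z) := by
    intro m hm
    rw [Finset.mem_Ioc] at hm
    have hm1 : (n : ℝ) < m := by exact_mod_cast hm.1
    have hm2 : (m : ℝ) ≤ n + h := by exact_mod_cast hm.2
    obtain ⟨t, ht1, ht2, ht3, ht4⟩ := f1 m (by
      rw [abs_le]
      constructor <;> linarith [hlen.1, hlen.2])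
    have ht1' : (m : ℝ) ≤ t + Du u t := by exact_mod_cast ht1
    have ht2' : (t : ℝ) + Du u t ≤ m + 1 := by exact_mod_cast ht2
    norm_num at ht3
    have j1 := f2 t z ht3 hzn
    have j2 := f3 t z ht3 hzn
    have j3 := f4 t z ht3 hzn
    rw [abs_le] at j1 j3
    have hLt : 0 < Real.log t := by linarith [j3.1]
    have hD1 := Du_le u t
    have hD2 := Du_gt u t
    have q1 : |(⌊x⌋₊ : ℝ) - (t + Du u t : ℕ)| ≤ (h + 8 : ℕ) := by
      push_cast
      rw [← hn, abs_le]
      constructor <;> linarith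
    have q2 : |(⌊z⌋₊ : ℝ) - t| ≤ (h + 8 : ℕ) := by
      have g1 := Nat.floor_le (show 0 ≤ z by linarith)
      have g2 := Nat.lt_floor_add_one z
      push_cast
      rw [abs_le]
      constructor <;> linarith [j1.1, j1.2]
    have hLh : L₀ ≤ h + 8 := by
      have : (L₀ : ℝ) ≤ ((h + 8 : ℕ) : ℝ) := by
        push_cast
        linarith
      exact_mod_cast this
    have r1 := hL₀ (h + 8) _ _ hLh q1
    have r2 := hL₀ (h + 8) _ _ hLh q2
    have e1 : (cR PP z ((Real.log z) ^ u) : ℝ) = ct PP ⌊x⌋₊ - ct PP ⌊z⌋₊ := cR_eq PP (by linarith) hp0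
    have e2 : (cw PP t (Du u t) : ℝ) = ct PP (t + Du u t) - ct PP t := by
      have := ct_add PP t (Du u t)
      linarith
    have e3 : Rw PP u z = cR PP z ((Real.log z) ^ u) / (Real.log z) ^ (u - 1) := by
      unfold Rw
      rw [weight hLz0]
    have hw1 : 0 < (Real.log t) ^ (u - 1) := Real.rpow_pos_of_pos hLt _
    have hw2 : 0 < (Real.log z) ^ (u - 1) := Real.rpow_pos_of_pos hLz0 _
    rw [abs_le] at j2
    have hwt : l ^ (u - 1) ≤ (Real.log t) ^ (u - 1) + 2 := by linarith [j2.1, k2.1]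
    have hyw : y ≤ (Real.log t) ^ (u - 1) + 2 := by linarith
    have hew : 1 ≤ e * (Real.log t) ^ (u - 1) := by
      have h1 := mul_le_mul_of_nonneg_left hyw he0.le
      have h2 : e * ((Real.log t) ^ (u - 1) + 2) = e * (Real.log t) ^ (u - 1) + 2 * e := by ring
      linarith
    have h11 : 11 ≤ (Real.log t) ^ (u - 1) := by
      have h1 : 100 ≤ 100 / e := by
        rw [le_div_iff₀ he0]
        linarith
      linarith
    have s1 : |(cw PP t (Du u t) : ℝ) - cR PP z ((Real.log z) ^ u)| ≤ e * (Real.log t) ^ (u - 1) := by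
      rw [e1, e2]
      have s2 : ct PP (t + Du u t) - ct PP t - (ct PP ⌊x⌋₊ - ct PP ⌊z⌋₊) =
          (ct PP ⌊z⌋₊ - ct PP t) - (ct PP ⌊x⌋₊ - ct PP (t + Du u t)) := by ring
      rw [s2]
      refine (abs_sub _ _).trans ((add_le_add r2 r1).trans ?_)
      push_cast
      have h8 : (h : ℝ) + 8 ≤ 2 * (Real.log t) ^ (u - 1) := by linarith [hlen.2]
      have h9 := mul_le_mul_of_nonneg_left h8 he0.le
      have h10 : e * (2 * (Real.log t) ^ (u - 1)) = 2 * (e * (Real.log t) ^ (u - 1)) := by ring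
      have h12 : e / 8 * ((h : ℝ) + 8) + e / 8 * ((h : ℝ) + 8) = (e * ((h : ℝ) + 8)) / 4 := by ring
      rw [h12]
      linarith
    have s3 : |(Real.log t) ^ (u - 1) - (Real.log z) ^ (u - 1)| ≤ e * (Real.log t) ^ (u - 1) := by
      rw [abs_le]
      constructor <;> linarith [j2.1, j2.2]
    have s4 := quot_near (Nat.cast_nonneg _) hw1 hw2 s1 s3
    rw [← e3, ← Rw_nat hLt] at s4
    rw [abs_le] at ht4 s4 ⊢
    have hR0 : 0 ≤ Rw PP u z := by
      rw [e3]
      positivity
    have s5 : Rw PP u t ≤ 2 * Rw PP u z + 1 := by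
      have h1 : e * (1 + Rw PP u z) ≤ 1 / 64 * (1 + Rw PP u z) :=
        mul_le_mul_of_nonneg_right he2 (by linarith)
      linarith [s4.2]
    have s6 : e * (1 + Rw PP u t) ≤ e * (2 + 2 * Rw PP u z) := mul_le_mul_of_nonneg_left (by linarith) he0.le
    have s7 : 0 ≤ e * (1 + Rw PP u z) := by positivity
    constructor <;> linarith [ht4.1, ht4.2, s4.1, s4.2]
  -- average
  have hR0 : 0 ≤ Rw PP u z := by
    unfold Rw
    positivity
  have hcard : (Ioc n (n + h)).card = h := by rw [Nat.card_Ioc]; omega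
  have hRm : Rm (Du u) a x = (∑ m ∈ Ioc n (n + h), dn (Du u) m * l) / y := Rm_sum _ _ _
  have t1 : ∑ m ∈ Ioc n (n + h), dn (Du u) m * l ≤ h * (Rw PP u z + 4 * e * (1 + Rw PP u z)) := by
    have := Finset.sum_le_card_nsmul (Ioc n (n + h)) (fun m => dn (Du u) m * l)
      (Rw PP u z + 4 * e * (1 + Rw PP u z)) (fun m hm => by
        have := hall m hm
        rw [abs_le] at this
        linarith [this.2])
    rwa [hcard, nsmul_eq_mul] at this
  have t2 : h * (Rw PP u z - 4 * e * (1 + Rw PP u z)) ≤ ∑ m ∈ Ioc n (n + h), dn (Du u) m * l := by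
    have := Finset.card_nsmul_le_sum (Ioc n (n + h)) (fun m => dn (Du u) m * l)
      (Rw PP u z - 4 * e * (1 + Rw PP u z)) (fun m hm => by
        have := hall m hm
        rw [abs_le] at this
        linarith [this.1])
    rwa [hcard, nsmul_eq_mul] at this
  set R := Rw PP u z with hR
  have hhy1 : (h : ℝ) ≤ (1 + e) * y := by
    have h1 : (1 + e) * y = y + e * y := by ring
    linarith [hlen.2]
  have hhy2 : (1 - e) * y ≤ h := by
    have h1 : (1 - e) * y = y - e * y := by ring
    linarith [hlen.1]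
  have u1 : Rm (Du u) a x ≤ (1 + e) * (R + 4 * e * (1 + R)) := by
    rw [hRm, div_le_iff₀ hy0]
    refine t1.trans ?_
    have : 0 ≤ R + 4 * e * (1 + R) := by positivity
    calc (h : ℝ) * (R + 4 * e * (1 + R)) ≤ ((1 + e) * y) * (R + 4 * e * (1 + R)) := by gcongr
      _ = _ := by ring
  have u2 : (1 - e) * R - 5 * e * (1 + R) ≤ Rm (Du u) a x := by
    rw [hRm, le_div_iff₀ hy0]
    refine le_trans ?_ t2
    have h1 : (1 - e) * y * R ≤ h * R := by gcongr
    have h2 : (h : ℝ) * (4 * e * (1 + R)) ≤ ((1 + e) * y) * (4 * e * (1 + R)) := by gcongr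
    have h3 : (1 + e) * y * (4 * e * (1 + R)) ≤ y * (5 * e * (1 + R)) := by
      have h4 : 0 ≤ y * (e * (1 + R)) := by positivity
      have h5 := mul_le_mul_of_nonneg_right he2 h4
      have h6 : (1 + e) * y * (4 * e * (1 + R)) = 4 * (y * (e * (1 + R))) + 4 * (e * (y * (e * (1 + R)))) := by ring
      have h7 : y * (5 * e * (1 + R)) = 5 * (y * (e * (1 + R))) := by ring
      rw [h6, h7]
      linarith
    have h4 : h * (R - 4 * e * (1 + R)) = h * R - h * (4 * e * (1 + R)) := by ring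
    have h5 : ((1 - e) * R - 5 * e * (1 + R)) * y = (1 - e) * y * R - y * (5 * e * (1 + R)) := by ring
    rw [h4, h5]
    linarith
  have h0 : 0 ≤ Rm (Du u) a x := by
    rw [hRm]
    apply div_nonneg _ hy0.le
    exact Finset.sum_nonneg fun m _ => mul_nonneg (dn_nonneg _ _) hLpos.le
  obtain ⟨v1, v2⟩ := alg_fin hε he0 he1 he2 hR0 h0 u1 u2
  exact ⟨⟨x, hzY.trans hzx, v1⟩, x, hzY.trans hzx, v2⟩

end Pool.Agent.Q268.DL
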