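import Mathlib
import Pool.Agent.Q268.DL.Short2
import Pool.Agent.Q225.MG.Mat
import Pool.Agent.Q120.MG.D5

/-!
The constants `L_a`, `U_a` of the displaced primes.
-/

set_option autoImplicit false

namespace Pool.Agent.Q268.DL

open Filter Finset MeasureTheory
open Pool.Agent.Q268.DP
open scoped Topology

/-- `L_u < 1` for the primes, `u ≥ 2` -/
theorem LL_lt_one {u : ℝ} (hu : 2 ≤ u) : LL (Rw PP u) < 1 := by
  classical
  obtain ⟨κ, h0, h1, hm⟩ := Pool.Agent.Q225.MG.mat Pool.Agent.Q120.MG.def_holds u hu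
  have hm1 := hm 1 (1 / 2) one_pos (by norm_num)
  have hlt : ((κ : ℝ) : EReal) < 1 := by exact_mod_cast h1
  refine lt_of_le_of_lt ?_ hlt
  unfold LL
  refine liminf_le_of_frequently_le ?_ (by isBoundedDefault)
  rw [frequently_atTop]
  intro Y
  have h2 : Tendsto (fun x : ℕ => (x : ℝ) ^ (1 - (1 / 2 : ℝ))) atTop atTop :=
    (tendsto_rpow_atTop (by norm_num)).comp tendsto_natCast_atTop_atTop
  obtain ⟨x, hx1, hx2⟩ := (hm1.and (h2.eventually_gt_atTop (((max ⌈Y⌉₊ 3 : ℕ) : ℝ)))).exists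
  have h3 : (((max ⌈Y⌉₊ 3 : ℕ) : ℝ)) < (((Icc 1 x).filter (fun n : ℕ =>
    (((Ioc n (n + ⌊1 * (Real.log n) ^ u⌋₊)).filter Nat.Prime).card : ℝ) ≤
      κ * (1 * (Real.log n) ^ (u - 1)))).card : ℝ) := hx2.trans_le hx1
  have h4 : max ⌈Y⌉₊ 3 < ((Icc 1 x).filter (fun n : ℕ =>
    (((Ioc n (n + ⌊1 * (Real.log n) ^ u⌋₊)).filter Nat.Prime).card : ℝ) ≤
      κ * (1 * (Real.log n) ^ (u - 1)))).card := by exact_mod_cast h3
  obtain ⟨n, hn, hnY⟩ : ∃ n ∈ (Icc 1 x).filter (fun n : ℕ =>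
    (((Ioc n (n + ⌊1 * (Real.log n) ^ u⌋₊)).filter Nat.Prime).card : ℝ) ≤
      κ * (1 * (Real.log n) ^ (u - 1))), max ⌈Y⌉₊ 3 < n := by
    by_contra hcon
    push Not at hcon
    have h5 : (Icc 1 x).filter (fun n : ℕ =>
      (((Ioc n (n + ⌊1 * (Real.log n) ^ u⌋₊)).filter Nat.Prime).card : ℝ) ≤
      κ * (1 * (Real.log n) ^ (u - 1))) ⊆ Icc 1 (max ⌈Y⌉₊ 3) := by
      intro n hn
      have h6 := hcon n hn
      rw [Finset.mem_filter, Finset.mem_Icc] at hn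
      rw [Finset.mem_Icc]
      exact ⟨hn.1.1, h6⟩
    have h6 := Finset.card_le_card h5
    rw [Nat.card_Icc] at h6
    omega
  rw [Finset.mem_filter] at hn
  have hn3 : 3 < n := lt_of_le_of_lt (le_max_right _ _) hnY
  have hnYY : Y ≤ n := (Nat.le_ceil Y).trans (by exact_mod_cast ((le_max_left _ _).trans hnY.le))
  refine ⟨n, hnYY, ?_⟩
  rw [EReal.coe_le_coe_iff]
  have hL : 0 < Real.log n := Real.log_pos (by exact_mod_cast (by omega : 1 < n))
  rw [Rw_nat hL, div_le_iff₀ (Real.rpow_pos_of_pos hL _), cw_PP]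
  have h5 := hn.2
  rw [one_mul, one_mul] at h5
  exact h5

/-- the limit statement -/
def Q1 (S : Set ℕ) : Prop := ∀ ε : ℝ, 0 < ε → ∃ a₀ : ℝ, ∀ a : ℝ, a₀ ≤ a → ∀ᶠ x : ℝ in atTop, |Rw S a x - 1| ≤ ε

theorem Q1_of_close {S T : Set ℕ} {a₁ : ℝ} (h : ∀ a : ℝ, a₁ ≤ a → Close (Rw S a) (Rw T a)) (hT : Q1 T) : Q1 S := by
  intro ε hε
  set e := min (ε / 4) 1 with he
  have he0 : 0 < e := lt_min (by positivity) one_pos
  have he1 : e ≤ ε / 4 := min_le_left _ _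
  have he2 : e ≤ 1 := min_le_right _ _
  obtain ⟨a₀, ha₀⟩ := hT e he0
  refine ⟨max a₀ a₁, fun a ha => ?_⟩
  filter_upwards [ha₀ a ((le_max_left _ _).trans ha), h a ((le_max_right _ _).trans ha) e he0] with x h1 h2
  rw [abs_le] at h1 h2 ⊢
  have h3 : e * (Rw T a x + 1) ≤ e * 3 := mul_le_mul_of_nonneg_left (by linarith [h1.2]) he0.le
  constructor <;> linarith [h1.1, h1.2, h2.1, h2.2]

theorem main {u : ℝ} (hu : 0 < u) {Ω : Type} [MeasurableSpace Ω] {μ : Measure Ω} {X : ℕ → Ω → ℕ}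
    (hX : Disp μ X (Du u)) :
    ∀ᵐ ω ∂μ, (∀ a : ℝ, 2 < a →
      (a ≤ u - 1 → LL (Rw (moved Nat.Prime X ω) a) = LL (Rw PP u) ∧ UU (Rw (moved Nat.Prime X ω) a) = UU (Rw PP u)) ∧
      (u + 1 ≤ a → LL (Rw (moved Nat.Prime X ω) a) = LL (Rw PP a) ∧ UU (Rw (moved Nat.Prime X ω) a) = UU (Rw PP a)) ∧
      (LL (Rw PP a) ≤ LL (Rw (moved Nat.Prime X ω) a) ∧ UU (Rw (moved Nat.Prime X ω) a) ≤ UU (Rw PP a)) ∧
      (1 < u → LL (Rw PP u) ≤ LL (Rw (moved Nat.Prime X ω) a) ∧ UU (Rw (moved Nat.Prime X ω) a) ≤ UU (Rw PP u))) ∧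
      (Q1 (moved Nat.Prime X ω) ↔ Q1 PP) := by
  obtain ⟨q₀, hq₀⟩ := Du_step hu.le
  have hd := dn_tendsto (fun q hq => (hq₀ q hq).1) (Du_tendsto hu)
  filter_upwards [close_core hX hd] with ω hω
  have key : ∀ a : ℝ, 2 < a → LL (Rw (moved Nat.Prime X ω) a) = LL (Rm (Du u) a) ∧
      UU (Rw (moved Nat.Prime X ω) a) = UU (Rm (Du u) a) := by
    intro a ha
    have h1 := (hω a ha).sub
    have h2 := ((hω a ha).symm (Rw_nonneg _ a)).sub
    exact ⟨le_antisymm h2.LL_le h1.LL_le, le_antisymm h1.UU_le h2.UU_le⟩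
  refine ⟨fun a ha => ?_, ?_⟩
  · obtain ⟨k1, k2⟩ := key a ha
    rw [k1, k2]
    refine ⟨fun hau => ?_, fun hau => ?_, ?_, fun hu1 => ?_⟩
    · have h1 := sub_short1 (u := u) (a := a) (by linarith) (by linarith)
      have h2 := sub_short2 (u := u) (a := a) (by linarith) hau
      exact ⟨le_antisymm h2.LL_le h1.LL_le, le_antisymm h1.UU_le h2.UU_le⟩
    · have h0 := close_long hu hau
      have h1 := h0.sub
      have h2 := (h0.symm (Rm_nonneg _ a)).sub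
      exact ⟨le_antisymm h2.LL_le h1.LL_le, le_antisymm h1.UU_le h2.UU_le⟩
    · have h1 := sub_avg hu (show 1 < a by linarith)
      exact ⟨h1.LL_le, h1.UU_le⟩
    · have h1 := sub_short1 (u := u) (a := a) hu1 (by linarith)
      exact ⟨h1.LL_le, h1.UU_le⟩
  · have hc : ∀ a : ℝ, max 3 (u + 1) ≤ a → Close (Rw (moved Nat.Prime X ω) a) (Rw PP a) := by
      intro a ha
      exact (hω a (by have := (le_max_left _ _).trans ha; linarith)).trans
        (close_long hu ((le_max_right _ _).trans ha)) (Rw_nonneg _ a)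
    exact ⟨fun h => Q1_of_close (fun a ha => (hc a ha).symm (Rw_nonneg _ a)) h, fun h => Q1_of_close hc h⟩

theorem ct_PP (N : ℕ) : ct PP N = Nat.primeCounting N := by
  classical
  unfold ct cn Nat.primeCounting Nat.primeCounting'
  rw [Nat.count_eq_card_filter_range]
  congr!

end Pool.Agent.Q268.DL
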