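import Mathlib
import Pool.Agent.Q268.DL.Short2

/-!
Regular displacement functions: densities, and the asymptotic formula in all windows.
-/

set_option autoImplicit false

namespace Pool.Agent.Q268.DL

open Filter Finset MeasureTheory
open Pool.Agent.Q268.DP
open scoped Topology

/-- regular displacement functions -/
structure Regular (D : ℕ → ℕ) : Prop where
  step : ∀ᶠ q : ℕ in atTop, D q ≤ D (q + 1) ∧ D (q + 1) ≤ D q + 1
  small : Tendsto (fun q : ℕ => (D q : ℝ) / q) atTop (𝓝 0)
  ratio : Tendsto (fun q : ℕ => (D (q + D q) : ℝ) / D q) atTop (𝓝 1)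

/-- the normalised number of primes in the window `(t, t + D t]` -/
noncomputable def RD (D : ℕ → ℕ) (t : ℕ) : ℝ := (cw PP t (D t) : ℝ) / ((D t : ℝ) / Real.log t)

theorem RD_nonneg (D : ℕ → ℕ) (t : ℕ) : 0 ≤ RD D t := by
  unfold RD
  have := Real.log_natCast_nonneg t
  positivity

/-- the structure of the density, with the left end characterised -/
theorem dn_struct2 {D : ℕ → ℕ} {q₀ : ℕ} (h : RegFrom D q₀) (q₁ : ℕ) :
    ∀ᶠ m : ℕ in atTop, ∃ t, q₁ ≤ t ∧ t ≤ m ∧ m ≤ t + D t ∧ t + D t ≤ m + 1 ∧ D t ≤ D m ∧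
      (∀ q, q ≤ m → (m ≤ q + D q ↔ t ≤ q)) ∧
      ((cw PP t (D t) : ℝ) - 1) / ((D m : ℝ) + 1) ≤ dn D m ∧
      dn D m ≤ ((cw PP t (D t) : ℝ) + 1) / ((D t : ℝ) + 1) := by
  classical
  have hm : ∀ q, q₀ ≤ q → D q ≤ D (q + 1) := fun q hq => (h q hq).1
  filter_upwards [src_late hm (max (q₀ + 1) q₁) (by have := le_max_left (q₀ + 1) q₁; omega)] with m hm1
  obtain ⟨t, ht1, ht2, ht3, ht4⟩ := hm1
  have ht0 : q₀ + 1 ≤ t := (le_max_left _ _).trans ht1
  have htD : D t ≤ D m := mono_from hm (by omega) ht2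
  have hup : t + D t ≤ m + 1 := by
    have h1 : ¬ (t ≤ t - 1) := by omega
    have h2 := (ht4 (t - 1) (by omega)).not.2 h1
    have h3 := (h (t - 1) (by omega)).2
    rw [show t - 1 + 1 = t by omega] at h3
    omega
  refine ⟨t, (le_max_right _ _).trans ht1, ht2, ht3, hup, htD, ht4, ?_, ?_⟩
  · rw [dn_src, src_eq ht4]
    have h3 : ∀ q ∈ (Icc t m).filter Nat.Prime, 1 / ((D m : ℝ) + 1) ≤ 1 / ((D q : ℝ) + 1) := by
      intro q hq
      rw [Finset.mem_filter, Finset.mem_Icc] at hq
      have : (D q : ℝ) ≤ D m := by exact_mod_cast mono_from hm (by omega) hq.1.2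
      apply one_div_le_one_div_of_le (by positivity)
      linarith
    have h4 := Finset.card_nsmul_le_sum _ _ _ h3
    rw [nsmul_eq_mul] at h4
    refine le_trans ?_ h4
    rw [mul_one_div]
    have h5 : (cw PP t (D t) : ℝ) ≤ ((Icc t m).filter Nat.Prime).card + 1 := by
      have h6 : cw PP t (D t) ≤ ((Icc t m).filter Nat.Prime).card + 1 := by
        have h7 : (Ioc t (t + D t)).filter (fun m => m ∈ PP) ⊆ insert (m + 1) ((Icc t m).filter Nat.Prime) := by
          intro q hq
          rw [Finset.mem_filter, Finset.mem_Ioc] at hq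
          rw [Finset.mem_insert, Finset.mem_filter, Finset.mem_Icc]
          have h8 : q.Prime := hq.2
          by_cases h9 : q = m + 1
          · left
            exact h9
          · right
            exact ⟨⟨by omega, by omega⟩, h8⟩
        have h8 := (Finset.card_le_card h7).trans (Finset.card_insert_le _ _)
        unfold cw cn
        convert h8 using 2
      exact_mod_cast h6
    gcongr
    linarith
  · rw [dn_src, src_eq ht4]
    have h3 : ∀ q ∈ (Icc t m).filter Nat.Prime, 1 / ((D q : ℝ) + 1) ≤ 1 / ((D t : ℝ) + 1) := by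
      intro q hq
      rw [Finset.mem_filter, Finset.mem_Icc] at hq
      have : (D t : ℝ) ≤ D q := by exact_mod_cast mono_from hm (by omega) hq.1.1
      apply one_div_le_one_div_of_le (by positivity)
      linarith
    have h4 := Finset.sum_le_card_nsmul _ _ _ h3
    rw [nsmul_eq_mul] at h4
    refine h4.trans ?_
    rw [mul_one_div]
    have h5 : (((Icc t m).filter Nat.Prime).card : ℝ) ≤ cw PP t (D t) + 1 := by
      have h6 : ((Icc t m).filter Nat.Prime).card ≤ cw PP t (D t) + 1 := by
        have h7 : (Icc t m).filter Nat.Prime ⊆ insert t ((Ioc t (t + D t)).filter (fun m => m ∈ PP)) := by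
          intro q hq
          rw [Finset.mem_filter, Finset.mem_Icc] at hq
          rw [Finset.mem_insert, Finset.mem_filter, Finset.mem_Ioc]
          by_cases h9 : q = t
          · left
            exact h9
          · right
            exact ⟨⟨by omega, by omega⟩, hq.2⟩
        have h8 := (Finset.card_le_card h7).trans (Finset.card_insert_le _ _)
        unfold cw cn
        convert h8 using 2
      exact_mod_cast h6
    gcongr

/-- comparison of two weights -/
theorem weight_ratio {d d' l l' e : ℝ} (he : 0 < e) (he1 : e ≤ 1) (hd : 0 < d) (hl : 0 < l) (h1 : d ≤ d')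
    (h2 : d' ≤ (1 + e) * d) (h3 : l ≤ l') (h4 : l' ≤ (1 + e) * l) : |d' / l' - d / l| ≤ 2 * e * (d' / l') := by
  have hl' : 0 < l' := by linarith
  have hd' : 0 < d' := by linarith
  have e1 : d / l ≤ (1 + e) * (d' / l') := by
    rw [← mul_div_assoc, div_le_div_iff₀ hl hl']
    calc d * l' ≤ d' * ((1 + e) * l) := by gcongr
      _ = _ := by ring
  have e2 : d' / l' ≤ (1 + e) * (d / l) := by
    rw [← mul_div_assoc, div_le_div_iff₀ hl' hl]
    calc d' * l ≤ ((1 + e) * d) * l' := by gcongr
      _ = _ := by ring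
  have e3 : 0 < d' / l' := by positivity
  have e4 : 0 < d / l := by positivity
  rw [abs_le]
  constructor
  · have : 0 ≤ e * (d' / l') := by positivity
    linarith
  · have h5 : e * (d / l) ≤ e * ((1 + e) * (d' / l')) := by gcongr
    have h6 : e * ((1 + e) * (d' / l')) ≤ 2 * e * (d' / l') := by
      have h7 : e * (e * (d' / l')) ≤ 1 * (e * (d' / l')) := by gcongr
      calc e * ((1 + e) * (d' / l')) = e * (d' / l') + e * (e * (d' / l')) := by ring
        _ ≤ _ := by linarith
    linarith

/-- facts on regular functions -/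
theorem Regular.facts {D : ℕ → ℕ} (hD : Regular D) (hL : Tendsto (fun q : ℕ => (D q : ℝ) / Real.log q) atTop atTop)
    {e K : ℝ} (he : 0 < e) : ∀ᶠ q : ℕ in atTop, (D q : ℝ) ≤ e * q ∧ (D (q + D q) : ℝ) ≤ (1 + e) * D q ∧
      K * Real.log q ≤ D q ∧ 1 ≤ D q := by
  filter_upwards [hD.small.eventually_le_const he, hD.ratio.eventually_le_const (show (1 : ℝ) < 1 + e by linarith),
    hL.eventually_ge_atTop (max K 1), hD.ratio.eventually_const_lt (show (0 : ℝ) < 1 by norm_num),
    (Real.tendsto_log_atTop.comp tendsto_natCast_atTop_atTop).eventually_ge_atTop 1, eventually_gt_atTop 0]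
    with q h1 h2 h3 h4 h5 h6
  simp only [Function.comp_apply] at h5
  have hq : (0 : ℝ) < q := by exact_mod_cast h6
  have hl : 0 < Real.log q := by linarith
  have hDq : (D q : ℝ) ≠ 0 := by
    intro h0
    rw [h0, div_zero] at h4
    exact lt_irrefl _ h4
  have hDq' : D q ≠ 0 := by exact_mod_cast hDq
  have hDpos : (0 : ℝ) < D q := by
    have : 0 < D q := Nat.pos_of_ne_zero hDq'
    exact_mod_cast this
  refine ⟨?_, ?_, ?_, Nat.one_le_iff_ne_zero.2 hDq'⟩
  · rwa [div_le_iff₀ hq] at h1
  · rwa [div_le_iff₀ hDpos] at h2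
  · rw [le_div_iff₀ hl] at h3
    have := le_max_left K 1
    nlinarith

set_option maxHeartbeats 1000000 in
/-- the density in terms of the primes in the window of length `D t` -/
theorem dn_RD {D : ℕ → ℕ} (hD : Regular D) (hL : Tendsto (fun q : ℕ => (D q : ℝ) / Real.log q) atTop atTop)
    {ε : ℝ} (hε : 0 < ε) (q₁ : ℕ) : ∀ᶠ m : ℕ in atTop, ∃ t, q₁ ≤ t ∧ t ≤ m ∧ m ≤ t + D t ∧ t + D t ≤ m + 1 ∧
      (∀ q, q ≤ m → (m ≤ q + D q ↔ t ≤ q)) ∧ |dn D m * Real.log m - RD D t| ≤ ε * (1 + RD D t) := by
  set e := min (ε / 8) (1 / 8) with he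
  have he0 : 0 < e := lt_min (by positivity) (by norm_num)
  have he1 : e ≤ ε / 8 := min_le_left _ _
  have he2 : e ≤ 1 / 8 := min_le_right _ _
  obtain ⟨q₀, hq₀⟩ := eventually_atTop.1 hD.step
  have hreg : RegFrom D q₀ := fun q hq => hq₀ q hq
  obtain ⟨q₂, hq₂⟩ := eventually_atTop.1 ((hD.facts hL (K := 4 / e) he0).and
    (((Real.tendsto_log_atTop.comp tendsto_natCast_atTop_atTop).eventually_ge_atTop (2 / e + 2)).and
      (eventually_ge_atTop q₀)))
  filter_upwards [dn_struct2 hreg (max q₁ (max q₂ 10))] with m hm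
  obtain ⟨t, ht1, ht2, ht3, ht4, ht5, ht6, ht7, ht8⟩ := hm
  have htq : q₂ ≤ t := ((le_max_left _ _).trans (le_max_right _ _)).trans ht1
  have ht10 : 10 ≤ t := ((le_max_right _ _).trans (le_max_right _ _)).trans ht1
  obtain ⟨⟨f1, f2, f3, f4⟩, f5, f6⟩ := hq₂ t htq
  simp only [Function.comp_apply] at f5
  refine ⟨t, (le_max_left _ _).trans ht1, ht2, ht3, ht4, ht6, ?_⟩
  have h2e : 0 < 2 / e := by positivity
  have ht0 : (0 : ℝ) < t := by exact_mod_cast (by omega : 0 < t)
  have hlt : 0 < Real.log t := by linarith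
  have hlm : Real.log t ≤ Real.log m := Real.log_le_log ht0 (by exact_mod_cast ht2)
  have hm2 : (m : ℝ) ≤ 2 * t := by
    have : (m : ℝ) ≤ t + D t := by exact_mod_cast ht3
    nlinarith
  have hlm2 : Real.log m ≤ (1 + e) * Real.log t := by
    have h1 : Real.log m ≤ Real.log (2 * t) := Real.log_le_log (by linarith [(by exact_mod_cast ht2 : (t : ℝ) ≤ m)]) hm2
    rw [Real.log_mul (by norm_num) ht0.ne'] at h1
    have h2 := Real.log_two_lt_d9
    have h3 : 1 ≤ e * Real.log t := by
      have h4 : 1 / e ≤ Real.log t := by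
        have : 1 / e ≤ 2 / e := by gcongr; norm_num
        linarith
      rw [div_le_iff₀ he0] at h4
      linarith
    nlinarith
  have hDm : (D m : ℝ) ≤ (1 + e) * D t := by
    have h1 : D m ≤ D (t + D t) := mono_from (fun q hq => (hreg q hq).1) (by omega) ht3
    have h2 : (D m : ℝ) ≤ D (t + D t) := by exact_mod_cast h1
    linarith
  have hDt : (1 : ℝ) ≤ D t := by exact_mod_cast f4
  have hDt' : (D t : ℝ) ≤ D m := by exact_mod_cast ht5
  have hDbig : 4 / e ≤ D t := by
    refine le_trans ?_ f3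
    have : 0 < 4 / e := by positivity
    nlinarith
  have hDe : 4 ≤ e * D t := by
    rw [div_le_iff₀ he0] at hDbig
    linarith
  set c := (cw PP t (D t) : ℝ) with hc
  have hc0 : 0 ≤ c := Nat.cast_nonneg _
  have hw' : 0 < (D t : ℝ) / Real.log t := by positivity
  have W : ∀ D' : ℝ, (D t : ℝ) ≤ D' → D' ≤ (1 + 2 * e) * D t → ∀ c' : ℝ, |c' - c| ≤ 1 →
      |c' / (D' / Real.log m) - c / ((D t : ℝ) / Real.log t)| ≤ ε * (1 + c / ((D t : ℝ) / Real.log t)) := by
    intro D' h1 h2 c' h3
    have hlm0 : 0 < Real.log m := by linarith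
    have hD'0 : 0 < D' := by linarith
    have hw : 0 < D' / Real.log m := by positivity
    have h4 := weight_ratio (e := 2 * e) (by positivity) (by linarith) (by linarith) hlt h1 h2 hlm (by nlinarith)
    have h5 : 1 ≤ ε * (D' / Real.log m) := by
      have h6 : 4 / e * Real.log t ≤ D' := f3.trans h1
      have h7 : Real.log m ≤ 2 * Real.log t := by nlinarith
      rw [← mul_div_assoc, le_div_iff₀ hlm0, one_mul]
      have h8 : ε * (4 / e * Real.log t) ≤ ε * D' := by gcongr
      have h9 : 2 * Real.log t ≤ ε * (4 / e * Real.log t) := by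
        have h10 : 8 ≤ ε / e := by
          rw [le_div_iff₀ he0]
          linarith
        have h11 : ε * (4 / e * Real.log t) = 4 * (ε / e) * Real.log t := by ring
        rw [h11]
        nlinarith
      linarith
    refine quot_near hc0 hw hw' (h3.trans h5) (h4.trans ?_)
    have : 2 * (2 * e) ≤ ε := by linarith
    gcongr
  have Q1 := W ((D t : ℝ) + 1) (by linarith) (by nlinarith) (c + 1) (by simp)
  have Q2 := W ((D m : ℝ) + 1) (by linarith) (by nlinarith) (c - 1) (by simp)
  have e1 : (c + 1) / (((D t : ℝ) + 1) / Real.log m) = (c + 1) / ((D t : ℝ) + 1) * Real.log m := by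
    have : Real.log m ≠ 0 := by linarith
    field_simp
  have e2 : (c - 1) / (((D m : ℝ) + 1) / Real.log m) = (c - 1) / ((D m : ℝ) + 1) * Real.log m := by
    have : Real.log m ≠ 0 := by linarith
    field_simp
  rw [e1] at Q1
  rw [e2] at Q2
  have hlm0 : 0 ≤ Real.log m := by linarith
  have k1 : dn D m * Real.log m ≤ (c + 1) / ((D t : ℝ) + 1) * Real.log m := by gcongr
  have k2 : (c - 1) / ((D m : ℝ) + 1) * Real.log m ≤ dn D m * Real.log m := by gcongr
  have hRD : RD D t = c / ((D t : ℝ) / Real.log t) := rfl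
  rw [hRD]
  rw [abs_le] at Q1 Q2 ⊢
  constructor <;> linarith [Q1.1, Q1.2, Q2.1, Q2.2]

/-- the asymptotic formula for the primes in windows of length `D` gives the density of the displaced primes -/
theorem dn_of_PF {D : ℕ → ℕ} (hD : Regular D) (hL : Tendsto (fun q : ℕ => (D q : ℝ) / Real.log q) atTop atTop)
    (hP : Tendsto (RD D) atTop (𝓝 1)) : Tendsto (fun m : ℕ => dn D m * Real.log m) atTop (𝓝 1) := by
  rw [Metric.tendsto_atTop]
  intro ε hε
  set e := min (ε / 8) (1 / 8) with he
  have he0 : 0 < e := lt_min (by positivity) (by norm_num)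
  have he1 : e ≤ ε / 8 := min_le_left _ _
  have he2 : e ≤ 1 / 8 := min_le_right _ _
  rw [Metric.tendsto_atTop] at hP
  obtain ⟨q₁, hq₁⟩ := hP e he0
  obtain ⟨M, hM⟩ := eventually_atTop.1 (dn_RD hD hL he0 q₁)
  refine ⟨M, fun m hm => ?_⟩
  obtain ⟨t, ht1, -, -, -, -, ht2⟩ := hM m hm
  have h1 := hq₁ t ht1
  rw [Real.dist_eq] at h1 ⊢
  rw [abs_lt] at h1 ⊢
  rw [abs_le] at ht2
  have h3 : e * (1 + RD D t) ≤ e * 3 := mul_le_mul_of_nonneg_left (by linarith [h1.2]) he0.le
  constructor <;> linarith [h1.1, h1.2, ht2.1, ht2.2]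

/-- the mean number in all windows -/
theorem mw_of_dn {D : ℕ → ℕ} (hP : Tendsto (fun m : ℕ => dn D m * Real.log m) atTop (𝓝 1)) {ε : ℝ} (hε : 0 < ε) :
    ∀ᶠ n : ℕ in atTop, ∀ h : ℕ, h ≤ 3 * n →
      |mw Nat.Prime D n h - h / Real.log n| ≤ ε * (h / Real.log n) := by
  set e := min (ε / 8) (1 / 8) with he
  have he0 : 0 < e := lt_min (by positivity) (by norm_num)
  have he1 : e ≤ ε / 8 := min_le_left _ _
  have he2 : e ≤ 1 / 8 := min_le_right _ _
  rw [Metric.tendsto_atTop] at hP
  obtain ⟨M, hM⟩ := hP e he0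
  filter_upwards [eventually_ge_atTop (max M 2),
    (Real.tendsto_log_atTop.comp tendsto_natCast_atTop_atTop).eventually_ge_atTop (2 / e)] with n hn hln h hh
  simp only [Function.comp_apply] at hln
  have h2e : 0 < 2 / e := by positivity
  have hn0 : (0 : ℝ) < n := by
    have : 0 < n := by omega
    exact_mod_cast this
  have hl0 : 0 < Real.log n := by linarith
  have hl4 : 2 ≤ e * Real.log n := by
    rw [div_le_iff₀ he0] at hln
    linarith
  have key : ∀ m ∈ Ioc n (n + h), (1 - 3 * e) / Real.log n ≤ dn D m ∧ dn D m ≤ (1 + 3 * e) / Real.log n := by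
    intro m hm
    rw [Finset.mem_Ioc] at hm
    have h1 := hM m (by omega)
    rw [Real.dist_eq, abs_lt] at h1
    have h2 : Real.log n ≤ Real.log m := Real.log_le_log hn0 (by exact_mod_cast hm.1.le)
    have h3 : Real.log m ≤ (1 + e) * Real.log n := by
      have h4 : (m : ℝ) ≤ 4 * n := by
        have : m ≤ 4 * n := by omega
        exact_mod_cast this
      have h5 : Real.log m ≤ Real.log (4 * n) := Real.log_le_log (by
        have : 0 < m := by omega
        exact_mod_cast this) h4
      rw [Real.log_mul (by norm_num) hn0.ne'] at h5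
      have h6 : Real.log 4 < 2 := by
        have h7 : Real.log 4 = 2 * Real.log 2 := by
          rw [show (4 : ℝ) = 2 ^ 2 by norm_num, Real.log_pow]
          norm_num
        have := Real.log_two_lt_d9
        linarith
      nlinarith
    have hd0 := dn_nonneg D m
    have hlm : 0 < Real.log m := by linarith
    constructor
    · rw [div_le_iff₀ hl0]
      have h4 : 1 - e ≤ dn D m * ((1 + e) * Real.log n) := by
        have : dn D m * Real.log m ≤ dn D m * ((1 + e) * Real.log n) := by gcongr
        linarith [h1.1]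
      have h5 : 0 ≤ dn D m * Real.log n := by positivity
      have h6 : dn D m * Real.log n ≤ 1 + e := by
        have : dn D m * Real.log n ≤ dn D m * Real.log m := by gcongr
        linarith [h1.2]
      nlinarith
    · rw [le_div_iff₀ hl0]
      have : dn D m * Real.log n ≤ dn D m * Real.log m := by gcongr
      linarith [h1.2]
  rw [mw_dn]
  have hcard : (Ioc n (n + h)).card = h := by rw [Nat.card_Ioc]; omega
  have t1 : ∑ m ∈ Ioc n (n + h), dn D m ≤ h * ((1 + 3 * e) / Real.log n) := by
    have := Finset.sum_le_card_nsmul (Ioc n (n + h)) (fun m => dn D m) _ (fun m hm => (key m hm).2)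
    rwa [hcard, nsmul_eq_mul] at this
  have t2 : h * ((1 - 3 * e) / Real.log n) ≤ ∑ m ∈ Ioc n (n + h), dn D m := by
    have := Finset.card_nsmul_le_sum (Ioc n (n + h)) (fun m => dn D m) _ (fun m hm => (key m hm).1)
    rwa [hcard, nsmul_eq_mul] at this
  have e1 : (h : ℝ) * ((1 + 3 * e) / Real.log n) = h / Real.log n + 3 * e * (h / Real.log n) := by ring
  have e2 : (h : ℝ) * ((1 - 3 * e) / Real.log n) = h / Real.log n - 3 * e * (h / Real.log n) := by ring
  have e3 : 3 * e * (h / Real.log n) ≤ ε * (h / Real.log n) := by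
    have : (0 : ℝ) ≤ h / Real.log n := by positivity
    have : 3 * e ≤ ε := by linarith
    gcongr
  rw [abs_le]
  constructor <;> linarith

end Pool.Agent.Q268.DL
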