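import Mathlib
import Pool.Agent.Q268.DL.Reg

/-!
Uniform asymptotic formulas for the displaced primes.
-/

set_option autoImplicit false

namespace Pool.Agent.Q268.DL

open Filter Finset MeasureTheory
open Pool.Agent.Q268.DP
open scoped Topology

/-- the number of elements of `S` in `(x, x + y]` divided by `y / log x` -/
noncomputable def RR (S : Set ℕ) (x y : ℝ) : ℝ := (cR S x y : ℝ) / (y / Real.log x)

/-- the asymptotic formula in all windows which are long compared with `log² x` -/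
def UF (S : Set ℕ) : Prop := ∀ ε : ℝ, 0 < ε → ∃ C : ℝ, 0 < C ∧ ∀ᶠ x : ℝ in atTop, ∀ y : ℝ,
  C * Real.log x ^ 2 ≤ y → y ≤ x → |RR S x y - 1| ≤ ε

/-- the uniform asymptotic formula in all windows longer than all powers of the logarithm -/
def QU (S : Set ℕ) : Prop := ∀ ε : ℝ, 0 < ε → ∃ N : ℝ, 1 < N ∧ ∀ x y : ℝ, N ≤ x → Real.log x ^ N ≤ y → y ≤ x →
  |RR S x y - 1| ≤ ε

/-- the almost sure approximation by the mean -/
def Core (S : Set ℕ) (D : ℕ → ℕ) : Prop := ∀ ε : ℝ, 0 < ε → ∃ C : ℝ, 1 ≤ C ∧ ∀ᶠ n : ℕ in atTop, ∀ h : ℕ,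
  C * Real.log n ^ 2 ≤ h → h ≤ 3 * n →
    |(cw S n h : ℝ) - mw Nat.Prime D n h| ≤ ε * (mw Nat.Prime D n h + h / Real.log n)

theorem core_all {Ω : Type} [MeasurableSpace Ω] {μ : Measure Ω} {X : ℕ → Ω → ℕ} {D : ℕ → ℕ}
    (hX : Disp μ X D) (hd : Tendsto (dn D) atTop (𝓝 0)) : ∀ᵐ ω ∂μ, Core (moved Nat.Prime X ω) D := by
  have h1 : ∀ k : ℕ, ∀ᵐ ω ∂μ, ∀ᶠ n : ℕ in atTop, ∀ h : ℕ,
      32 / (1 / ((k : ℝ) + 1)) ^ 2 * Real.log n ^ 2 ≤ h → h ≤ 3 * n →
      |(cw (moved Nat.Prime X ω) n h : ℝ) - mw Nat.Prime D n h| ≤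
        (1 / ((k : ℝ) + 1)) * (mw Nat.Prime D n h + h / Real.log n) := by
    intro k
    apply core_eps hX Nat.Prime hd (by positivity)
    rw [div_le_one (by positivity)]
    have : (0 : ℝ) ≤ k := Nat.cast_nonneg k
    linarith
  filter_upwards [ae_all_iff.2 h1] with ω hω ε hε
  obtain ⟨k, hk⟩ := exists_nat_one_div_lt hε
  refine ⟨32 / (1 / ((k : ℝ) + 1)) ^ 2, ?_, ?_⟩
  · rw [le_div_iff₀ (by positivity)]
    have h2 : 1 / ((k : ℝ) + 1) ≤ 1 := by
      rw [div_le_one (by positivity)]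
      have : (0 : ℝ) ≤ k := Nat.cast_nonneg k
      linarith
    have h3 : 0 < 1 / ((k : ℝ) + 1) := by positivity
    nlinarith
  · filter_upwards [hω k] with n hn h h1 h2
    refine (hn h h1 h2).trans ?_
    have h3 := mw_nonneg Nat.Prime D n h
    have h4 : (0 : ℝ) ≤ h / Real.log n := div_nonneg (Nat.cast_nonneg _) (Real.log_natCast_nonneg n)
    gcongr

/-- from integer windows to real windows -/
theorem real_window {e : ℝ} (he0 : 0 < e) (he1 : e ≤ 1 / 16) : ∀ᶠ x : ℝ in atTop, ∀ y : ℝ, 1 / e ≤ y →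
    ∀ c : ℝ, |c - ((⌊x + y⌋₊ - ⌊x⌋₊ : ℕ) : ℝ) / Real.log (⌊x⌋₊ : ℕ)| ≤
      4 * e * (((⌊x + y⌋₊ - ⌊x⌋₊ : ℕ) : ℝ) / Real.log (⌊x⌋₊ : ℕ)) → |c / (y / Real.log x) - 1| ≤ 8 * e := by
  have f1 := near_log 0 1 (η := e) he0
  filter_upwards [f1, eventually_ge_atTop 10, Real.tendsto_log_atTop.eventually_ge_atTop 2] with x f1 hx hL y hy c hc
  have hx0 : 0 ≤ x := by linarith
  have h1e : 0 < 1 / e := by positivity
  have hy0 : 0 < y := by linarith
  have hlen := floor_len hx0 hy0.le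
  rw [abs_le] at hlen
  have hnx : (⌊x⌋₊ : ℝ) ≤ x := Nat.floor_le hx0
  have hnx2 : x < ⌊x⌋₊ + 1 := Nat.lt_floor_add_one x
  have hlog := f1 (⌊x⌋₊ : ℝ) x (by rw [abs_le]; constructor <;> simp <;> linarith) (by simp)
  rw [abs_le] at hlog
  have hLn : Real.log (⌊x⌋₊ : ℕ) ≤ Real.log x := Real.log_le_log (by linarith) hnx
  set h : ℝ := ((⌊x + y⌋₊ - ⌊x⌋₊ : ℕ) : ℝ) with hh
  set l := Real.log (⌊x⌋₊ : ℕ) with hl
  set L := Real.log x with hLdef
  have hl1 : 1 ≤ l := by linarith [hlog.1]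
  have hey : 1 ≤ e * y := by
    rw [div_le_iff₀ he0] at hy
    linarith
  have hL0 : 0 < L := by linarith
  have hLl : L ≤ (1 + e) * l := by nlinarith [hlog.1]
  have hyL : 0 < y / L := by positivity
  have a1 : h / l ≤ (1 + e) * (1 + e) * (y / L) := by
    rw [← mul_div_assoc, div_le_div_iff₀ (by linarith) hL0]
    have h1 : h ≤ (1 + e) * y := by nlinarith [hlen.2]
    calc h * L ≤ ((1 + e) * y) * ((1 + e) * l) := by gcongr
      _ = _ := by ring
  have a2 : (1 - e) * (y / L) ≤ h / l := by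
    rw [← mul_div_assoc, div_le_div_iff₀ hL0 (by linarith)]
    have h1 : (1 - e) * y ≤ h := by nlinarith [hlen.1]
    exact mul_le_mul h1 hLn (by linarith) (Nat.cast_nonneg _)
  have e0 : c / (y / L) - 1 = (c - y / L) / (y / L) := by
    field_simp
  rw [e0, abs_div, abs_of_pos hyL, div_le_iff₀ hyL]
  rw [abs_le] at hc ⊢
  set w := y / L with hw
  set v := h / l with hv
  have hee : e * e ≤ e * (1 / 16) := by gcongr
  have b1 : v ≤ (1 + 3 * e) * w := by
    refine a1.trans ?_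
    have : (1 + e) * (1 + e) ≤ 1 + 3 * e := by nlinarith
    gcongr
  have b2 : e * v ≤ 2 * (e * w) := by
    have h1 : e * v ≤ e * ((1 + 3 * e) * w) := mul_le_mul_of_nonneg_left b1 he0.le
    have h2 : e * ((1 + 3 * e) * w) ≤ e * (2 * w) := by
      have : 1 + 3 * e ≤ 2 := by linarith
      gcongr
    linarith
  have b3 : 4 * (e * v) ≤ 5 * (e * w) := by
    have h1 : e * v ≤ e * ((1 + 3 * e) * w) := mul_le_mul_of_nonneg_left b1 he0.le
    have h2 : e * ((1 + 3 * e) * w) ≤ e * ((1 + 3 / 16) * w) := by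
      have : 1 + 3 * e ≤ 1 + 3 / 16 := by linarith
      gcongr
    linarith [mul_pos he0 hyL]
  constructor
  · linarith [hc.1]
  · linarith [hc.2]

theorem UF_of_dn {S : Set ℕ} {D : ℕ → ℕ} (hC : Core S D)
    (hP : Tendsto (fun m : ℕ => dn D m * Real.log m) atTop (𝓝 1)) : UF S := by
  intro ε hε
  set e := min (ε / 16) (1 / 16) with he
  have he0 : 0 < e := lt_min (by positivity) (by norm_num)
  have he1 : e ≤ ε / 16 := min_le_left _ _
  have he2 : e ≤ 1 / 16 := min_le_right _ _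
  obtain ⟨C, hC1, hC2⟩ := hC e he0
  refine ⟨C + 1, by linarith, ?_⟩
  have f1 := (tendsto_nat_floor_atTop (α := ℝ)).eventually (hC2.and (mw_of_dn hP he0))
  have f2 := real_window he0 he2
  filter_upwards [f1, f2, eventually_ge_atTop 10, Real.tendsto_log_atTop.eventually_ge_atTop (1 / e + 2)]
    with x f1 f2 hx hL y hy1 hy2
  obtain ⟨f1, f3⟩ := f1
  have h1e : 0 < 1 / e := by positivity
  have hx0 : 0 ≤ x := by linarith
  have hsq : 1 / e + 2 ≤ Real.log x ^ 2 := by nlinarith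
  have hy0 : 1 / e + 2 ≤ y := by nlinarith
  have hlen := floor_len (y := y) hx0 (by linarith)
  rw [abs_le] at hlen
  have hnx : (⌊x⌋₊ : ℝ) ≤ x := Nat.floor_le hx0
  have hnx2 : x < ⌊x⌋₊ + 1 := Nat.lt_floor_add_one x
  have hln : 0 < Real.log (⌊x⌋₊ : ℕ) := Real.log_pos (by linarith)
  have hln2 : Real.log (⌊x⌋₊ : ℕ) ≤ Real.log x := Real.log_le_log (by linarith) hnx
  have c1 : C * Real.log (⌊x⌋₊ : ℕ) ^ 2 ≤ ((⌊x + y⌋₊ - ⌊x⌋₊ : ℕ) : ℝ) := by
    have h1 : C * Real.log (⌊x⌋₊ : ℕ) ^ 2 ≤ C * Real.log x ^ 2 := by gcongr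
    nlinarith [hlen.1]
  have c2 : ⌊x + y⌋₊ - ⌊x⌋₊ ≤ 3 * ⌊x⌋₊ := by
    have : ((⌊x + y⌋₊ - ⌊x⌋₊ : ℕ) : ℝ) ≤ ((3 * ⌊x⌋₊ : ℕ) : ℝ) := by
      push_cast
      linarith [hlen.2]
    exact_mod_cast this
  have k1 := f1 _ c1 c2
  have k2 := f3 _ c2
  have hy00 : 0 ≤ y := by linarith
  unfold RR
  rw [cR_cw S hx0 hy00]
  set h : ℝ := ((⌊x + y⌋₊ - ⌊x⌋₊ : ℕ) : ℝ) with hh
  have h8 : 8 * e ≤ ε := by linarith
  refine (f2 y (by linarith) _ ?_).trans h8
  have hv : 0 ≤ h / Real.log (⌊x⌋₊ : ℕ) := div_nonneg (Nat.cast_nonneg _) hln.le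
  set v := h / Real.log (⌊x⌋₊ : ℕ) with hvdef
  set M := mw Nat.Prime D ⌊x⌋₊ (⌊x + y⌋₊ - ⌊x⌋₊) with hM
  rw [abs_le] at k1 k2 ⊢
  have hev : 0 ≤ e * v := mul_nonneg he0.le hv
  have hMv : e * M ≤ e * (2 * v) := by
    apply mul_le_mul_of_nonneg_left _ he0.le
    nlinarith [k2.2]
  constructor
  · linarith [k1.1, k2.1]
  · linarith [k1.2, k2.2]

theorem QU_of_UF {S : Set ℕ} (h : UF S) : QU S := by
  intro ε hε
  obtain ⟨C, hC, hx⟩ := h ε hε
  obtain ⟨x₀, hx₀⟩ := eventually_atTop.1 hx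
  refine ⟨max 3 (max x₀ (Real.exp (max C 1))), by
    have := le_max_left 3 (max x₀ (Real.exp (max C 1)))
    linarith, fun x y hxN hy1 hy2 => ?_⟩
  set N := max 3 (max x₀ (Real.exp (max C 1))) with hN
  have h3 : 3 ≤ N := le_max_left _ _
  have hx3 : x₀ ≤ x := ((le_max_left _ _).trans (le_max_right _ _)).trans hxN
  have hxe : Real.exp (max C 1) ≤ x := ((le_max_right _ _).trans (le_max_right _ _)).trans hxN
  have hx0 : 0 < x := (Real.exp_pos _).trans_le hxe
  have hl : max C 1 ≤ Real.log x := (Real.le_log_iff_exp_le hx0).2 hxe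
  have hl1 : 1 ≤ Real.log x := (le_max_right _ _).trans hl
  have hlC : C ≤ Real.log x := (le_max_left _ _).trans hl
  refine hx₀ x hx3 y ?_ hy2
  refine le_trans ?_ hy1
  have h4 : (Real.log x) ^ (3 : ℝ) ≤ (Real.log x) ^ N := Real.rpow_le_rpow_of_exponent_le hl1 h3
  have h5 : (Real.log x) ^ (3 : ℝ) = Real.log x ^ 3 := by norm_cast
  rw [h5] at h4
  refine le_trans ?_ h4
  nlinarith [sq_nonneg (Real.log x)]

theorem log_ratio_le {e : ℝ} (he : 0 < e) : ∀ᶠ n : ℕ in atTop, ∀ m : ℕ, n ≤ m → m ≤ 4 * n →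
    Real.log n ≤ Real.log m ∧ Real.log m ≤ (1 + e) * Real.log n := by
  filter_upwards [eventually_gt_atTop 0,
    (Real.tendsto_log_atTop.comp tendsto_natCast_atTop_atTop).eventually_ge_atTop (2 / e)] with n hn hl m h1 h2
  simp only [Function.comp_apply] at hl
  have hn0 : (0 : ℝ) < n := by exact_mod_cast hn
  have h1' : (n : ℝ) ≤ m := by exact_mod_cast h1
  have h2' : (m : ℝ) ≤ 4 * n := by exact_mod_cast h2
  refine ⟨Real.log_le_log hn0 h1', ?_⟩
  have h5 : Real.log m ≤ Real.log (4 * n) := Real.log_le_log (by linarith) h2'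
  rw [Real.log_mul (by norm_num) hn0.ne'] at h5
  have h6 : Real.log 4 < 2 := by
    have h7 : Real.log 4 = 2 * Real.log 2 := by
      rw [show (4 : ℝ) = 2 ^ 2 by norm_num, Real.log_pow]
      norm_num
    have := Real.log_two_lt_d9
    linarith
  rw [div_le_iff₀ he] at hl
  linarith

set_option maxHeartbeats 2000000 in
/-- from the displaced primes in short windows back to the primes in the windows of length `D` -/
theorem conv {D : ℕ → ℕ} (hD : Regular D) (hL : Tendsto (fun q : ℕ => (D q : ℝ) / Real.log q) atTop atTop)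
    {S : Set ℕ} {H : ℕ → ℕ} {ε : ℝ} (he0 : 0 < ε) (he1 : ε ≤ 1 / 100)
    (ha : ∀ᶠ n : ℕ in atTop, |(cw S n (H n) : ℝ) - mw Nat.Prime D n (H n)| ≤
      ε * (mw Nat.Prime D n (H n) + H n / Real.log n))
    (hb : ∀ᶠ n : ℕ in atTop, |(cw S n (H n) : ℝ) / (H n / Real.log n) - 1| ≤ ε)
    (hc : ∀ᶠ n : ℕ in atTop, ∀ a b : ℕ, |(a : ℝ) - b| ≤ 2 * H n + 4 →
      |ct PP a - ct PP b| ≤ ε * (D n / Real.log n))
    (hd : ∀ᶠ n : ℕ in atTop, 1 ≤ H n ∧ (H n : ℝ) + 2 ≤ ε * D n) :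
    ∀ᶠ t : ℕ in atTop, |RD D t - 1| ≤ 40 * ε := by
  obtain ⟨q₀, hq₀⟩ := eventually_atTop.1 hD.step
  have hmono : ∀ q, q₀ ≤ q → D q ≤ D (q + 1) := fun q hq => (hq₀ q hq).1
  obtain ⟨M, hM⟩ := eventually_atTop.1 (dn_RD hD hL he0 q₀)
  have hshift : Tendsto (fun t : ℕ => t + D t - 1) atTop atTop := by
    refine tendsto_atTop_mono (fun t => ?_) (tendsto_sub_atTop_nat 1)
    omega
  have F := hD.facts hL (e := ε) (K := 1) he0
  filter_upwards [hshift.eventually ha, hshift.eventually hb, hshift.eventually hc, hshift.eventually hd,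
    hshift.eventually (eventually_ge_atTop M), F, eventually_ge_atTop (q₀ + 10), log_ratio_le he0,
    hshift.eventually (log_ratio_le he0),
    (Real.tendsto_log_atTop.comp tendsto_natCast_atTop_atTop).eventually_ge_atTop 2]
    with t₀ ha hb hc hd hMn F ht₀ hlr hlr2 hl2
  simp only [Function.comp_apply] at hl2
  obtain ⟨F1, F2, F3, F4⟩ := F
  set n := t₀ + D t₀ - 1 with hn
  set h := H n with hh
  obtain ⟨hd1, hd2⟩ := hd
  have ht00 : (0 : ℝ) < t₀ := by exact_mod_cast (by omega : 0 < t₀)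
  have hl0 : 0 < Real.log t₀ := by linarith
  have hn1 : t₀ ≤ n := by omega
  have hn2 : n ≤ 2 * t₀ := by
    have : ((t₀ + D t₀ : ℕ) : ℝ) ≤ ((2 * t₀ : ℕ) : ℝ) := by
      push_cast
      nlinarith
    have : t₀ + D t₀ ≤ 2 * t₀ := by exact_mod_cast this
    omega
  obtain ⟨l1, l2⟩ := hlr n hn1 (by omega)
  have hln : 0 < Real.log n := by linarith
  have hDn : D n ≤ D (t₀ + D t₀) := mono_from hmono (by omega) (by omega)
  have hDn1 : (D n : ℝ) ≤ (1 + ε) * D t₀ := by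
    have : (D n : ℝ) ≤ D (t₀ + D t₀) := by exact_mod_cast hDn
    linarith
  have hDt1 : (1 : ℝ) ≤ D t₀ := by exact_mod_cast F4
  have hhD : (h : ℝ) ≤ 2 * ε * D t₀ := by
    have h1 : ε * D n ≤ ε * ((1 + ε) * D t₀) := mul_le_mul_of_nonneg_left hDn1 he0.le
    have h2 : ε * ((1 + ε) * D t₀) ≤ ε * (2 * D t₀) := by
      have : 1 + ε ≤ 2 := by linarith
      gcongr
    linarith
  have hhn : h ≤ 3 * n := by
    have h1 : (h : ℝ) ≤ ((3 * n : ℕ) : ℝ) := by
      have h2 : (t₀ : ℝ) ≤ n := by exact_mod_cast hn1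
      push_cast
      nlinarith
    exact_mod_cast h1
  set R₀ := RD D t₀ with hR₀
  have hR0 : 0 ≤ R₀ := RD_nonneg D t₀
  have hw' : 0 < (D t₀ : ℝ) / Real.log t₀ := by positivity
  -- every density in the window
  have key : ∀ m ∈ Ioc n (n + h), |dn D m * Real.log n - R₀| ≤ 8 * ε * (1 + R₀) := by
    intro m hm
    rw [Finset.mem_Ioc] at hm
    obtain ⟨t, t1, t2, t3, t4, t5, t6⟩ := hM m (by omega)
    have htt : t₀ ≤ t := by
      by_contra hcon
      push Not at hcon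
      have := mono_from hmono t1 hcon.le
      omega
    have hDt : D t₀ ≤ D t := mono_from hmono (by omega) htt
    have htu : t ≤ t₀ + h := by omega
    have hDu : D t ≤ D t₀ + h := by omega
    have hDu' : (D t : ℝ) ≤ D t₀ + h := by exact_mod_cast hDu
    have hDt' : (D t₀ : ℝ) ≤ D t := by exact_mod_cast hDt
    have htt' : (t₀ : ℝ) ≤ t := by exact_mod_cast htt
    have htu' : (t : ℝ) ≤ t₀ + h := by exact_mod_cast htu
    -- numbers of primes
    have c1 := hc (t + D t) (t₀ + D t₀) (by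
      push_cast
      rw [abs_le]
      constructor <;> linarith)
    have c2 := hc t t₀ (by
      rw [abs_le]
      constructor <;> linarith)
    have e1 : (cw PP t (D t) : ℝ) = ct PP (t + D t) - ct PP t := by
      have := ct_add PP t (D t)
      linarith
    have e2 : (cw PP t₀ (D t₀) : ℝ) = ct PP (t₀ + D t₀) - ct PP t₀ := by
      have := ct_add PP t₀ (D t₀)
      linarith
    have w1 : (D n : ℝ) / Real.log n ≤ (1 + ε) * ((D t₀ : ℝ) / Real.log t₀) := by
      rw [← mul_div_assoc]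
      gcongr
    have hlt := hlr t htt (by
      have h1 : (t : ℝ) ≤ ((4 * t₀ : ℕ) : ℝ) := by
        push_cast
        nlinarith
      exact_mod_cast h1)
    have hltp : 0 < Real.log t := by linarith [hlt.1]
    have hwr := weight_ratio (d := (D t₀ : ℝ)) (d' := (D t : ℝ)) (l := Real.log t₀) (l' := Real.log t) (e := 2 * ε)
      (by positivity) (by linarith) (by linarith) hl0 hDt' (by linarith) hlt.1 (by nlinarith [hlt.2])
    set w := (D t : ℝ) / Real.log t with hw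
    set w₀ := (D t₀ : ℝ) / Real.log t₀ with hw₀
    have hwpos : 0 < w := by
      have : (0 : ℝ) < D t := by linarith
      positivity
    have hww : w₀ ≤ (1 + 4 * ε) * w := by
      rw [abs_le] at hwr
      linarith [hwr.1]
    have s1 : |(cw PP t (D t) : ℝ) - cw PP t₀ (D t₀)| ≤ 4 * ε * w := by
      have s2 : (cw PP t (D t) : ℝ) - cw PP t₀ (D t₀) =
          (ct PP (t + D t) - ct PP (t₀ + D t₀)) - (ct PP t - ct PP t₀) := by
        rw [e1, e2]
        ring
      rw [s2]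
      refine (abs_sub _ _).trans ((add_le_add c1 c2).trans ?_)
      have s3 : ε * ((D n : ℝ) / Real.log n) ≤ ε * ((1 + ε) * w₀) := mul_le_mul_of_nonneg_left w1 he0.le
      have s4 : ε * ((1 + ε) * w₀) ≤ ε * ((1 + 1 / 100) * ((1 + 4 / 100) * w)) := by
        have h1 : 1 + ε ≤ 1 + 1 / 100 := by linarith
        have h2 : w₀ ≤ (1 + 4 / 100) * w := by
          refine hww.trans ?_
          have : 1 + 4 * ε ≤ 1 + 4 / 100 := by linarith
          gcongr
        gcongr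
      have s5 : 0 ≤ ε * w := by positivity
      linarith
    have s6 : |w - w₀| ≤ 4 * ε * w := by
      refine hwr.trans (le_of_eq ?_)
      ring
    have s7 := quot_near (c := (cw PP t (D t) : ℝ)) (c' := (cw PP t₀ (D t₀) : ℝ)) (w := w) (w' := w₀) (ε := 4 * ε)
      (Nat.cast_nonneg _) hwpos hw' s1 s6
    have s8 : |RD D t - R₀| ≤ 4 * ε * (1 + R₀) := s7
    obtain ⟨m1, m2⟩ := hlr2 m (by omega) (by omega)
    have hd0 := dn_nonneg D m
    set d := dn D m with hdef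
    rw [abs_le] at t6 s8 ⊢
    have b0 : 0 ≤ ε * (1 + R₀) := by positivity
    have b1 : ε * (1 + RD D t) ≤ ε * ((1 + 4 / 100) * (1 + R₀)) := by
      apply mul_le_mul_of_nonneg_left _ he0.le
      have h1 : 4 * ε * (1 + R₀) ≤ 4 * (1 / 100) * (1 + R₀) := by gcongr
      linarith [s8.2]
    have b2 : |d * Real.log m - R₀| ≤ 6 * (ε * (1 + R₀)) := by
      rw [abs_le]
      constructor
      · linarith [t6.1, s8.1]
      · linarith [t6.2, s8.2]
    rw [abs_le] at b2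
    have b3 : d * Real.log n ≤ d * Real.log m := by gcongr
    have b4 : d * Real.log m ≤ d * Real.log n + ε * (d * Real.log n) := by
      calc d * Real.log m ≤ d * ((1 + ε) * Real.log n) := by gcongr
        _ = _ := by ring
    have b5 : ε * (d * Real.log n) ≤ ε * (R₀ + 6 * (1 / 100 * (1 + R₀))) := by
      apply mul_le_mul_of_nonneg_left _ he0.le
      have h1 : ε * (1 + R₀) ≤ 1 / 100 * (1 + R₀) := by gcongr
      linarith [b2.2]
    have b6 : 0 ≤ ε * R₀ := by positivity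
    constructor
    · linarith [b2.1]
    · linarith [b2.2]
  -- average
  have hcard : (Ioc n (n + h)).card = h := by rw [Nat.card_Ioc]; omega
  have hh0 : (0 : ℝ) < h := by
    have : 0 < h := by omega
    exact_mod_cast this
  have hmwl : mw Nat.Prime D n h * Real.log n = ∑ m ∈ Ioc n (n + h), dn D m * Real.log n := by
    rw [mw_dn, Finset.sum_mul]
  have t1 : ∑ m ∈ Ioc n (n + h), dn D m * Real.log n ≤ h * (R₀ + 8 * ε * (1 + R₀)) := by
    have := Finset.sum_le_card_nsmul (Ioc n (n + h)) (fun m => dn D m * Real.log n)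
      (R₀ + 8 * ε * (1 + R₀)) (fun m hm => by
        have := key m hm
        rw [abs_le] at this
        linarith [this.2])
    rwa [hcard, nsmul_eq_mul] at this
  have t2 : h * (R₀ - 8 * ε * (1 + R₀)) ≤ ∑ m ∈ Ioc n (n + h), dn D m * Real.log n := by
    have := Finset.card_nsmul_le_sum (Ioc n (n + h)) (fun m => dn D m * Real.log n)
      (R₀ - 8 * ε * (1 + R₀)) (fun m hm => by
        have := key m hm
        rw [abs_le] at this
        linarith [this.1])
    rwa [hcard, nsmul_eq_mul] at this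
  rw [← hmwl] at t1 t2
  set v := (h : ℝ) / Real.log n with hv
  have hv0 : 0 < v := by positivity
  set M₁ := mw Nat.Prime D n h with hM₁
  have u1 : M₁ ≤ v * (R₀ + 8 * ε * (1 + R₀)) := by
    have : v * (R₀ + 8 * ε * (1 + R₀)) = (h * (R₀ + 8 * ε * (1 + R₀))) / Real.log n := by
      rw [hv]
      ring
    rw [this, le_div_iff₀ hln]
    exact t1
  have u2 : v * (R₀ - 8 * ε * (1 + R₀)) ≤ M₁ := by
    have : v * (R₀ - 8 * ε * (1 + R₀)) = (h * (R₀ - 8 * ε * (1 + R₀))) / Real.log n := by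
      rw [hv]
      ring
    rw [this, div_le_iff₀ hln]
    exact t2
  set c := (cw S n h : ℝ) with hcdef
  have v1 : |c - v| ≤ ε * v := by
    have : c / v - 1 = (c - v) / v := by field_simp
    rw [this, abs_div, abs_of_pos hv0, div_le_iff₀ hv0] at hb
    exact hb
  rw [abs_le] at ha v1
  have hM0 : 0 ≤ M₁ := mw_nonneg _ _ _ _
  -- `M₁` is near `v`
  have x1 : M₁ ≤ v + 4 * (ε * v) := by
    by_contra hcon
    push Not at hcon
    have h1 : M₁ - ε * (M₁ + v) ≤ v + ε * v := by linarith [ha.1, v1.2]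
    have h2 : (1 - ε) * (v + 4 * (ε * v)) ≤ (1 - ε) * M₁ := mul_le_mul_of_nonneg_left hcon.le (by linarith)
    have h3 : ε * (ε * v) ≤ 1 / 100 * (ε * v) := by gcongr
    have h4 : 0 < ε * v := by positivity
    nlinarith
  have x2 : v - 4 * (ε * v) ≤ M₁ := by
    have h1 : v - ε * v ≤ M₁ + ε * (M₁ + v) := by linarith [ha.2, v1.1]
    have h2 : ε * M₁ ≤ ε * (v + 4 * (ε * v)) := mul_le_mul_of_nonneg_left x1 he0.le
    have h3 : ε * (ε * v) ≤ 1 / 100 * (ε * v) := by gcongr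
    have h4 : 0 < ε * v := by positivity
    nlinarith
  have y1 : R₀ - 8 * ε * (1 + R₀) ≤ 1 + 4 * ε := by
    have h1 : v * (R₀ - 8 * ε * (1 + R₀)) ≤ v * (1 + 4 * ε) := by
      have : v * (1 + 4 * ε) = v + 4 * (ε * v) := by ring
      linarith
    exact le_of_mul_le_mul_left h1 hv0
  have y2 : 1 - 4 * ε ≤ R₀ + 8 * ε * (1 + R₀) := by
    have h1 : v * (1 - 4 * ε) ≤ v * (R₀ + 8 * ε * (1 + R₀)) := by
      have : v * (1 - 4 * ε) = v - 4 * (ε * v) := by ring
      linarith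
    exact le_of_mul_le_mul_left h1 hv0
  have z1 : R₀ ≤ 2 := by nlinarith
  have z2 : ε * R₀ ≤ ε * 2 := mul_le_mul_of_nonneg_left z1 he0.le
  rw [abs_le]
  constructor <;> linarith

end Pool.Agent.Q268.DL
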