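import Mathlib
import Pool.Agent.Q268.DL.Unif

/-!
The uniform asymptotic formula for the displaced primes is equivalent to the asymptotic formula for
the primes in windows of the length of the displacements.
-/

set_option autoImplicit false

namespace Pool.Agent.Q268.DL

open Filter Finset MeasureTheory
open Pool.Agent.Q268.DP
open scoped Topology

theorem cR_nat (S : Set ℕ) (n h : ℕ) : (cR S n h : ℝ) = cw S n h := by
  rw [cR_cw S (Nat.cast_nonneg n) (Nat.cast_nonneg h), Nat.floor_natCast]
  have : ⌊(n : ℝ) + h⌋₊ = n + h := by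
    rw [← Nat.cast_add, Nat.floor_natCast]
  rw [this, Nat.add_sub_cancel_left]

theorem tendsto_of_ev {f : ℕ → ℝ} (h : ∀ ε : ℝ, 0 < ε → ε ≤ 1 / 100 → ∀ᶠ t : ℕ in atTop, |f t - 1| ≤ 40 * ε) :
    Tendsto f atTop (𝓝 1) := by
  rw [Metric.tendsto_atTop]
  intro ε hε
  have he0 : 0 < min (ε / 80) (1 / 100) := lt_min (by positivity) (by norm_num)
  obtain ⟨M, hM⟩ := eventually_atTop.1 (h _ he0 (min_le_right _ _))
  refine ⟨M, fun t ht => ?_⟩
  rw [Real.dist_eq]
  refine lt_of_le_of_lt (hM t ht) ?_
  have := min_le_left (ε / 80) (1 / 100)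
  linarith

/-- `D ≥ c log³`: the formula in all windows longer than `log²` is equivalent to the formula for `D` -/
theorem UF_iff {D : ℕ → ℕ} (hD : Regular D) {c : ℝ} (hc : 0 < c)
    (h3 : ∀ᶠ q : ℕ in atTop, c * Real.log q ^ 3 ≤ D q) {S : Set ℕ} (hC : Core S D) :
    UF S ↔ Tendsto (RD D) atTop (𝓝 1) := by
  have hlog : Tendsto (fun q : ℕ => Real.log q) atTop atTop :=
    Real.tendsto_log_atTop.comp tendsto_natCast_atTop_atTop
  have hL : Tendsto (fun q : ℕ => (D q : ℝ) / Real.log q) atTop atTop := by
    rw [tendsto_atTop]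
    intro K
    filter_upwards [h3, hlog.eventually_ge_atTop (max 1 (K / c))] with q h1 h2
    have h4 : 1 ≤ Real.log q := (le_max_left _ _).trans h2
    have h5 : K / c ≤ Real.log q := (le_max_right _ _).trans h2
    rw [le_div_iff₀ (by linarith)]
    refine le_trans ?_ h1
    rw [div_le_iff₀ hc] at h5
    have h6 : Real.log q ≤ Real.log q ^ 2 := by nlinarith
    calc K * Real.log q ≤ (Real.log q * c) * Real.log q := by gcongr
      _ = c * (Real.log q * Real.log q) := by ring
      _ ≤ c * (Real.log q ^ 2 * Real.log q) := by gcongr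
      _ = _ := by ring
  constructor
  · intro hU
    apply tendsto_of_ev
    intro ε hε hε1
    obtain ⟨C₁, hC1, hx1⟩ := hU ε hε
    obtain ⟨C₂, hC2, hx2⟩ := hC ε hε
    set C := max C₁ C₂ with hCdef
    have hC1' : 1 ≤ C := hC2.trans (le_max_right _ _)
    have hC0 : 0 < C := by linarith
    obtain ⟨L₀, hL₀⟩ := ct_bt (ε := ε * c / (4 * C)) (by positivity)
    set H : ℕ → ℕ := fun n => ⌈C * Real.log n ^ 2⌉₊ with hH
    have hH1 : ∀ n : ℕ, C * Real.log n ^ 2 ≤ H n := fun n => Nat.le_ceil _
    have hH2 : ∀ n : ℕ, (H n : ℝ) < C * Real.log n ^ 2 + 1 := fun n => Nat.ceil_lt_add_one (by positivity)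
    have g1 := tendsto_natCast_atTop_atTop (R := ℝ) |>.eventually (loggrow (C + 4) 2 one_pos)
    have hHn : ∀ᶠ n : ℕ in atTop, (H n : ℝ) ≤ n := by
      filter_upwards [g1, hlog.eventually_ge_atTop 1] with n g1 g2
      have e1 : (Real.log n) ^ (2 : ℝ) = Real.log n ^ 2 := by norm_cast
      rw [e1] at g1
      have := hH2 n
      nlinarith
    apply conv hD hL (H := H) (S := S) hε hε1
    · filter_upwards [hx2, hHn] with n h1 h2
      apply h1
      · refine le_trans ?_ (hH1 n)
        gcongr
        exact le_max_right _ _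
      · have : (H n : ℝ) ≤ ((3 * n : ℕ) : ℝ) := by
          push_cast
          have : (0 : ℝ) ≤ n := Nat.cast_nonneg n
          linarith
        exact_mod_cast this
    · filter_upwards [tendsto_natCast_atTop_atTop (R := ℝ) |>.eventually hx1, hHn] with n h1 h2
      have h4 := h1 (H n) (by
        refine le_trans ?_ (hH1 n)
        gcongr
        exact le_max_left _ _) h2
      unfold RR at h4
      rwa [cR_nat] at h4
    · filter_upwards [h3, hlog.eventually_ge_atTop (L₀ + 4)] with n h1 h2 a b hab
      have hL00 : (0 : ℝ) ≤ L₀ := Nat.cast_nonneg _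
      have hlp : 4 ≤ Real.log n := by linarith
      have hlp0 : 0 < Real.log n := by linarith
      have h4 : 16 ≤ Real.log n ^ 2 := by nlinarith
      have h5 : L₀ ≤ 2 * H n + 4 := by
        have : (L₀ : ℝ) ≤ ((2 * H n + 4 : ℕ) : ℝ) := by
          push_cast
          have h6 := hH1 n
          nlinarith
        exact_mod_cast this
      have h6 := hL₀ (2 * H n + 4) a b h5 (by push_cast; exact hab)
      refine h6.trans ?_
      push_cast
      have h7 : 2 * (H n : ℝ) + 4 ≤ 4 * C * Real.log n ^ 2 := by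
        have := hH2 n
        nlinarith
      have h8 : c * Real.log n ^ 2 ≤ D n / Real.log n := by
        rw [le_div_iff₀ hlp0]
        calc c * Real.log n ^ 2 * Real.log n = c * Real.log n ^ 3 := by ring
          _ ≤ (D n : ℝ) := h1
      calc ε * c / (4 * C) * (2 * (H n : ℝ) + 4) ≤ ε * c / (4 * C) * (4 * C * Real.log n ^ 2) := by gcongr
        _ = ε * (c * Real.log n ^ 2) := by field_simp
        _ ≤ ε * (D n / Real.log n) := by gcongr
    · filter_upwards [h3, hlog.eventually_ge_atTop (max 2 ((C + 3) / (ε * c)))] with n h1 h2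
      have h4 : 2 ≤ Real.log n := (le_max_left _ _).trans h2
      have h5 : (C + 3) / (ε * c) ≤ Real.log n := (le_max_right _ _).trans h2
      rw [div_le_iff₀ (by positivity)] at h5
      have h6 := hH1 n
      have h7 := hH2 n
      have h8 : 4 ≤ Real.log n ^ 2 := by nlinarith
      constructor
      · have : (1 : ℝ) ≤ H n := by nlinarith
        exact_mod_cast this
      · have h9 : (H n : ℝ) + 2 ≤ (C + 3) * Real.log n ^ 2 := by nlinarith
        refine h9.trans ?_
        calc (C + 3) * Real.log n ^ 2 ≤ (Real.log n * (ε * c)) * Real.log n ^ 2 := by gcongr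
          _ = ε * (c * Real.log n ^ 3) := by ring
          _ ≤ ε * D n := by gcongr
  · intro hP
    exact UF_of_dn hC (dn_of_PF hD hL hP)

/-- `D` larger than all powers of the logarithm -/
theorem QU_iff {D : ℕ → ℕ} (hD : Regular D) (hN : ∀ N : ℕ, ∀ᶠ q : ℕ in atTop, Real.log q ^ N ≤ D q) {S : Set ℕ}
    (hC : Core S D) : QU S ↔ Tendsto (RD D) atTop (𝓝 1) := by
  have hlog : Tendsto (fun q : ℕ => Real.log q) atTop atTop :=
    Real.tendsto_log_atTop.comp tendsto_natCast_atTop_atTop
  have h3 : ∀ᶠ q : ℕ in atTop, 1 * Real.log q ^ 3 ≤ D q := by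
    filter_upwards [hN 3] with q hq
    rwa [one_mul]
  have hL : Tendsto (fun q : ℕ => (D q : ℝ) / Real.log q) atTop atTop := by
    rw [tendsto_atTop]
    intro K
    filter_upwards [hN 2, hlog.eventually_ge_atTop (max 1 K)] with q h1 h2
    have h4 : 1 ≤ Real.log q := (le_max_left _ _).trans h2
    have h5 : K ≤ Real.log q := (le_max_right _ _).trans h2
    rw [le_div_iff₀ (by linarith)]
    refine le_trans ?_ h1
    nlinarith
  constructor
  · intro hQ
    apply tendsto_of_ev
    intro ε hε hε1
    obtain ⟨N₁, hN1, hx1⟩ := hQ ε hε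
    obtain ⟨C₂, hC2, hx2⟩ := hC ε hε
    set N : ℕ := max 3 ⌈N₁⌉₊ with hNdef
    have hN3 : 3 ≤ N := le_max_left _ _
    have hN1' : N₁ ≤ N := (Nat.le_ceil N₁).trans (by exact_mod_cast le_max_right _ _)
    set H : ℕ → ℕ := fun n => ⌈Real.log n ^ N⌉₊ with hH
    have hH1 : ∀ n : ℕ, Real.log n ^ N ≤ H n := fun n => Nat.le_ceil _
    have hH2 : ∀ n : ℕ, (H n : ℝ) < Real.log n ^ N + 1 := fun n => Nat.ceil_lt_add_one (by positivity)
    have g1 := tendsto_natCast_atTop_atTop (R := ℝ) |>.eventually (loggrow 2 N one_pos)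
    have hHn : ∀ᶠ n : ℕ in atTop, (H n : ℝ) ≤ n := by
      filter_upwards [g1, hlog.eventually_ge_atTop 1] with n g1 g2
      rw [Real.rpow_natCast] at g1
      have := hH2 n
      have h5 : 1 ≤ Real.log n ^ N := one_le_pow₀ g2
      linarith
    apply conv hD hL (H := H) (S := S) hε hε1
    · filter_upwards [hx2, hHn, hlog.eventually_ge_atTop (max 1 C₂)] with n h1 h2 h4
      have h5 : 1 ≤ Real.log n := (le_max_left _ _).trans h4
      have h6 : C₂ ≤ Real.log n := (le_max_right _ _).trans h4
      apply h1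
      · refine le_trans ?_ (hH1 n)
        calc C₂ * Real.log n ^ 2 ≤ Real.log n * Real.log n ^ 2 := by gcongr
          _ = Real.log n ^ 3 := by ring
          _ ≤ Real.log n ^ N := pow_le_pow_right₀ h5 hN3
      · have : (H n : ℝ) ≤ ((3 * n : ℕ) : ℝ) := by
          push_cast
          have : (0 : ℝ) ≤ n := Nat.cast_nonneg n
          linarith
        exact_mod_cast this
    · filter_upwards [tendsto_natCast_atTop_atTop (R := ℝ) |>.eventually (eventually_ge_atTop N₁), hHn,
        hlog.eventually_ge_atTop 1] with n h1 h2 h4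
      have h5 := hx1 n (H n) h1 (by
        refine le_trans ?_ (hH1 n)
        rw [← Real.rpow_natCast (Real.log n) N]
        exact Real.rpow_le_rpow_of_exponent_le h4 hN1') h2
      unfold RR at h5
      rwa [cR_nat] at h5
    · filter_upwards [hN (N + 2), hlog.eventually_ge_atTop (max 1 (8 / ε))] with n h1 h2 a b hab
      have h5 : 1 ≤ Real.log n := (le_max_left _ _).trans h2
      have h6 : 8 / ε ≤ Real.log n := (le_max_right _ _).trans h2
      rw [div_le_iff₀ hε] at h6
      have hlp0 : 0 < Real.log n := by linarith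
      refine (ct_abs PP a b).trans (hab.trans ?_)
      have h7 := hH2 n
      have h8 : 1 ≤ Real.log n ^ N := one_le_pow₀ h5
      have h9 : Real.log n ^ (N + 1) ≤ D n / Real.log n := by
        rw [le_div_iff₀ hlp0]
        calc Real.log n ^ (N + 1) * Real.log n = Real.log n ^ (N + 2) := by ring
          _ ≤ (D n : ℝ) := h1
      calc 2 * (H n : ℝ) + 4 ≤ 8 * Real.log n ^ N := by linarith
        _ ≤ (Real.log n * ε) * Real.log n ^ N := by gcongr
        _ = ε * Real.log n ^ (N + 1) := by ring
        _ ≤ ε * (D n / Real.log n) := by gcongr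
    · filter_upwards [hN (N + 2), hlog.eventually_ge_atTop (max 1 (8 / ε))] with n h1 h2
      have h5 : 1 ≤ Real.log n := (le_max_left _ _).trans h2
      have h6 : 8 / ε ≤ Real.log n := (le_max_right _ _).trans h2
      rw [div_le_iff₀ hε] at h6
      have h7 := hH2 n
      have h8 : 1 ≤ Real.log n ^ N := one_le_pow₀ h5
      have h0 := hH1 n
      constructor
      · have : (1 : ℝ) ≤ H n := by linarith
        exact_mod_cast this
      · calc (H n : ℝ) + 2 ≤ 8 * Real.log n ^ N := by linarith
          _ ≤ (Real.log n * ε) * Real.log n ^ N := by gcongr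
          _ = ε * Real.log n ^ (N + 1) := by ring
          _ ≤ ε * Real.log n ^ (N + 2) := by
            have := pow_le_pow_right₀ h5 (show N + 1 ≤ N + 2 by omega)
            gcongr
          _ ≤ ε * D n := by gcongr
  · intro hP
    exact QU_of_UF ((UF_iff hD one_pos h3 hC).2 hP)

end Pool.Agent.Q268.DL
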