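import Mathlib
import Pool.Agent.Q268.DL.Iff
import Pool.Agent.Q268.DL.FinA

/-!
Displacements `⌊(log q)^u⌋`: the uniform question has the same answer for the displaced primes as for
the primes.
-/

set_option autoImplicit false

namespace Pool.Agent.Q268.DL

open Filter Finset MeasureTheory
open Pool.Agent.Q268.DP
open scoped Topology

theorem RR_nonneg (S : Set ℕ) {x y : ℝ} (hx : 1 ≤ x) (hy : 0 ≤ y) : 0 ≤ RR S x y := by
  unfold RR
  have := Real.log_nonneg hx
  positivity

/-- two sets with uniformly close counting ratios -/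
def UNear (S T : Set ℕ) (κ : ℝ) : Prop := ∀ ε : ℝ, 0 < ε → ∀ᶠ x : ℝ in atTop, ∀ y : ℝ, Real.log x ^ κ ≤ y → y ≤ x →
  |RR S x y - RR T x y| ≤ ε * (1 + RR T x y)

theorem UNear.symm {S T : Set ℕ} {κ : ℝ} (h : UNear S T κ) : UNear T S κ := by
  intro ε hε
  set e := min (ε / 2) (1 / 2) with he
  have he0 : 0 < e := lt_min (by positivity) (by norm_num)
  have he1 : e ≤ ε / 2 := min_le_left _ _
  have he2 : e ≤ 1 / 2 := min_le_right _ _
  filter_upwards [h e he0, eventually_ge_atTop 1] with x hx hx1 y hy1 hy2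
  have h1 := hx y hy1 hy2
  have hy0 : 0 ≤ y := (Real.rpow_nonneg (Real.log_nonneg hx1) κ).trans hy1
  have hS := RR_nonneg S hx1 hy0
  have hT := RR_nonneg T hx1 hy0
  rw [abs_sub_comm]
  refine h1.trans ?_
  rw [abs_le] at h1
  have h2 : e * (1 + RR T x y) ≤ 1 / 2 * (1 + RR T x y) := by gcongr
  have h3 : 1 + RR T x y ≤ 2 * (1 + RR S x y) := by linarith [h1.1, h1.2]
  calc e * (1 + RR T x y) ≤ e * (2 * (1 + RR S x y)) := by gcongr
    _ ≤ (ε / 2) * (2 * (1 + RR S x y)) := by gcongr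
    _ = _ := by ring

theorem QU_of_near {S T : Set ℕ} {κ : ℝ} (h : UNear S T κ) (hT : QU T) : QU S := by
  intro ε hε
  set e := min (ε / 4) 1 with he
  have he0 : 0 < e := lt_min (by positivity) one_pos
  have he1 : e ≤ ε / 4 := min_le_left _ _
  have he2 : e ≤ 1 := min_le_right _ _
  obtain ⟨N₁, hN1, hx1⟩ := hT e he0
  obtain ⟨x₀, hx₀⟩ := eventually_atTop.1 (h e he0)
  refine ⟨max N₁ (max κ (max x₀ 3)), lt_of_lt_of_le hN1 (le_max_left _ _), fun x y hxN hy1 hy2 => ?_⟩
  set N := max N₁ (max κ (max x₀ 3)) with hN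
  have a1 : N₁ ≤ N := le_max_left _ _
  have a2 : κ ≤ N := (le_max_left _ _).trans (le_max_right _ _)
  have a3 : x₀ ≤ N := ((le_max_left _ _).trans (le_max_right _ _)).trans (le_max_right _ _)
  have a4 : 3 ≤ N := ((le_max_right _ _).trans (le_max_right _ _)).trans (le_max_right _ _)
  have hx3 : 3 ≤ x := a4.trans hxN
  have hl : 1 ≤ Real.log x := by
    rw [Real.le_log_iff_exp_le (by linarith)]
    have := Real.exp_one_lt_d9
    linarith
  have b1 := hx1 x y (a1.trans hxN) ((Real.rpow_le_rpow_of_exponent_le hl a1).trans hy1) hy2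
  have b2 := hx₀ x (a3.trans hxN) y ((Real.rpow_le_rpow_of_exponent_le hl a2).trans hy1) hy2
  rw [abs_le] at b1 b2 ⊢
  have b3 : e * (1 + RR T x y) ≤ e * 3 := mul_le_mul_of_nonneg_left (by linarith [b1.2]) he0.le
  constructor <;> linarith [b1.1, b1.2, b2.1, b2.2]

set_option maxHeartbeats 1000000 in
theorem near_Du {u : ℝ} (hu : 0 < u) {S : Set ℕ} (hC : Core S (Du u)) : UNear S PP (max 3 (u + 2)) := by
  intro ε hε
  set e := min (ε / 8) (1 / 8) with he
  have he0 : 0 < e := lt_min (by positivity) (by norm_num)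
  have he1 : e ≤ ε / 8 := min_le_left _ _
  have he2 : e ≤ 1 / 8 := min_le_right _ _
  obtain ⟨C, hC1, hC2⟩ := hC e he0
  have f1 := (tendsto_nat_floor_atTop (α := ℝ)).eventually hC2
  filter_upwards [f1, eventually_ge_atTop 10, Real.tendsto_log_atTop.eventually_ge_atTop (2 ^ u / e + C + 4),
    near_log 0 1 (η := 1) one_pos] with x f1 hx hL f4 y hy1 hy2
  have h2u : 0 < (2 : ℝ) ^ u / e := by positivity
  set l := Real.log x with hl
  have hl1 : 1 ≤ l := by linarith
  have hl0 : 0 < l := by linarith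
  have hx0 : 0 ≤ x := by linarith
  have hp3 : l ^ 3 ≤ y := by
    have h1 : l ^ (3 : ℝ) ≤ l ^ (max 3 (u + 2)) := Real.rpow_le_rpow_of_exponent_le hl1 (le_max_left _ _)
    have h2 : l ^ (3 : ℝ) = l ^ 3 := by norm_cast
    rw [h2] at h1
    exact h1.trans hy1
  have hpu : l ^ (u + 2) ≤ y := (Real.rpow_le_rpow_of_exponent_le hl1 (le_max_right _ _)).trans hy1
  have hl2 : 16 ≤ l ^ 2 := by nlinarith
  have hl3 : l ^ 3 = l * l ^ 2 := by ring
  have hy64 : (C + 1) * l ^ 2 ≤ y := by
    have h1 : (C + 1) * l ^ 2 ≤ l * l ^ 2 := by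
      have : C + 1 ≤ l := by linarith
      gcongr
    linarith
  have hy0 : 16 ≤ y := by nlinarith
  have hy00 : 0 ≤ y := by linarith
  have hlen := floor_len (y := y) hx0 hy00
  rw [abs_le] at hlen
  have hnx : (⌊x⌋₊ : ℝ) ≤ x := Nat.floor_le hx0
  have hnx2 : x < ⌊x⌋₊ + 1 := Nat.lt_floor_add_one x
  unfold RR
  rw [cR_cw S hx0 hy00, cR_cw PP hx0 hy00]
  set n := ⌊x⌋₊ with hn
  set h := ⌊x + y⌋₊ - n with hh
  have hlog := f4 n x (by rw [abs_le]; constructor <;> simp <;> linarith) (by simp)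
  rw [← hl, abs_le] at hlog
  have hln2 : Real.log n ≤ l := Real.log_le_log (by linarith) hnx
  have hln : 2 ≤ Real.log n := by linarith [hlog.1]
  have hln0 : 0 < Real.log n := by linarith
  have c1 : C * Real.log n ^ 2 ≤ h := by
    have h1 : C * Real.log n ^ 2 ≤ C * l ^ 2 := by gcongr
    nlinarith [hlen.1]
  have c2 : h ≤ 3 * n := by
    have : (h : ℝ) ≤ ((3 * n : ℕ) : ℝ) := by
      push_cast
      linarith [hlen.2]
    exact_mod_cast this
  have k1 := f1 h c1 c2
  -- the largest displacement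
  set K := Du u (n + h) with hKdef
  have hK : ∀ q, q ≤ n + h → Du u q ≤ K := fun q hq => Du_le_of_le hu hq
  set w := y / l with hw
  have hw0 : 0 < w := by positivity
  have hK1 : (K : ℝ) ≤ e * w := by
    have h1 := Du_le u (n + h)
    have h2 : Real.log (n + h : ℕ) ≤ 2 * l := by
      have h3 : ((n + h : ℕ) : ℝ) ≤ x ^ 2 := by
        push_cast
        nlinarith [hlen.2]
      have h4 : Real.log (n + h : ℕ) ≤ Real.log (x ^ 2) := Real.log_le_log (by push_cast; linarith [(Nat.cast_nonneg h : (0:ℝ) ≤ h)]) h3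
      rw [Real.log_pow] at h4
      push_cast at h4
      push_cast
      linarith
    have h3 : (Real.log (n + h : ℕ)) ^ u ≤ (2 * l) ^ u := Real.rpow_le_rpow (Real.log_natCast_nonneg _) h2 hu.le
    rw [Real.mul_rpow (by norm_num) hl0.le] at h3
    have h4 : (2 : ℝ) ^ u ≤ e * l := by
      have : 2 ^ u / e ≤ l := by linarith
      rw [div_le_iff₀ he0] at this
      linarith
    have h5 : 0 < l ^ u := Real.rpow_pos_of_pos hl0 u
    have h6 : l ^ (u + 2) = l ^ u * l ^ 2 := by
      rw [Real.rpow_add hl0]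
      norm_cast
    have h7 : l ^ u * l ≤ w := by
      rw [hw, le_div_iff₀ hl0]
      calc l ^ u * l * l = l ^ u * l ^ 2 := by ring
        _ = l ^ (u + 2) := h6.symm
        _ ≤ y := hpu
    calc (K : ℝ) ≤ 2 ^ u * l ^ u := h1.trans h3
      _ ≤ (e * l) * l ^ u := by gcongr
      _ = e * (l ^ u * l) := by ring
      _ ≤ e * w := by gcongr
  have hKn : K ≤ n := by
    have h1 : (K : ℝ) ≤ n := by
      have h2 : w ≤ y := by
        rw [hw]
        exact div_le_self hy00 hl1
      have h3 : e * w ≤ 1 / 8 * w := by gcongr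
      linarith
    exact_mod_cast h1
  have m1 := mean_le hK hKn
  have m2 := le_mean hK hKn
  have m3 := cw_le PP (n - K) K
  have m4 := cw_le PP (n + h - K) K
  set cS := (cw S n h : ℝ) with hcS
  set cP := (cw PP n h : ℝ) with hcP
  set M := mw Nat.Prime (Du u) n h with hM
  have hcP0 : 0 ≤ cP := Nat.cast_nonneg _
  have hv : (h : ℝ) / Real.log n ≤ 3 * w := by
    have h1 : (h : ℝ) ≤ 3 / 2 * y := by linarith [hlen.2]
    have h2 : l ≤ 2 * Real.log n := by linarith [hlog.1]
    rw [hw, ← mul_div_assoc, div_le_div_iff₀ hln0 hl0]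
    calc (h : ℝ) * l ≤ (3 / 2 * y) * (2 * Real.log n) := by gcongr
      _ = _ := by ring
  have hM1 : M ≤ cP + e * w := by linarith
  have hM2 : cP ≤ M + e * w := by linarith
  have b1 : e * (M + h / Real.log n) ≤ e * cP + 4 * (e * w) := by
    have h1 : e * (M + h / Real.log n) ≤ e * (cP + e * w + 3 * w) := mul_le_mul_of_nonneg_left (by linarith) he0.le
    have h2 : e * (e * w) ≤ 1 * (e * w) := by
      have : e ≤ 1 := by linarith
      gcongr
    calc e * (M + h / Real.log n) ≤ e * (cP + e * w + 3 * w) := h1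
      _ = e * cP + e * (e * w) + 3 * (e * w) := by ring
      _ ≤ _ := by linarith
  have b2 : |cS - cP| ≤ e * cP + 5 * (e * w) := by
    rw [abs_le] at k1 ⊢
    constructor <;> linarith [k1.1, k1.2]
  rw [div_sub_div_same, abs_div, abs_of_pos hw0, div_le_iff₀ hw0]
  refine b2.trans ?_
  have e1 : ε * (1 + cP / w) * w = ε * w + ε * cP := by
    field_simp
  rw [e1]
  have h1 : e * cP ≤ ε * cP := by
    have : e ≤ ε := by linarith
    gcongr
  have h2 : 5 * (e * w) ≤ ε * w := by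
    have h3 : 5 * e ≤ ε := by linarith
    calc 5 * (e * w) = (5 * e) * w := by ring
      _ ≤ ε * w := by gcongr
  linarith

theorem QU_Du {u : ℝ} (hu : 0 < u) {S : Set ℕ} (hC : Core S (Du u)) : QU S ↔ QU PP :=
  ⟨fun h => QU_of_near (near_Du hu hC).symm h, fun h => QU_of_near (near_Du hu hC) h⟩

/-- the uniform formula implies `L_a = 1` -/
theorem LL_of_UF {S : Set ℕ} (h : UF S) {a : ℝ} (ha : 2 < a) : (1 : EReal) ≤ LL (Rw S a) := by
  apply le_of_forall_lt
  intro c hc
  obtain ⟨c₁, h1, h2⟩ := EReal.lt_iff_exists_real_btwn.1 hc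
  have h3 : c₁ < 1 := by exact_mod_cast h2
  refine lt_of_lt_of_le h1 ?_
  refine le_liminf_of_le (by isBoundedDefault) ?_
  obtain ⟨C, hC, hx⟩ := h (1 - c₁) (by linarith)
  filter_upwards [hx, log_rpow_small ha C one_pos, loggrow 1 a one_pos, Real.tendsto_log_atTop.eventually_ge_atTop 1]
    with x hx g1 g2 g3
  rw [EReal.coe_le_coe_iff]
  rw [one_mul] at g1
  rw [one_mul, one_mul] at g2
  have e1 : (Real.log x) ^ (2 : ℝ) = Real.log x ^ 2 := by norm_cast
  rw [e1] at g1
  have h4 := hx ((Real.log x) ^ a) g1 g2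
  have h5 : RR S x ((Real.log x) ^ a) = Rw S a x := by
    unfold RR Rw
    have : 0 < (Real.log x) ^ a := Real.rpow_pos_of_pos (by linarith) a
    have h6 : Real.log x ≠ 0 := by linarith
    field_simp
  rw [h5, abs_le] at h4
  linarith [h4.1]

theorem not_UF_Du {u : ℝ} (hu : 0 < u) {Ω : Type} [MeasurableSpace Ω] {μ : Measure Ω} {X : ℕ → Ω → ℕ}
    (hX : Disp μ X (Du u)) : ∀ᵐ ω ∂μ, ¬ UF (moved Nat.Prime X ω) := by
  filter_upwards [main hu hX] with ω hω h
  have h1 : 3 ≤ max 3 (u + 1) := le_max_left _ _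
  have h2 := ((hω.1 (max 3 (u + 1)) (by linarith)).2.1 (le_max_right _ _)).1
  have h3 := LL_of_UF h (a := max 3 (u + 1)) (by linarith)
  have h4 := LL_lt_one (u := max 3 (u + 1)) (by linarith)
  rw [h2] at h3
  exact absurd (lt_of_le_of_lt h3 h4) (lt_irrefl _)

end Pool.Agent.Q268.DL
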