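import Mathlib
import Pool.Agent.Q268.DL.Iff
import Pool.Agent.Q268.DP.C

/-!
The displacement function `⌊q / (log q)^B⌋` is regular and the primes satisfy the asymptotic formula in
windows of this length.
-/

set_option autoImplicit false

namespace Pool.Agent.Q268.DL

open Filter Finset MeasureTheory
open Pool.Agent.Q268.DP
open scoped Topology

theorem hlogN : Tendsto (fun q : ℕ => Real.log q) atTop atTop :=
  Real.tendsto_log_atTop.comp tendsto_natCast_atTop_atTop

theorem DB_le {B : ℝ} {q : ℕ} : (DB B q : ℝ) ≤ q / (Real.log q) ^ B :=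
  Nat.floor_le (div_nonneg (Nat.cast_nonneg q) (Real.rpow_nonneg (Real.log_natCast_nonneg q) B))

theorem DB_gt {B : ℝ} {q : ℕ} : (q : ℝ) / (Real.log q) ^ B < DB B q + 1 := Nat.lt_floor_add_one _

theorem DB_step {B : ℝ} (hB : 0 < B) : ∀ᶠ q : ℕ in atTop, DB B q ≤ DB B (q + 1) ∧ DB B (q + 1) ≤ DB B q + 1 := by
  filter_upwards [hlogN.eventually_ge_atTop (max 1 (4 * B)), eventually_ge_atTop 3] with q hl hq
  have h1 : 1 ≤ Real.log q := (le_max_left _ _).trans hl
  have h2 : 4 * B ≤ Real.log q := (le_max_right _ _).trans hl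
  have hq0 : (3 : ℝ) ≤ q := by exact_mod_cast hq
  have hl0 : 0 < Real.log q := by linarith
  have hl1 : Real.log q ≤ Real.log (q + 1 : ℕ) := Real.log_le_log (by linarith) (by push_cast; linarith)
  have hp : 0 < (Real.log q) ^ B := Real.rpow_pos_of_pos hl0 B
  have hp1 : 1 ≤ (Real.log q) ^ B := Real.one_le_rpow h1 hB.le
  have hp2 : (Real.log q) ^ B ≤ (Real.log (q + 1 : ℕ)) ^ B := Real.rpow_le_rpow hl0.le hl1 hB.le
  constructor
  · unfold DB
    apply Nat.floor_mono
    have hv : B * (((q + 1 : ℕ) : ℝ) - q) / ((q : ℝ) * Real.log q) ≤ 1 / 2 := by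
      rw [div_le_iff₀ (by positivity)]
      push_cast
      nlinarith
    have h3 := log_rpow_sub (u := B) (z := q) (y := ((q + 1 : ℕ) : ℝ)) hB.le (by linarith) (by push_cast; linarith)
      (by rw [← mul_div_assoc]; exact hv)
    rw [div_le_div_iff₀ hp (by linarith)]
    have h4 : (B * ((((q + 1 : ℕ) : ℝ) - q) / ((q : ℝ) * Real.log q))) * (q * Real.log q) = B := by
      push_cast
      field_simp
      ring
    set v := B * ((((q + 1 : ℕ) : ℝ) - q) / ((q : ℝ) * Real.log q)) with hvdef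
    have h5 : v * q ≤ 1 / 4 := by
      have h6 : v * q * Real.log q = B := by rw [← h4]; ring
      have h7 : 0 ≤ v * q := by
        by_contra hcon
        push Not at hcon
        nlinarith
      nlinarith
    calc (q : ℝ) * (Real.log (q + 1 : ℕ)) ^ B ≤ q * ((Real.log q) ^ B + 2 * v * (Real.log q) ^ B) := by gcongr
      _ = (q + 2 * (v * q)) * (Real.log q) ^ B := by ring
      _ ≤ ((q + 1 : ℕ) : ℝ) * (Real.log q) ^ B := by
        push_cast
        gcongr
        linarith
  · unfold DB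
    have h3 : ((q + 1 : ℕ) : ℝ) / (Real.log (q + 1 : ℕ)) ^ B ≤ q / (Real.log q) ^ B + 1 := by
      calc ((q + 1 : ℕ) : ℝ) / (Real.log (q + 1 : ℕ)) ^ B ≤ ((q + 1 : ℕ) : ℝ) / (Real.log q) ^ B := by gcongr
        _ = q / (Real.log q) ^ B + 1 / (Real.log q) ^ B := by
          push_cast
          ring
        _ ≤ q / (Real.log q) ^ B + 1 := by
          have : 1 / (Real.log q) ^ B ≤ 1 := by
            rw [div_le_one hp]
            exact hp1
          linarith
    calc ⌊((q + 1 : ℕ) : ℝ) / (Real.log (q + 1 : ℕ)) ^ B⌋₊ ≤ ⌊(q : ℝ) / (Real.log q) ^ B + 1⌋₊ := Nat.floor_mono h3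
      _ = ⌊(q : ℝ) / (Real.log q) ^ B⌋₊ + 1 := Nat.floor_add_one (by positivity)

theorem DB_pow (B : ℝ) (N : ℕ) : ∀ᶠ q : ℕ in atTop, Real.log q ^ N ≤ DB B q := by
  have h1 := tendsto_natCast_atTop_atTop (R := ℝ) |>.eventually (loggrow 2 (B + N) one_pos)
  filter_upwards [h1, hlogN.eventually_ge_atTop 1] with q h1 h2
  have hl0 : 0 < Real.log q := by linarith
  have hp : 0 < (Real.log q) ^ B := Real.rpow_pos_of_pos hl0 B
  rw [Real.rpow_add hl0, Real.rpow_natCast, one_mul] at h1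
  have h3 : 2 * Real.log q ^ N ≤ q / (Real.log q) ^ B := by
    rw [le_div_iff₀ hp]
    linarith
  have h4 := @DB_gt B q
  have h5 : 1 ≤ Real.log q ^ N := one_le_pow₀ h2
  linarith

theorem DB_regular {B : ℝ} (hB : 0 < B) : Regular (DB B) := by
  refine ⟨DB_step hB, DB_small hB, ?_⟩
  obtain ⟨q₀, hq₀⟩ := eventually_atTop.1 (DB_step hB)
  rw [Metric.tendsto_atTop]
  intro ε hε
  set e := min (ε / 8) (1 / 8) with he
  have he0 : 0 < e := lt_min (by positivity) (by norm_num)
  have he1 : e ≤ ε / 8 := min_le_left _ _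
  have he2 : e ≤ 1 / 8 := min_le_right _ _
  obtain ⟨M, hM⟩ := eventually_atTop.1 (((DB_small hB).eventually_le_const he0).and ((DB_pow B 1).and
    (hlogN.eventually_ge_atTop (1 / e + 1))))
  refine ⟨max M (max q₀ 3), fun q hq => ?_⟩
  obtain ⟨h1, h2, h3⟩ := hM q ((le_max_left _ _).trans hq)
  have hq3 : 3 ≤ q := ((le_max_right _ _).trans (le_max_right _ _)).trans hq
  have hqq : q₀ ≤ q := ((le_max_left _ _).trans (le_max_right _ _)).trans hq
  have h1e : 0 < 1 / e := by positivity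
  have hq0 : (0 : ℝ) < q := by exact_mod_cast (by omega : 0 < q)
  rw [div_le_iff₀ hq0] at h1
  rw [pow_one] at h2
  have hl0 : 0 < Real.log q := by linarith
  have hD1 : 1 / e ≤ DB B q := by linarith
  have hD0 : (0 : ℝ) < DB B q := by linarith
  have hDe : 1 ≤ e * DB B q := by
    rw [div_le_iff₀ he0] at hD1
    linarith
  have hmono : (DB B q : ℝ) ≤ DB B (q + DB B q) := by
    exact_mod_cast mono_from (fun q hq => (hq₀ q hq).1) hqq (Nat.le_add_right _ _)
  have hup : (DB B (q + DB B q) : ℝ) ≤ (1 + 3 * e) * DB B q := by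
    have hp : 0 < (Real.log q) ^ B := Real.rpow_pos_of_pos hl0 B
    have hl1 : Real.log q ≤ Real.log (q + DB B q : ℕ) := Real.log_le_log hq0 (by push_cast; linarith)
    have hp2 : (Real.log q) ^ B ≤ (Real.log (q + DB B q : ℕ)) ^ B := Real.rpow_le_rpow hl0.le hl1 hB.le
    calc (DB B (q + DB B q) : ℝ) ≤ ((q + DB B q : ℕ) : ℝ) / (Real.log (q + DB B q : ℕ)) ^ B := DB_le
      _ ≤ ((q + DB B q : ℕ) : ℝ) / (Real.log q) ^ B := by gcongr
      _ ≤ ((1 + e) * q) / (Real.log q) ^ B := by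
        push_cast
        gcongr
        linarith
      _ = (1 + e) * (q / (Real.log q) ^ B) := by ring
      _ ≤ (1 + e) * (DB B q + 1) := by
        have := @DB_gt B q
        gcongr
      _ ≤ (1 + e) * ((1 + e) * DB B q) := by
        gcongr
        linarith
      _ ≤ (1 + 3 * e) * DB B q := by
        have : (1 + e) * (1 + e) ≤ 1 + 3 * e := by nlinarith
        calc (1 + e) * ((1 + e) * DB B q) = ((1 + e) * (1 + e)) * DB B q := by ring
          _ ≤ _ := by gcongr
  rw [Real.dist_eq, abs_lt]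
  have r1 : 1 ≤ (DB B (q + DB B q) : ℝ) / DB B q := by
    rw [le_div_iff₀ hD0]
    linarith
  have r2 : (DB B (q + DB B q) : ℝ) / DB B q ≤ 1 + 3 * e := by
    rw [div_le_iff₀ hD0]
    exact hup
  constructor <;> linarith

theorem theta_diff2 (z y : ℕ) (h : z ≤ y) (hz : 0 < z) :
    (prs z y).card * Real.log z ≤ Chebyshev.theta (y : ℝ) - Chebyshev.theta (z : ℝ) := by
  unfold Chebyshev.theta
  rw [Nat.floor_natCast, Nat.floor_natCast]
  have h1 : (Ioc 0 z).filter Nat.Prime ⊆ (Ioc 0 y).filter Nat.Prime := by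
    apply Finset.filter_subset_filter
    exact Finset.Ioc_subset_Ioc_right h
  rw [← Finset.sum_sdiff h1, add_sub_cancel_right]
  have h2 : (Ioc 0 y).filter Nat.Prime \ (Ioc 0 z).filter Nat.Prime = prs z y := by
    ext q
    simp only [Finset.mem_sdiff, Finset.mem_filter, Finset.mem_Ioc, mem_prs]
    constructor
    · rintro ⟨⟨⟨h1, h2⟩, h3⟩, h4⟩
      refine ⟨⟨?_, h2⟩, h3⟩
      by_contra hcon
      push Not at hcon
      exact h4 ⟨⟨h1, hcon⟩, h3⟩
    · rintro ⟨⟨h1, h2⟩, h3⟩
      refine ⟨⟨⟨by omega, h2⟩, h3⟩, ?_⟩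
      rintro ⟨⟨_, h4⟩, _⟩
      omega
  rw [h2, ← nsmul_eq_mul]
  apply Finset.card_nsmul_le_sum
  intro q hq
  rw [mem_prs] at hq
  exact Real.log_le_log (by exact_mod_cast hz) (by exact_mod_cast hq.1.1.le)

/-- the prime number theorem in windows of length `q / (log q)^B` -/
theorem DB_PF {B : ℝ} (hB : 0 < B) : Tendsto (RD (DB B)) atTop (𝓝 1) := by
  obtain ⟨C, hC, hth⟩ := Pool.Agent.H442R2.EHI.PntErrAux.thetaU (⌈B⌉₊ + 1)
  have hU : B + 1 ≤ ((⌈B⌉₊ + 1 : ℕ) : ℝ) := by
    push_cast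
    linarith [Nat.le_ceil B]
  rw [Metric.tendsto_atTop]
  intro ε hε
  set e := min (ε / 64) (1 / 64) with he
  have he0 : 0 < e := lt_min (by positivity) (by norm_num)
  have he1 : e ≤ ε / 64 := min_le_left _ _
  have he2 : e ≤ 1 / 64 := min_le_right _ _
  obtain ⟨q₀, hq₀⟩ := eventually_atTop.1 (DB_step hB)
  have hshift : Tendsto (fun t : ℕ => t + DB B t) atTop atTop := tendsto_atTop_mono (fun t => Nat.le_add_right _ _) tendsto_id
  have f2 := hshift.eventually (hlogN.eventually (err_small (t := e) hB hC he0 (⌈B⌉₊ + 1) hU))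
  obtain ⟨M, hM⟩ := eventually_atTop.1 (f2.and (((DB_small hB).eventually_le_const he0).and ((DB_pow B 1).and
    ((hlogN.eventually_ge_atTop (2 / e + 2)).and (log_ratio_le he0)))))
  refine ⟨max M (max q₀ 3), fun t ht => ?_⟩
  obtain ⟨f2, h1, h2, h3, h4⟩ := hM t ((le_max_left _ _).trans ht)
  have ht3 : 3 ≤ t := ((le_max_right _ _).trans (le_max_right _ _)).trans ht
  have h2e : 0 < 2 / e := by positivity
  have ht0 : (0 : ℝ) < t := by exact_mod_cast (by omega : 0 < t)
  rw [div_le_iff₀ ht0] at h1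
  rw [pow_one] at h2
  have hl0 : 0 < Real.log t := by linarith
  set D := DB B t with hD
  have hDbig : 2 / e ≤ (D : ℝ) := by linarith
  have hD0 : (0 : ℝ) < D := by linarith
  have hDe : 2 ≤ e * D := by
    rw [div_le_iff₀ he0] at hDbig
    linarith
  have hDt : (D : ℝ) ≤ t := by nlinarith
  have hDt' : D ≤ t := by exact_mod_cast hDt
  obtain ⟨l1, l2⟩ := h4 (t + D) (Nat.le_add_right _ _) (by omega)
  set y : ℝ := ((t + D : ℕ) : ℝ) with hy
  have hyt : y = t + D := by rw [hy]; push_cast; rfl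
  have hy0 : 0 < y := by linarith
  have hpB : 0 < (Real.log t) ^ B := Real.rpow_pos_of_pos hl0 B
  have hM1 : y / (Real.log y) ^ B ≤ 2 * D := by
    have hp2 : (Real.log t) ^ B ≤ (Real.log y) ^ B := Real.rpow_le_rpow hl0.le l1 hB.le
    calc y / (Real.log y) ^ B ≤ y / (Real.log t) ^ B := by gcongr
      _ ≤ ((1 + e) * t) / (Real.log t) ^ B := by
        gcongr
        linarith
      _ = (1 + e) * (t / (Real.log t) ^ B) := by ring
      _ ≤ (1 + e) * (D + 1) := by
        have := @DB_gt B t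
        gcongr
      _ ≤ 2 * D := by nlinarith
  have g1 := f2 y y hy0 rfl (by linarith) le_rfl
  have g2 := f2 y t hy0 rfl (by linarith) (by linarith)
  have h5 := hth (t + D) (by omega)
  have h6 := hth t (by omega)
  rw [← hy] at h5
  rw [abs_le] at h5 h6
  have herr : e * (y / (Real.log y) ^ B) ≤ 2 * (e * D) := by
    calc e * (y / (Real.log y) ^ B) ≤ e * (2 * D) := by gcongr
      _ = _ := by ring
  have k1 := theta_diff t (t + D) (Nat.le_add_right _ _)
  have k2 := theta_diff2 t (t + D) (Nat.le_add_right _ _) (by omega)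
  rw [← hy] at k1 k2
  have hcard : (cw PP t D : ℝ) = (prs t (t + D)).card := by
    rw [cw_PP]
    rfl
  rw [← hcard] at k1 k2
  set c := (cw PP t D : ℝ) with hc
  have hc0 : 0 ≤ c := Nat.cast_nonneg _
  have m1 : c * Real.log t ≤ (1 + 4 * e) * D := by linarith [h5.1, h5.2, h6.1, h6.2]
  have m2 : (1 - 4 * e) * D ≤ (1 + e) * (c * Real.log t) := by
    have : c * Real.log y ≤ c * ((1 + e) * Real.log t) := by gcongr
    have h7 : c * ((1 + e) * Real.log t) = (1 + e) * (c * Real.log t) := by ring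
    linarith [h5.1, h5.2, h6.1, h6.2]
  have e1 : RD (DB B) t = c * Real.log t / D := by
    unfold RD
    rw [← hD, ← hc]
    field_simp
  rw [e1, Real.dist_eq, abs_lt]
  have m3 : c * Real.log t / D ≤ 1 + 4 * e := by
    rw [div_le_iff₀ hD0]
    exact m1
  have m4 : 1 - 6 * e ≤ c * Real.log t / D := by
    rw [le_div_iff₀ hD0]
    have h8 : e * (c * Real.log t) ≤ e * ((1 + 4 * e) * D) := mul_le_mul_of_nonneg_left m1 he0.le
    have h9 : e * ((1 + 4 * e) * D) ≤ e * (2 * D) := by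
      have : 1 + 4 * e ≤ 2 := by linarith
      gcongr
    linarith
  constructor <;> linarith

end Pool.Agent.Q268.DL
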