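import Mathlib
import Pool.Agent.Q268.DL.ExB
import Pool.Agent.Q268.DP.D

/-!
Displacements of size `q^θ`, `0 < θ < 1`, are regular.
-/

set_option autoImplicit false

namespace Pool.Agent.Q268.DL

open Filter Finset MeasureTheory
open Pool.Agent.Q268.DP
open scoped Topology

theorem Dθ_step {θ : ℝ} (h0 : 0 < θ) (h1 : θ < 1) : ∀ q : ℕ, Dθ θ q ≤ Dθ θ (q + 1) ∧ Dθ θ (q + 1) ≤ Dθ θ q + 1 := by
  intro q
  have hq : (0 : ℝ) ≤ q := Nat.cast_nonneg q
  constructor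
  · unfold Dθ
    apply Nat.floor_mono
    exact Real.rpow_le_rpow hq (by push_cast; linarith) h0.le
  · unfold Dθ
    have h3 : ((q + 1 : ℕ) : ℝ) ^ θ ≤ (q : ℝ) ^ θ + 1 := by
      have := Real.rpow_add_le_add_rpow hq (zero_le_one' ℝ) h0.le h1.le
      rw [Real.one_rpow] at this
      push_cast
      exact this
    calc ⌊((q + 1 : ℕ) : ℝ) ^ θ⌋₊ ≤ ⌊(q : ℝ) ^ θ + 1⌋₊ := Nat.floor_mono h3
      _ = ⌊(q : ℝ) ^ θ⌋₊ + 1 := Nat.floor_add_one (Real.rpow_nonneg hq θ)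

theorem Dθ_pow {θ : ℝ} (h0 : 0 < θ) (N : ℕ) : ∀ᶠ q : ℕ in atTop, Real.log q ^ N ≤ Dθ θ q := by
  have h1 := ((tendsto_rpow_atTop h0).comp (tendsto_natCast_atTop_atTop (R := ℝ))).eventually
    (loggrow (2 / θ ^ N) N one_pos)
  filter_upwards [h1, hlogN.eventually_ge_atTop 1, eventually_gt_atTop 0] with q h1 h2 h3
  have hq : (0 : ℝ) < q := by exact_mod_cast h3
  simp only [Function.comp_apply] at h1
  rw [Real.log_rpow hq, Real.rpow_natCast, mul_pow, one_mul] at h1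
  have h4 : 2 * Real.log q ^ N ≤ (q : ℝ) ^ θ := by
    refine le_trans (le_of_eq ?_) h1
    field_simp
  have h5 : (q : ℝ) ^ θ < Dθ θ q + 1 := Nat.lt_floor_add_one _
  have h6 : 1 ≤ Real.log q ^ N := one_le_pow₀ h2
  linarith

theorem Dθ_regular {θ : ℝ} (h0 : 0 < θ) (h1' : θ < 1) : Regular (Dθ θ) := by
  refine ⟨Eventually.of_forall (Dθ_step h0 h1'), Dθ_small h1', ?_⟩
  rw [Metric.tendsto_atTop]
  intro ε hε
  set e := min (ε / 8) (1 / 8) with he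
  have he0 : 0 < e := lt_min (by positivity) (by norm_num)
  have he1 : e ≤ ε / 8 := min_le_left _ _
  have he2 : e ≤ 1 / 8 := min_le_right _ _
  obtain ⟨M, hM⟩ := eventually_atTop.1 (((Dθ_small h1').eventually_le_const he0).and ((Dθ_pow h0 1).and
    (hlogN.eventually_ge_atTop (1 / e + 1))))
  refine ⟨max M 3, fun q hq => ?_⟩
  obtain ⟨h1, h2, h3⟩ := hM q ((le_max_left _ _).trans hq)
  have hq3 : 3 ≤ q := (le_max_right _ _).trans hq
  have h1e : 0 < 1 / e := by positivity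
  have hq0 : (0 : ℝ) < q := by exact_mod_cast (by omega : 0 < q)
  rw [div_le_iff₀ hq0] at h1
  rw [pow_one] at h2
  have hD1 : 1 / e ≤ Dθ θ q := by linarith
  have hD0 : (0 : ℝ) < Dθ θ q := by linarith
  have hDe : 1 ≤ e * Dθ θ q := by
    rw [div_le_iff₀ he0] at hD1
    linarith
  have hmono : (Dθ θ q : ℝ) ≤ Dθ θ (q + Dθ θ q) := by
    exact_mod_cast mono_from (D := Dθ θ) (q₀ := 0) (fun q _ => (Dθ_step h0 h1' q).1) (Nat.zero_le _)
      (Nat.le_add_right _ _)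
  have hup : (Dθ θ (q + Dθ θ q) : ℝ) ≤ (1 + 3 * e) * Dθ θ q := by
    have hlt : (q : ℝ) ^ θ < Dθ θ q + 1 := Nat.lt_floor_add_one _
    have h5 : (1 + e) ^ θ ≤ 1 + e := by
      calc (1 + e) ^ θ ≤ (1 + e) ^ (1 : ℝ) := Real.rpow_le_rpow_of_exponent_le (by linarith) h1'.le
        _ = 1 + e := Real.rpow_one _
    calc (Dθ θ (q + Dθ θ q) : ℝ) ≤ ((q + Dθ θ q : ℕ) : ℝ) ^ θ := Nat.floor_le (by positivity)
      _ ≤ ((1 + e) * q) ^ θ := by
        apply Real.rpow_le_rpow (by positivity) _ h0.le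
        push_cast
        linarith
      _ = (1 + e) ^ θ * (q : ℝ) ^ θ := Real.mul_rpow (by linarith) hq0.le
      _ ≤ (1 + e) * (Dθ θ q + 1) := by gcongr
      _ ≤ (1 + e) * ((1 + e) * Dθ θ q) := by
        gcongr
        linarith
      _ ≤ (1 + 3 * e) * Dθ θ q := by
        have : (1 + e) * (1 + e) ≤ 1 + 3 * e := by nlinarith
        calc (1 + e) * ((1 + e) * Dθ θ q) = ((1 + e) * (1 + e)) * Dθ θ q := by ring
          _ ≤ _ := by gcongr
  rw [Real.dist_eq, abs_lt]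
  have r1 : 1 ≤ (Dθ θ (q + Dθ θ q) : ℝ) / Dθ θ q := by
    rw [le_div_iff₀ hD0]
    linarith
  have r2 : (Dθ θ (q + Dθ θ q) : ℝ) / Dθ θ q ≤ 1 + 3 * e := by
    rw [div_le_iff₀ hD0]
    exact hup
  constructor <;> linarith

end Pool.Agent.Q268.DL
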