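import Mathlib
import Pool.Agent.Q268.DL.ExB

/-!
If the uniform asymptotic formula fails for the primes then it fails in windows of length `D`, for some
regular `D` larger than all powers of the logarithm.
-/

set_option autoImplicit false

namespace Pool.Agent.Q268.DL

open Filter Finset MeasureTheory
open Pool.Agent.Q268.DP
open scoped Topology

/-- the prime number theorem in windows of length proportional to `n` -/
theorem pnt_long {δ e : ℝ} (hδ : 0 < δ) (he : 0 < e) : ∀ᶠ n : ℕ in atTop, ∀ h : ℕ, δ * n ≤ h → h ≤ 3 * n →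
    |(cw PP n h : ℝ) / (h / Real.log n) - 1| ≤ e := by
  obtain ⟨C, hC, hth⟩ := Pool.Agent.H442R2.EHI.PntErrAux.thetaU 1
  set e' := min (e / 4) (1 / 4) with he'
  have he0 : 0 < e' := lt_min (by positivity) (by norm_num)
  have he1 : e' ≤ e / 4 := min_le_left _ _
  have he2 : e' ≤ 1 / 4 := min_le_right _ _
  filter_upwards [eventually_ge_atTop 3, hlogN.eventually_ge_atTop (8 * C / (δ * e') + 1), log_ratio_le he0]
    with n hn3 hl hlr h h1 h2
  have hn0 : (0 : ℝ) < n := by exact_mod_cast (by omega : 0 < n)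
  have hCd : 0 < 8 * C / (δ * e') := by positivity
  have hl0 : 0 < Real.log n := by linarith
  have hh0 : (0 : ℝ) < h := lt_of_lt_of_le (by positivity) h1
  obtain ⟨l1, l2⟩ := hlr (n + h) (Nat.le_add_right _ _) (by omega)
  have a1 := hth (n + h) (by omega)
  have a2 := hth n (by omega)
  rw [pow_one] at a1 a2
  have k1 := theta_diff n (n + h) (Nat.le_add_right _ _)
  have k2 := theta_diff2 n (n + h) (Nat.le_add_right _ _) (by omega)
  have hcard : (cw PP n h : ℝ) = (prs n (n + h)).card := by
    rw [cw_PP]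
    rfl
  rw [← hcard] at k1 k2
  set c := (cw PP n h : ℝ) with hc
  have hc0 : 0 ≤ c := Nat.cast_nonneg _
  have herr : C * (n / Real.log n) ≤ e' / 8 * h := by
    have h3 : 8 * C ≤ (δ * e') * Real.log n := by
      have : 8 * C / (δ * e') ≤ Real.log n := by linarith
      rw [div_le_iff₀ (by positivity)] at this
      linarith
    rw [← mul_div_assoc, div_le_iff₀ hl0]
    have h4 : e' / 8 * (δ * n) ≤ e' / 8 * h := by gcongr
    nlinarith
  have herr2 : C * (((n + h : ℕ) : ℝ) / Real.log (n + h : ℕ)) ≤ e' / 2 * h := by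
    have h3 : ((n + h : ℕ) : ℝ) ≤ 4 * n := by
      have : n + h ≤ 4 * n := by omega
      exact_mod_cast this
    calc C * (((n + h : ℕ) : ℝ) / Real.log (n + h : ℕ)) ≤ C * ((4 * n) / Real.log n) := by gcongr
      _ = 4 * (C * (n / Real.log n)) := by ring
      _ ≤ 4 * (e' / 8 * h) := by gcongr
      _ = _ := by ring
  have hcast : ((n + h : ℕ) : ℝ) = n + h := by push_cast; rfl
  rw [abs_le] at a1 a2
  have m1 : c * Real.log n ≤ (1 + e') * h := by
    have : 0 ≤ e' * h := by positivity
    linarith [a1.2, a2.1]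
  have m2 : (1 - e') * h ≤ (1 + e') * (c * Real.log n) := by
    have h3 : c * Real.log (n + h : ℕ) ≤ c * ((1 + e') * Real.log n) := by gcongr
    have h7 : c * ((1 + e') * Real.log n) = (1 + e') * (c * Real.log n) := by ring
    have : 0 ≤ e' * h := by positivity
    linarith [a1.1, a2.2]
  have e1 : c / (h / Real.log n) = c * Real.log n / h := by
    field_simp
  rw [e1, abs_le]
  have m3 : c * Real.log n / h ≤ 1 + e' := by
    rw [div_le_iff₀ hh0]
    exact m1
  have m4 : 1 - 3 * e' ≤ c * Real.log n / h := by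
    rw [le_div_iff₀ hh0]
    have h8 : e' * (c * Real.log n) ≤ e' * ((1 + e') * h) := mul_le_mul_of_nonneg_left m1 he0.le
    have h9 : e' * ((1 + e') * h) ≤ e' * (2 * h) := by
      have : 1 + e' ≤ 2 := by linarith
      gcongr
    linarith
  constructor <;> linarith

/-- `(log q + j)^j / q` is nonincreasing -/
theorem log_add_pow (j : ℕ) {q q' : ℝ} (hq : 1 ≤ q) (hqq : q ≤ q') :
    q * (Real.log q' + j) ^ j ≤ q' * (Real.log q + j) ^ j := by
  rcases Nat.eq_zero_or_pos j with h0 | h0
  · subst h0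
    simpa using hqq
  have hq0 : 0 < q := by linarith
  have hq0' : 0 < q' := by linarith
  have hj : (0 : ℝ) < j := by exact_mod_cast h0
  have hl : 0 ≤ Real.log q := Real.log_nonneg hq
  have hl' : 0 ≤ Real.log q' := Real.log_nonneg (by linarith)
  have h1 : (Real.log q' + j) ≤ (Real.log q + j) * Real.exp ((Real.log q' - Real.log q) / j) := by
    have h2 := Real.add_one_le_exp ((Real.log q' - Real.log q) / j)
    have h3 : 0 ≤ Real.log q' - Real.log q := by
      have := Real.log_le_log hq0 hqq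
      linarith
    have h4 : (Real.log q + j) * ((Real.log q' - Real.log q) / j + 1) ≤
        (Real.log q + j) * Real.exp ((Real.log q' - Real.log q) / j) := by gcongr
    refine le_trans ?_ h4
    have h5 : (Real.log q + j) * ((Real.log q' - Real.log q) / j + 1) =
        Real.log q' + j + Real.log q * ((Real.log q' - Real.log q) / j) := by
      field_simp
      ring
    rw [h5]
    have : 0 ≤ Real.log q * ((Real.log q' - Real.log q) / j) := by positivity
    linarith
  have h6 : (Real.log q' + j) ^ j ≤ ((Real.log q + j) * Real.exp ((Real.log q' - Real.log q) / j)) ^ j :=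
    pow_le_pow_left₀ (by linarith) h1 j
  have h7 : (Real.exp ((Real.log q' - Real.log q) / j)) ^ j = q' / q := by
    rw [← Real.exp_nat_mul]
    have : (j : ℝ) * ((Real.log q' - Real.log q) / j) = Real.log q' - Real.log q := by field_simp
    rw [this, Real.exp_sub, Real.exp_log hq0', Real.exp_log hq0]
  rw [mul_pow, h7] at h6
  calc q * (Real.log q' + j) ^ j ≤ q * ((Real.log q + j) ^ j * (q' / q)) := by gcongr
    _ = _ := by field_simp

theorem min_quasi {q q' a a' r : ℝ} (hq : 0 < q) (hqq : q ≤ q') (h : q * a' ≤ q' * a) :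
    q * min a' (q' * r) ≤ q' * min a (q * r) := by
  have hq' : 0 < q' := by linarith
  rw [mul_min_of_nonneg _ _ hq'.le]
  apply le_min
  · exact (mul_le_mul_of_nonneg_left (min_le_left _ _) hq.le).trans h
  · calc q * min a' (q' * r) ≤ q * (q' * r) := mul_le_mul_of_nonneg_left (min_le_right _ _) hq.le
      _ = q' * (q * r) := by ring

/-- the data of the construction -/
structure Seq (n h : ℕ → ℕ) : Prop where
  big : ∀ j : ℕ, (j : ℝ) + 2 ≤ Real.log (n j)
  high : ∀ j : ℕ, Real.log (n j) ^ (2 * j + 2) ≤ h j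
  small : ∀ j : ℕ, (h j : ℝ) ≤ n j / ((j : ℝ) + 1)
  dec : ∀ j : ℕ, (h (j + 1) : ℝ) / n (j + 1) ≤ h j / n j
  inc : ∀ j : ℕ, h j ≤ h (j + 1)

variable {n h : ℕ → ℕ}

/-- the pieces -/
noncomputable def fj (n h : ℕ → ℕ) (j : ℕ) (q : ℝ) : ℝ :=
  max (min (h j : ℝ) (q * ((h j : ℝ) / n j))) (min ((Real.log q + j) ^ j) (q * ((h (j - 1) : ℝ) / n (j - 1))))

/-- the interpolation -/
noncomputable def FF (n h : ℕ → ℕ) (q : ℝ) : ℝ := ⨆ j, fj n h j q

theorem Seq.ratio_nonneg (j : ℕ) : 0 ≤ (h j : ℝ) / n j := by positivity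

theorem Seq.anti (H : Seq n h) {i j : ℕ} (hij : i ≤ j) : (h j : ℝ) / n j ≤ h i / n i := by
  induction j, hij using Nat.le_induction with
  | base => exact le_rfl
  | succ j _ ih => exact (H.dec j).trans ih

theorem Seq.mono (H : Seq n h) {i j : ℕ} (hij : i ≤ j) : h i ≤ h j := by
  induction j, hij using Nat.le_induction with
  | base => exact le_rfl
  | succ j _ ih => exact ih.trans (H.inc j)

theorem Seq.npos (H : Seq n h) (j : ℕ) : (0 : ℝ) < n j := by
  have h1 := H.big j
  rcases Nat.eq_zero_or_pos (n j) with h0 | h0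
  · rw [h0] at h1
    simp at h1
    have : (0 : ℝ) ≤ j := Nat.cast_nonneg j
    linarith
  · exact_mod_cast h0

theorem Seq.ratio_le (H : Seq n h) (j : ℕ) : (h j : ℝ) / n j ≤ 1 / ((j : ℝ) + 1) := by
  rw [div_le_iff₀ (H.npos j)]
  have := H.small j
  calc (h j : ℝ) ≤ n j / ((j : ℝ) + 1) := this
    _ = _ := by ring

theorem fj_le (H : Seq n h) (j : ℕ) {q : ℝ} (hq : 0 ≤ q) : fj n h j q ≤ q * ((h (j - 1) : ℝ) / n (j - 1)) := by
  unfold fj
  apply max_le
  · refine (min_le_right _ _).trans ?_
    have := H.anti (Nat.sub_le j 1)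
    gcongr
  · exact min_le_right _ _

theorem fj_nonneg (j : ℕ) {q : ℝ} (hq : 0 ≤ q) : 0 ≤ fj n h j q := by
  unfold fj
  refine le_max_of_le_left ?_
  apply le_min (Nat.cast_nonneg _)
  positivity

theorem fj_bdd (H : Seq n h) {q : ℝ} (hq : 0 ≤ q) : BddAbove (Set.range fun j => fj n h j q) := by
  refine ⟨q, ?_⟩
  rintro _ ⟨j, rfl⟩
  refine (fj_le H j hq).trans ?_
  have h1 := H.ratio_le (j - 1)
  have h2 : 1 / (((j - 1 : ℕ) : ℝ) + 1) ≤ 1 := by
    rw [div_le_one (by positivity)]
    have : (0 : ℝ) ≤ ((j - 1 : ℕ) : ℝ) := Nat.cast_nonneg _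
    linarith
  calc q * ((h (j - 1) : ℝ) / n (j - 1)) ≤ q * 1 := by
        gcongr
        exact h1.trans h2
    _ = q := mul_one q

theorem FF_le_self (H : Seq n h) {q : ℝ} (hq : 0 ≤ q) : FF n h q ≤ q := by
  apply ciSup_le
  intro j
  have h1 := H.ratio_le (j - 1)
  have h2 : 1 / (((j - 1 : ℕ) : ℝ) + 1) ≤ 1 := by
    rw [div_le_one (by positivity)]
    have : (0 : ℝ) ≤ ((j - 1 : ℕ) : ℝ) := Nat.cast_nonneg _
    linarith
  refine (fj_le H j hq).trans ?_
  calc q * ((h (j - 1) : ℝ) / n (j - 1)) ≤ q * 1 := by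
        gcongr
        exact h1.trans h2
    _ = q := mul_one q

theorem fj_mono (j : ℕ) {q q' : ℝ} (hq : 1 ≤ q) (hqq : q ≤ q') : fj n h j q ≤ fj n h j q' := by
  unfold fj
  have h1 : Real.log q ≤ Real.log q' := Real.log_le_log (by linarith) hqq
  have h2 : 0 ≤ Real.log q := Real.log_nonneg hq
  have h3 : (Real.log q + j) ^ j ≤ (Real.log q' + j) ^ j := by gcongr
  have h4 : q * ((h j : ℝ) / n j) ≤ q' * ((h j : ℝ) / n j) := by gcongr
  have h5 : q * ((h (j - 1) : ℝ) / n (j - 1)) ≤ q' * ((h (j - 1) : ℝ) / n (j - 1)) := by gcongr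
  exact max_le_max (min_le_min le_rfl h4) (min_le_min h3 h5)

theorem fj_quasi (j : ℕ) {q q' : ℝ} (hq : 1 ≤ q) (hqq : q ≤ q') : q * fj n h j q' ≤ q' * fj n h j q := by
  unfold fj
  have hq0 : 0 < q := by linarith
  have hq0' : 0 < q' := by linarith
  rw [mul_max_of_nonneg _ _ hq0.le, mul_max_of_nonneg _ _ hq0'.le]
  apply max_le_max
  · apply min_quasi hq0 hqq
    gcongr
  · exact min_quasi hq0 hqq (log_add_pow j hq hqq)

theorem FF_mono (H : Seq n h) {q q' : ℝ} (hq : 1 ≤ q) (hqq : q ≤ q') : FF n h q ≤ FF n h q' :=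
  ciSup_mono (fj_bdd H (by linarith)) fun j => fj_mono j hq hqq

theorem FF_nonneg (q : ℝ) (hq : 0 ≤ q) : 0 ≤ FF n h q := Real.iSup_nonneg fun j => fj_nonneg j hq

theorem FF_quasi (H : Seq n h) {q q' : ℝ} (hq : 1 ≤ q) (hqq : q ≤ q') : FF n h q' ≤ q' / q * FF n h q := by
  have hq0 : 0 < q := by linarith
  have hq0' : 0 < q' := by linarith
  apply ciSup_le
  intro j
  have h1 := fj_quasi (n := n) (h := h) j hq hqq
  have h2 : fj n h j q ≤ FF n h q := le_ciSup (fj_bdd H hq0.le) j
  calc fj n h j q' ≤ q' / q * fj n h j q := by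
        rw [div_mul_eq_mul_div, le_div_iff₀ hq0]
        linarith
    _ ≤ q' / q * FF n h q := by gcongr

theorem FF_at (H : Seq n h) (i : ℕ) : FF n h (n i) = h i := by
  have hn := H.npos i
  apply le_antisymm
  · apply ciSup_le
    intro j
    unfold fj
    apply max_le
    · rcases le_total j i with hji | hij
      · refine (min_le_left _ _).trans ?_
        exact_mod_cast H.mono hji
      · refine (min_le_right _ _).trans ?_
        calc (n i : ℝ) * ((h j : ℝ) / n j) ≤ n i * ((h i : ℝ) / n i) := by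
              gcongr ?_ * ?_
              exact H.anti hij
          _ = h i := by field_simp
    · rcases le_or_gt j i with hji | hij
      · refine (min_le_left _ _).trans ?_
        have h1 := H.big i
        have hi0 : (0 : ℝ) ≤ i := Nat.cast_nonneg i
        have hji' : (j : ℝ) ≤ i := by exact_mod_cast hji
        have hj0 : (0 : ℝ) ≤ j := Nat.cast_nonneg j
        calc (Real.log (n i) + j) ^ j ≤ (Real.log (n i) + i) ^ j := by gcongr
          _ ≤ (Real.log (n i) + i) ^ i := pow_le_pow_right₀ (by linarith) hji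
          _ ≤ (Real.log (n i) ^ 2) ^ i := by
            apply pow_le_pow_left₀ (by linarith)
            nlinarith
          _ = Real.log (n i) ^ (2 * i) := by rw [← pow_mul]
          _ ≤ Real.log (n i) ^ (2 * i + 2) := pow_le_pow_right₀ (by linarith) (by omega)
          _ ≤ h i := H.high i
      · refine (min_le_right _ _).trans ?_
        calc (n i : ℝ) * ((h (j - 1) : ℝ) / n (j - 1)) ≤ n i * ((h i : ℝ) / n i) := by
              gcongr ?_ * ?_
              exact H.anti (by omega)
          _ = h i := by field_simp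
  · refine le_trans ?_ (le_ciSup (fj_bdd H hn.le) i)
    unfold fj
    refine le_max_of_le_left (le_min le_rfl ?_)
    apply le_of_eq
    field_simp

/-- the displacement function -/
noncomputable def DF (n h : ℕ → ℕ) (q : ℕ) : ℕ := ⌊FF n h q⌋₊

theorem DF_at (H : Seq n h) (i : ℕ) : DF n h (n i) = h i := by
  unfold DF
  rw [FF_at H, Nat.floor_natCast]

theorem DF_pow (H : Seq n h) (N : ℕ) : ∀ᶠ q : ℕ in atTop, Real.log q ^ N ≤ DF n h q := by
  have hρ : 0 < (h N : ℝ) / n N := by
    have h1 := H.high N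
    have h2 := H.big N
    have h3 : 0 < Real.log (n N) := by
      have : (0 : ℝ) ≤ N := Nat.cast_nonneg N
      linarith
    have h4 : (0 : ℝ) < h N := lt_of_lt_of_le (by positivity) h1
    have := H.npos N
    positivity
  have g1 := tendsto_natCast_atTop_atTop (R := ℝ) |>.eventually (loggrow 2 N hρ)
  filter_upwards [g1, hlogN.eventually_ge_atTop 2, eventually_ge_atTop 1] with q g1 g2 g3
  rw [Real.rpow_natCast] at g1
  have hp : 1 ≤ Real.log q ^ N := one_le_pow₀ (by linarith)
  have h1 : 2 * Real.log q ^ N ≤ FF n h q := by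
    refine le_trans ?_ (le_ciSup (fj_bdd H (Nat.cast_nonneg q)) (N + 1))
    unfold fj
    refine le_max_of_le_right (le_min ?_ ?_)
    · calc 2 * Real.log q ^ N ≤ Real.log q * Real.log q ^ N := by gcongr
        _ = Real.log q ^ (N + 1) := by ring
        _ ≤ (Real.log q + (N + 1 : ℕ)) ^ (N + 1) := by
          apply pow_le_pow_left₀ (by linarith)
          have : (0 : ℝ) ≤ ((N + 1 : ℕ) : ℝ) := Nat.cast_nonneg _
          linarith
    · rw [Nat.add_sub_cancel]
      linarith
  have h2 := Nat.lt_floor_add_one (FF n h q)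
  have h3 : (DF n h q : ℝ) = ⌊FF n h q⌋₊ := rfl
  rw [h3]
  linarith

theorem FF_small (H : Seq n h) : Tendsto (fun q : ℕ => FF n h q / q) atTop (𝓝 0) := by
  rw [Metric.tendsto_atTop]
  intro ε hε
  obtain ⟨J, hJ⟩ := exists_nat_one_div_lt (show 0 < ε / 2 by positivity)
  -- finitely many pieces are small
  have h1 : ∀ᶠ q : ℕ in atTop, ∀ j ∈ range (J + 1), fj n h j q ≤ ε / 2 * q := by
    rw [Filter.eventually_all_finset]
    intro j _
    have g1 := tendsto_natCast_atTop_atTop (R := ℝ) |>.eventually (loggrow (2 ^ j) j (ε := ε / 2) (by positivity))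
    filter_upwards [g1, hlogN.eventually_ge_atTop (max 1 j),
      (tendsto_natCast_atTop_atTop (R := ℝ)).eventually_ge_atTop (h j / (ε / 2))] with q g1 g2 g3
    rw [Real.rpow_natCast] at g1
    unfold fj
    apply max_le
    · refine (min_le_left _ _).trans ?_
      rw [div_le_iff₀ (by positivity)] at g3
      linarith
    · refine (min_le_left _ _).trans ?_
      refine le_trans ?_ g1
      rw [← mul_pow]
      have h2 : (j : ℝ) ≤ Real.log q := (le_max_right _ _).trans g2
      have h3 : 1 ≤ Real.log q := (le_max_left _ _).trans g2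
      have h4 : (0 : ℝ) ≤ j := Nat.cast_nonneg j
      apply pow_le_pow_left₀ (by linarith)
      linarith
  obtain ⟨M, hM⟩ := eventually_atTop.1 h1
  refine ⟨max M 1, fun q hq => ?_⟩
  have hq0 : (0 : ℝ) < q := by
    have : 0 < q := by omega
    exact_mod_cast this
  rw [Real.dist_eq, sub_zero, abs_of_nonneg (div_nonneg (FF_nonneg _ hq0.le) hq0.le), div_lt_iff₀ hq0]
  have h2 : FF n h q ≤ ε / 2 * q := by
    apply ciSup_le
    intro j
    rcases lt_or_ge j (J + 1) with hj | hj
    · exact hM q (by omega) j (Finset.mem_range.2 hj)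
    · refine (fj_le H j hq0.le).trans ?_
      have h3 := H.ratio_le (j - 1)
      have h4 : 1 / (((j - 1 : ℕ) : ℝ) + 1) ≤ 1 / ((J : ℝ) + 1) := by
        apply one_div_le_one_div_of_le (by positivity)
        have : (J : ℝ) ≤ ((j - 1 : ℕ) : ℝ) := by
          have : J ≤ j - 1 := by omega
          exact_mod_cast this
        linarith
      calc (q : ℝ) * ((h (j - 1) : ℝ) / n (j - 1)) ≤ q * (ε / 2) :=
            mul_le_mul_of_nonneg_left (by linarith) hq0.le
        _ = _ := by ring
  nlinarith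

theorem DF_regular (H : Seq n h) : Regular (DF n h) := by
  have hle : ∀ q : ℕ, (DF n h q : ℝ) ≤ FF n h q := fun q => Nat.floor_le (FF_nonneg _ (Nat.cast_nonneg q))
  have hgt : ∀ q : ℕ, FF n h q < DF n h q + 1 := fun q => Nat.lt_floor_add_one _
  have hsmall : Tendsto (fun q : ℕ => (DF n h q : ℝ) / q) atTop (𝓝 0) := by
    refine squeeze_zero (fun q => by positivity) (fun q => ?_) (FF_small H)
    exact div_le_div_of_nonneg_right (hle q) (Nat.cast_nonneg q)
  have hquasi : ∀ q k : ℕ, 1 ≤ q → FF n h ((q + k : ℕ) : ℝ) ≤ FF n h q + k / q * FF n h q := by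
    intro q k hq
    have hq1 : (1 : ℝ) ≤ q := by exact_mod_cast hq
    have h1 := FF_quasi H hq1 (show (q : ℝ) ≤ ((q + k : ℕ) : ℝ) by push_cast; linarith [(Nat.cast_nonneg k : (0:ℝ) ≤ k)])
    refine h1.trans (le_of_eq ?_)
    push_cast
    field_simp
  refine ⟨?_, hsmall, ?_⟩
  · filter_upwards [eventually_ge_atTop 1] with q hq
    have hq1 : (1 : ℝ) ≤ q := by exact_mod_cast hq
    constructor
    · unfold DF
      apply Nat.floor_mono
      apply FF_mono H hq1
      push_cast
      linarith
    · have h1 := hquasi q 1 hq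
      have h2 : ((1 : ℕ) : ℝ) / q * FF n h q ≤ 1 := by
        have h3 := FF_le_self H (q := (q : ℝ)) (by linarith)
        push_cast
        rw [one_div, inv_mul_le_iff₀ (by linarith), mul_one]
        exact h3
      unfold DF
      calc ⌊FF n h ((q + 1 : ℕ) : ℝ)⌋₊ ≤ ⌊FF n h q + 1⌋₊ := Nat.floor_mono (by linarith)
        _ = ⌊FF n h q⌋₊ + 1 := Nat.floor_add_one (FF_nonneg _ (by linarith))
  · rw [Metric.tendsto_atTop]
    intro ε hε
    set e := min (ε / 8) (1 / 8) with he
    have he0 : 0 < e := lt_min (by positivity) (by norm_num)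
    have he1 : e ≤ ε / 8 := min_le_left _ _
    have he2 : e ≤ 1 / 8 := min_le_right _ _
    obtain ⟨M, hM⟩ := eventually_atTop.1 ((hsmall.eventually_le_const he0).and ((DF_pow H 1).and
      (hlogN.eventually_ge_atTop (1 / e + 1))))
    refine ⟨max M 3, fun q hq => ?_⟩
    obtain ⟨h1, h2, h3⟩ := hM q ((le_max_left _ _).trans hq)
    have hq3 : 3 ≤ q := (le_max_right _ _).trans hq
    have hq0 : (0 : ℝ) < q := by exact_mod_cast (by omega : 0 < q)
    rw [pow_one] at h2
    have h1e : 0 < 1 / e := by positivity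
    have hD0 : (0 : ℝ) < DF n h q := by linarith
    have hDe : 1 ≤ e * DF n h q := by
      have : 1 / e ≤ DF n h q := by linarith
      rw [div_le_iff₀ he0] at this
      linarith
    have hmono : (DF n h q : ℝ) ≤ DF n h (q + DF n h q) := by
      have : DF n h q ≤ DF n h (q + DF n h q) := by
        unfold DF
        apply Nat.floor_mono
        apply FF_mono H (by exact_mod_cast (by omega : 1 ≤ q))
        push_cast
        linarith [(Nat.cast_nonneg ⌊FF n h q⌋₊ : (0:ℝ) ≤ ⌊FF n h q⌋₊)]
      exact_mod_cast this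
    have hup : (DF n h (q + DF n h q) : ℝ) ≤ (1 + 3 * e) * DF n h q := by
      have h4 := hquasi q (DF n h q) (by omega)
      have h5 := hle (q + DF n h q)
      have h6 : (DF n h q : ℝ) / q * FF n h q ≤ e * FF n h q :=
        mul_le_mul_of_nonneg_right h1 (FF_nonneg _ hq0.le)
      have h7 := hgt q
      have h8 : (1 + e) * FF n h q ≤ (1 + e) * (DF n h q + 1) := by gcongr
      have h9 : e * (DF n h q : ℝ) * e ≤ e * DF n h q * 1 := by
        have : e ≤ 1 := by linarith
        gcongr
      nlinarith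
    rw [Real.dist_eq, abs_lt]
    have r1 : 1 ≤ (DF n h (q + DF n h q) : ℝ) / DF n h q := by
      rw [le_div_iff₀ hD0]
      linarith
    have r2 : (DF n h (q + DF n h q) : ℝ) / DF n h q ≤ 1 + 3 * e := by
      rw [div_le_iff₀ hD0]
      exact hup
    constructor <;> linarith

end Pool.Agent.Q268.DL
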