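import Mathlib
import Pool.Agent.Q268.DL.Interp

/-!
The uniform asymptotic formula for the primes is equivalent to the asymptotic formula in windows of
length `D`, for all regular `D` larger than all powers of the logarithm.
-/

set_option autoImplicit false

namespace Pool.Agent.Q268.DL

open Filter Finset MeasureTheory
open Pool.Agent.Q268.DP
open scoped Topology

/-- single bad windows -/
theorem bad_window (hnot : ¬ QU PP) : ∃ e : ℝ, 0 < e ∧ ∀ (N : ℕ) (δ : ℝ), 0 < δ → ∃ n h : ℕ, N ≤ n ∧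
    Real.log n ^ N ≤ h ∧ (h : ℝ) < δ * n ∧ 2 ≤ n ∧ 1 ≤ Real.log n ∧
    e < |(cw PP n h : ℝ) / (h / Real.log n) - 1| := by
  unfold QU at hnot
  push Not at hnot
  obtain ⟨ε, hε, hbad⟩ := hnot
  set e := min (ε / 8) (1 / 16) with he
  have he0 : 0 < e := lt_min (by positivity) (by norm_num)
  have he1 : e ≤ ε / 8 := min_le_left _ _
  have he2 : e ≤ 1 / 16 := min_le_right _ _
  refine ⟨4 * e, by positivity, fun N δ hδ => ?_⟩
  obtain ⟨x₁, hx₁⟩ := eventually_atTop.1 (real_window he0 he2)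
  obtain ⟨n₀, hn₀⟩ := eventually_atTop.1 (pnt_long hδ (show 0 < 4 * e by positivity))
  set N' : ℝ := max ((N : ℝ) + 3) (max x₁ (max ((n₀ : ℝ) + 1) (Real.exp (1 / e + 4)))) with hN'
  have b1 : (N : ℝ) + 3 ≤ N' := le_max_left _ _
  have b2 : x₁ ≤ N' := (le_max_left _ _).trans (le_max_right _ _)
  have b3 : (n₀ : ℝ) + 1 ≤ N' := ((le_max_left _ _).trans (le_max_right _ _)).trans (le_max_right _ _)
  have b4 : Real.exp (1 / e + 4) ≤ N' := ((le_max_right _ _).trans (le_max_right _ _)).trans (le_max_right _ _)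
  have hN0 : (0 : ℝ) ≤ N := Nat.cast_nonneg N
  obtain ⟨x, y, hx, hy1, hy2, hxy⟩ := hbad N' (by linarith)
  have h1e : 0 < 1 / e := by positivity
  have hx0 : 0 < x := (Real.exp_pos _).trans_le (b4.trans hx)
  have hL : 1 / e + 4 ≤ Real.log x := (Real.le_log_iff_exp_le hx0).2 (b4.trans hx)
  have hL1 : 1 ≤ Real.log x := by linarith
  have hyN : Real.log x ^ (N + 1) ≤ y := by
    refine le_trans ?_ hy1
    rw [← Real.rpow_natCast]
    apply Real.rpow_le_rpow_of_exponent_le hL1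
    push_cast
    linarith
  have hpN : 1 ≤ Real.log x ^ N := one_le_pow₀ hL1
  have hyN2 : Real.log x ^ N + 1 ≤ y := by
    have h1 : Real.log x ^ (N + 1) = Real.log x * Real.log x ^ N := by ring
    rw [h1] at hyN
    nlinarith
  have hyl : Real.log x ≤ y := by
    refine le_trans ?_ hyN
    have h1 : Real.log x ^ (N + 1) = Real.log x * Real.log x ^ N := by ring
    rw [h1]
    nlinarith
  have hy0 : 0 ≤ y := by linarith
  have hlen := floor_len hx0.le hy0
  rw [abs_le] at hlen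
  have hnx : (⌊x⌋₊ : ℝ) ≤ x := Nat.floor_le hx0.le
  have hnx2 : x < ⌊x⌋₊ + 1 := Nat.lt_floor_add_one x
  have hx5 : 5 ≤ x := by
    have := Real.add_one_le_exp (1 / e + 4)
    linarith [b4.trans hx]
  have hexp : Real.exp (1 / e + 3) ≤ (⌊x⌋₊ : ℝ) := by
    have h1 : Real.exp (1 / e + 4) ≤ x := b4.trans hx
    have h2 : Real.exp (1 / e + 4) = Real.exp (1 / e + 3) * Real.exp 1 := by
      rw [← Real.exp_add]
      congr 1
      ring
    have h3 := Real.add_one_le_exp (1 : ℝ)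
    have h4 : 1 ≤ Real.exp (1 / e + 3) := Real.one_le_exp (by linarith)
    nlinarith
  have hn0 : (0 : ℝ) < (⌊x⌋₊ : ℝ) := by linarith
  have hln : 1 / e + 3 ≤ Real.log (⌊x⌋₊ : ℕ) := (Real.le_log_iff_exp_le hn0).2 hexp
  have hln2 : Real.log (⌊x⌋₊ : ℕ) ≤ Real.log x := Real.log_le_log hn0 hnx
  have hmain := hx₁ x (b2.trans hx) y (by linarith) (cR PP x y)
  rw [cR_cw PP hx0.le hy0] at hmain
  have hRR : RR PP x y = (cw PP ⌊x⌋₊ (⌊x + y⌋₊ - ⌊x⌋₊) : ℝ) / (y / Real.log x) := by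
    unfold RR
    rw [cR_cw PP hx0.le hy0]
  rw [hRR] at hxy
  set n := ⌊x⌋₊ with hn
  set h := ⌊x + y⌋₊ - n with hh
  have hln0 : 0 < Real.log n := by linarith
  have hh1 : (0 : ℝ) < h := by linarith [hlen.1]
  have hv : 0 < (h : ℝ) / Real.log n := by positivity
  have hbad2 : 4 * e < |(cw PP n h : ℝ) / (h / Real.log n) - 1| := by
    by_contra hcon
    push Not at hcon
    have h1 : (cw PP n h : ℝ) / (h / Real.log n) - 1 = ((cw PP n h : ℝ) - h / Real.log n) / (h / Real.log n) := by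
      rw [sub_div, div_self hv.ne']
    rw [h1, abs_div, abs_of_pos hv, div_le_iff₀ hv] at hcon
    have h2 := hmain hcon
    linarith
  refine ⟨n, h, ?_, ?_, ?_, ?_, by linarith, hbad2⟩
  · have : (N : ℝ) ≤ n := by linarith
    exact_mod_cast this
  · have : Real.log n ^ N ≤ Real.log x ^ N := by gcongr
    linarith [hlen.1]
  · by_contra hcon
    push Not at hcon
    have h3 : h ≤ 3 * n := by
      have : (h : ℝ) ≤ ((3 * n : ℕ) : ℝ) := by
        push_cast
        linarith [hlen.2]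
      exact_mod_cast this
    have h4 : n₀ ≤ n := by
      have : (n₀ : ℝ) ≤ n := by linarith
      exact_mod_cast this
    exact absurd (hn₀ n h4 h hcon h3) (not_le.2 hbad2)
  · have : (2 : ℝ) ≤ n := by linarith
    exact_mod_cast this

theorem exists_seq (hnot : ¬ QU PP) : ∃ e : ℝ, 0 < e ∧ ∃ n h : ℕ → ℕ, Seq n h ∧
    ∀ j, e < |(cw PP (n j) (h j) : ℝ) / (h j / Real.log (n j)) - 1| := by
  obtain ⟨e, he, hbad⟩ := bad_window hnot
  choose! nn hh H1 H2 H3 H4 H5 H6 using hbad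
  refine ⟨e, he, ?_⟩
  -- recursion
  let stepN : ℕ → ℕ × ℕ → ℕ := fun j p => ⌈Real.exp ((p.2 : ℝ) + j + 3)⌉₊ + (2 * (j + 1) + 2)
  let stepD : ℕ → ℕ × ℕ → ℝ := fun j p => min (1 / ((j : ℝ) + 2)) ((p.2 : ℝ) / p.1)
  let P : ℕ → ℕ × ℕ := fun j => Nat.rec (nn (⌈Real.exp 2⌉₊ + 2) 1, hh (⌈Real.exp 2⌉₊ + 2) 1)
    (fun j p => (nn (stepN j p) (stepD j p), hh (stepN j p) (stepD j p))) j
  have P0 : P 0 = (nn (⌈Real.exp 2⌉₊ + 2) 1, hh (⌈Real.exp 2⌉₊ + 2) 1) := rfl
  have PS : ∀ j, P (j + 1) = (nn (stepN j (P j)) (stepD j (P j)), hh (stepN j (P j)) (stepD j (P j))) := fun j => rfl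
  -- every term comes from `hbad`
  have Q : ∀ j, ∃ (N : ℕ) (δ : ℝ), 0 < δ ∧ P j = (nn N δ, hh N δ) ∧ 2 * j + 2 ≤ N ∧
      Real.exp ((j : ℝ) + 2) ≤ N ∧ δ ≤ 1 / ((j : ℝ) + 1) := by
    intro j
    induction j with
    | zero =>
      refine ⟨⌈Real.exp 2⌉₊ + 2, 1, one_pos, P0, by omega, ?_, by norm_num⟩
      push_cast
      rw [zero_add]
      have := Nat.le_ceil (Real.exp 2)
      linarith
    | succ j ih =>
      obtain ⟨N, δ, h1, h2, h3, h4, h5⟩ := ih
      have k2 : (P j).2 = hh N δ := by rw [h2]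
      have k1 : (P j).1 = nn N δ := by rw [h2]
      have kpos : (0 : ℝ) < (P j).2 := by
        rw [k2]
        refine lt_of_lt_of_le ?_ (H2 N δ h1)
        have := H5 N δ h1
        positivity
      have kpos1 : (0 : ℝ) < (P j).1 := by
        rw [k1]
        have : 0 < nn N δ := by
          have := H4 N δ h1
          omega
        exact_mod_cast this
      refine ⟨stepN j (P j), stepD j (P j), ?_, PS j, ?_, ?_, ?_⟩
      · apply lt_min
        · positivity
        · exact div_pos kpos kpos1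
      · change 2 * (j + 1) + 2 ≤ ⌈Real.exp (((P j).2 : ℝ) + j + 3)⌉₊ + (2 * (j + 1) + 2)
        omega
      · have h6 := Nat.le_ceil (Real.exp (((P j).2 : ℝ) + j + 3))
        have h7 : Real.exp (((j + 1 : ℕ) : ℝ) + 2) ≤ Real.exp (((P j).2 : ℝ) + j + 3) := by
          apply Real.exp_le_exp.2
          push_cast
          linarith
        have h8 : ((stepN j (P j) : ℕ) : ℝ) = (⌈Real.exp (((P j).2 : ℝ) + j + 3)⌉₊ : ℝ) + (2 * (j + 1) + 2 : ℕ) := by
          change ((⌈Real.exp (((P j).2 : ℝ) + j + 3)⌉₊ + (2 * (j + 1) + 2) : ℕ) : ℝ) = _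
          push_cast
          ring
        rw [h8]
        have h9 : (0 : ℝ) ≤ ((2 * (j + 1) + 2 : ℕ) : ℝ) := Nat.cast_nonneg _
        linarith
      · refine (min_le_left _ _).trans (le_of_eq ?_)
        push_cast
        ring
  have pos : ∀ j, (0 : ℝ) < (P j).2 ∧ (0 : ℝ) < (P j).1 := by
    intro j
    obtain ⟨N, δ, h1, h2, h3, h4, h5⟩ := Q j
    have k2 : (P j).2 = hh N δ := by rw [h2]
    have k1 : (P j).1 = nn N δ := by rw [h2]
    constructor
    · rw [k2]
      refine lt_of_lt_of_le ?_ (H2 N δ h1)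
      have := H5 N δ h1
      positivity
    · rw [k1]
      have : 0 < nn N δ := by
        have := H4 N δ h1
        omega
      exact_mod_cast this
  refine ⟨fun j => (P j).1, fun j => (P j).2, ⟨?_, ?_, ?_, ?_, ?_⟩, ?_⟩
  · intro j
    obtain ⟨N, δ, h1, h2, h3, h4, h5⟩ := Q j
    have k1 : (P j).1 = nn N δ := by rw [h2]
    simp only [k1]
    have h6 : (N : ℝ) ≤ nn N δ := by exact_mod_cast H1 N δ h1
    rw [Real.le_log_iff_exp_le (lt_of_lt_of_le (Real.exp_pos _) (h4.trans h6))]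
    exact h4.trans h6
  · intro j
    obtain ⟨N, δ, h1, h2, h3, h4, h5⟩ := Q j
    have k2 : (P j).2 = hh N δ := by rw [h2]
    have k1 : (P j).1 = nn N δ := by rw [h2]
    simp only [k1, k2]
    exact (pow_le_pow_right₀ (H5 N δ h1) h3).trans (H2 N δ h1)
  · intro j
    obtain ⟨N, δ, h1, h2, h3, h4, h5⟩ := Q j
    have k2 : (P j).2 = hh N δ := by rw [h2]
    have k1 : (P j).1 = nn N δ := by rw [h2]
    simp only [k1, k2]
    have h6 := H3 N δ h1
    have h7 : (0 : ℝ) ≤ nn N δ := Nat.cast_nonneg _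
    calc (hh N δ : ℝ) ≤ δ * nn N δ := h6.le
      _ ≤ 1 / ((j : ℝ) + 1) * nn N δ := by gcongr
      _ = _ := by ring
  · intro j
    have hδ : 0 < stepD j (P j) := by
      apply lt_min
      · positivity
      · exact div_pos (pos j).1 (pos j).2
    have h1 := H3 (stepN j (P j)) (stepD j (P j)) hδ
    have h2 : (0 : ℝ) < nn (stepN j (P j)) (stepD j (P j)) := by
      have := H4 (stepN j (P j)) (stepD j (P j)) hδ
      have : 0 < nn (stepN j (P j)) (stepD j (P j)) := by omega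
      exact_mod_cast this
    have h3 : stepD j (P j) ≤ ((P j).2 : ℝ) / (P j).1 := min_le_right _ _
    change (hh (stepN j (P j)) (stepD j (P j)) : ℝ) / nn (stepN j (P j)) (stepD j (P j)) ≤ _
    rw [div_le_iff₀ h2]
    refine h1.le.trans ?_
    gcongr
  · intro j
    have hδ : 0 < stepD j (P j) := by
      apply lt_min
      · positivity
      · exact div_pos (pos j).1 (pos j).2
    have h1 := H1 (stepN j (P j)) (stepD j (P j)) hδ
    have h2 := H2 (stepN j (P j)) (stepD j (P j)) hδ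
    have h5 := H5 (stepN j (P j)) (stepD j (P j)) hδ
    have h6 : Real.exp (((P j).2 : ℝ) + j + 3) ≤ nn (stepN j (P j)) (stepD j (P j)) := by
      have h7 := Nat.le_ceil (Real.exp (((P j).2 : ℝ) + j + 3))
      have h8 : ⌈Real.exp (((P j).2 : ℝ) + j + 3)⌉₊ ≤ nn (stepN j (P j)) (stepD j (P j)) := by
        refine le_trans ?_ h1
        change ⌈Real.exp (((P j).2 : ℝ) + j + 3)⌉₊ ≤ ⌈Real.exp (((P j).2 : ℝ) + j + 3)⌉₊ + (2 * (j + 1) + 2)
        omega
      exact h7.trans (by exact_mod_cast h8)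
    have h7 : ((P j).2 : ℝ) + j + 3 ≤ Real.log (nn (stepN j (P j)) (stepD j (P j))) :=
      (Real.le_log_iff_exp_le (lt_of_lt_of_le (Real.exp_pos _) h6)).2 h6
    have h8 : Real.log (nn (stepN j (P j)) (stepD j (P j))) ≤ hh (stepN j (P j)) (stepD j (P j)) := by
      refine le_trans ?_ h2
      refine le_self_pow₀ h5 ?_
      change ⌈Real.exp (((P j).2 : ℝ) + j + 3)⌉₊ + (2 * (j + 1) + 2) ≠ 0
      omega
    have h9 : ((P j).2 : ℝ) ≤ hh (stepN j (P j)) (stepD j (P j)) := by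
      have : (0 : ℝ) ≤ j := Nat.cast_nonneg j
      linarith
    change (P j).2 ≤ hh (stepN j (P j)) (stepD j (P j))
    exact_mod_cast h9
  · intro j
    obtain ⟨N, δ, h1, h2, h3, h4, h5⟩ := Q j
    have k2 : (P j).2 = hh N δ := by rw [h2]
    have k1 : (P j).1 = nn N δ := by rw [h2]
    simp only [k1, k2]
    exact H6 N δ h1

theorem QU_iff_all : QU PP ↔ ∀ D : ℕ → ℕ, Regular D → (∀ N : ℕ, ∀ᶠ q : ℕ in atTop, Real.log q ^ N ≤ D q) →
    Tendsto (RD D) atTop (𝓝 1) := by
  constructor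
  · intro hQ D hD hN
    rw [Metric.tendsto_atTop]
    intro ε hε
    obtain ⟨N, hN1, hx⟩ := hQ (ε / 2) (by positivity)
    obtain ⟨M, hM⟩ := eventually_atTop.1 ((hN ⌈N⌉₊).and ((hD.small.eventually_le_const (show (0 : ℝ) < 1 by norm_num)).and
      ((hlogN.eventually_ge_atTop 1).and (((tendsto_natCast_atTop_atTop (R := ℝ)).eventually_ge_atTop N).and
        (eventually_gt_atTop 0)))))
    refine ⟨M, fun t ht => ?_⟩
    obtain ⟨h1, h2, h3, h4, h5⟩ := hM t ht
    have ht0 : (0 : ℝ) < t := by exact_mod_cast h5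
    rw [div_le_iff₀ ht0, one_mul] at h2
    have h6 := hx t (D t) h4 (by
      refine le_trans ?_ h1
      rw [← Real.rpow_natCast]
      exact Real.rpow_le_rpow_of_exponent_le h3 (Nat.le_ceil N)) h2
    unfold RR at h6
    rw [cR_nat] at h6
    rw [Real.dist_eq]
    have h7 : RD D t = (cw PP t (D t) : ℝ) / ((D t : ℝ) / Real.log t) := rfl
    rw [h7]
    linarith
  · intro hall
    by_contra hnot
    obtain ⟨e, he, n, h, hS, hbad⟩ := exists_seq hnot
    have h1 := hall (DF n h) (DF_regular hS) (DF_pow hS)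
    rw [Metric.tendsto_atTop] at h1
    obtain ⟨M, hM⟩ := h1 e he
    have h2 : M ≤ n M := by
      have h3 := hS.big M
      have h4 := Real.log_le_sub_one_of_pos (hS.npos M)
      have h5 : (M : ℝ) ≤ n M := by linarith
      exact_mod_cast h5
    have h3 := hM (n M) h2
    rw [Real.dist_eq] at h3
    have h4 := hbad M
    have h5 : RD (DF n h) (n M) = (cw PP (n M) (h M) : ℝ) / ((h M : ℝ) / Real.log (n M)) := by
      unfold RD
      rw [DF_at hS]
    rw [h5] at h3
    linarith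

end Pool.Agent.Q268.DL
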